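import Pool.Agent.Lib.MP_1e1427_nt.GM.Stm

set_option autoImplicit false

/-!
MP_1e1427_nt, GM 22: the second moment of `Phi` (theorem `p_L2`).
-/

open Finset MeasureTheory
open Pool.Agent.APP (ee nn)

namespace Pool.Agent.GM

private lemma L2_cont_ee : Continuous ee := by
  unfold ee
  fun_prop

private lemma L2_cont_Qs (X : Finset ℕ) (V c : ℕ) : Continuous (fun α : ℝ => Qs X V c α) := by
  unfold Qs
  refine continuous_finsetSum _ fun y _ => ?_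
  exact L2_cont_ee.comp (continuous_id.mul continuous_const)

private lemma L2_cont_Ds (H : ℕ) : Continuous (fun α : ℝ => Ds H α) := by
  unfold Ds
  refine continuous_const.mul (continuous_finsetSum _ fun y _ => ?_)
  exact L2_cont_ee.comp (continuous_id.mul continuous_const)

private lemma L2_cont_Phi (V c d e L H : ℕ) (X : Finset ℕ) :
    Continuous (fun α : ℝ => Phi V c d e L H X α) := by
  unfold Phi
  exact ((((L2_cont_Qs X (5 * V) e).norm.mul (L2_cont_Qs _ V c).norm).mul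
    (L2_cont_Qs _ V d).norm).mul (continuous_const.sub (L2_cont_Ds H)).norm).pow 2

/-- the minor arcs -/
private lemma L2_minor (h_D : S_D) (V c d e K H : ℕ) (X : Finset ℕ) (hH : 1 ≤ H) (α : ℝ)
    (hw : ‖Qs (Ico (K ^ 24) (3 * K ^ 24)) V c α‖ ^ 2 ≤ (K : ℝ) ^ 44) :
    Phi V c d e (K ^ 24) H X α ≤ 4 * (K : ℝ) ^ 44 *
      (‖Qs X (5 * V) e α‖ * ‖Qs (Ico (2 * K ^ 24) (20 * K ^ 24)) V d α‖) ^ 2 := by
  have h1 := (h_D H α hH).1
  unfold Phi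
  have e1 : (‖Qs X (5 * V) e α‖ * ‖Qs (Ico (K ^ 24) (3 * K ^ 24)) V c α‖ *
      ‖Qs (Ico (2 * K ^ 24) (20 * K ^ 24)) V d α‖ * ‖1 - Ds H α‖) ^ 2 =
      (‖Qs (Ico (K ^ 24) (3 * K ^ 24)) V c α‖ ^ 2 * ‖1 - Ds H α‖ ^ 2) *
        (‖Qs X (5 * V) e α‖ * ‖Qs (Ico (2 * K ^ 24) (20 * K ^ 24)) V d α‖) ^ 2 := by ring
  rw [e1]
  refine mul_le_mul_of_nonneg_right ?_ (by positivity)
  calc ‖Qs (Ico (K ^ 24) (3 * K ^ 24)) V c α‖ ^ 2 * ‖1 - Ds H α‖ ^ 2 ≤ (K : ℝ) ^ 44 * 4 :=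
        mul_le_mul hw h1 (by positivity) (by positivity)
    _ = 4 * (K : ℝ) ^ 44 := by ring

/-- the arcs with denominator coprime to `2V` -/
private lemma L2_q (h_pairs : S_pairs) (w V c e K q : ℕ) (C1 : ℝ) (hC1 : 0 < C1) (X : Finset ℕ)
    (hV : HypV w V c) (hX : HypX C1 V K X) (hq1 : 1 < q) (hq : q ≤ K ^ 5)
    (hcop : q.Coprime (2 * V)) :
    w < q ∧ (prs X (5 * V) e q : ℝ) / q ≤
      C1 ^ 2 * (X.card : ℝ) ^ 2 * ((q.divisors.card : ℝ) / (q.totient : ℝ) ^ 2) := by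
  obtain ⟨hw5, hV1, h2V, hpV, hcV⟩ := hV
  have hwq : w < q := by
    by_contra hcon
    have hp : (Nat.minFac q).Prime := Nat.minFac_prime (by omega)
    have h1 : Nat.minFac q ∣ 2 * V := hpV _ hp (le_trans (Nat.minFac_le (by omega)) (by omega))
    have h2 : Nat.minFac q ∣ Nat.gcd q (2 * V) := Nat.dvd_gcd (Nat.minFac_dvd q) h1
    rw [hcop] at h2
    exact hp.one_lt.ne' (Nat.dvd_one.1 h2)
  refine ⟨hwq, ?_⟩
  have h5 : q.Coprime 5 := by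
    have h5V : 5 ∣ 2 * V := hpV 5 (by norm_num) hw5
    exact Nat.Coprime.coprime_dvd_right h5V hcop
  have hcop' : q.Coprime (2 * (5 * V)) := by
    have : 2 * (5 * V) = 5 * (2 * V) := by ring
    rw [this]
    exact Nat.Coprime.mul_right h5 hcop
  have h := h_pairs X (5 * V) e q C1 (X.card : ℝ) (by omega) hcop' hC1.le (by positivity)
    (fun u _ => hX.2.2 q u (by omega) hq hcop)
  have hφ : (0 : ℝ) < (q.totient : ℝ) := by
    exact_mod_cast Nat.totient_pos.2 (by omega)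
  have hq0 : (0 : ℝ) < (q : ℝ) := by exact_mod_cast (by omega : 0 < q)
  rw [div_le_iff₀ hq0]
  have e2 : C1 ^ 2 * (X.card : ℝ) ^ 2 * ((q.divisors.card : ℝ) / (q.totient : ℝ) ^ 2) * (q : ℝ) =
      (C1 ^ 2 * (X.card : ℝ) ^ 2 * ((q : ℝ) * (q.divisors.card : ℝ))) / (q.totient : ℝ) ^ 2 := by
    ring
  rw [e2, le_div_iff₀ (by positivity)]
  exact h

theorem p_L2 (h_arcs : S_arcs) (h_weyl : S_weyl) (h_fh : S_fh) (h_D : S_D) (h_maj1 : S_maj1)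
    (h_majq : S_majq) (h_majn : S_majn) (h_pairs : S_pairs) (h_tau : S_tau) : S_L2 := by
  intro C1 hC1
  obtain ⟨Ct, hCt, htau⟩ := h_tau
  refine ⟨10 ^ 9 + 10 ^ 9 * (C1 ^ 2 * Ct) + 1, by positivity, ?_⟩
  intro w V c d e hV
  have hV' := hV
  obtain ⟨hw5, hV1, h2V, hpV, hcV⟩ := hV'
  obtain ⟨K1, hK1⟩ := h_weyl V c hV1
  obtain ⟨K2, hK2⟩ := h_fh V d e hV1
  obtain ⟨K3, hK3⟩ := h_maj1 V c d e hV1 h2V hcV
  obtain ⟨K4, hK4⟩ := h_majq V c d e hV1 h2V hcV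
  obtain ⟨K5, hK5⟩ := h_majn V c d e hV1 h2V hcV
  refine ⟨K1 + K2 + K3 + K4 + K5 + 6 * V * w, ?_⟩
  intro K hK X H hX hH hHw
  have hVw : 1 ≤ V * w := Nat.mul_pos hV1 (by omega)
  have hKVw : 6 * (V * w) ≤ K := by
    have : 6 * V * w = 6 * (V * w) := by ring
    omega
  have hK1' : 1 ≤ K := by omega
  have hKR : (1 : ℝ) ≤ (K : ℝ) := by exact_mod_cast hK1'
  have hK0R : (0 : ℝ) < (K : ℝ) := by linarith
  have hVR : (1 : ℝ) ≤ (V : ℝ) := by exact_mod_cast hV1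
  have hwR : (1 : ℝ) ≤ (w : ℝ) := by exact_mod_cast (by omega : 1 ≤ w)
  have hs1 : (1 : ℝ) ≤ Real.sqrt w := by
    rw [Real.one_le_sqrt]; exact hwR
  have hsw : Real.sqrt w ≤ (w : ℝ) := by
    rw [Real.sqrt_le_left (by linarith)]
    nlinarith
  -- the dissection
  have harc := h_arcs (fun α => Phi V c d e (K ^ 24) H X α)
    (fun α => 4 * (K : ℝ) ^ 44 *
      (‖Qs X (5 * V) e α‖ * ‖Qs (Ico (2 * K ^ 24) (20 * K ^ 24)) V d α‖) ^ 2)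
    (K ^ 5) (K ^ 42) (L2_cont_Phi V c d e (K ^ 24) H X)
    (continuous_const.mul (((L2_cont_Qs X (5 * V) e).norm.mul (L2_cont_Qs _ V d).norm).pow 2))
    (fun α => by unfold Phi; positivity) (fun α => by positivity)
    (Nat.one_le_pow _ _ hK1') (Nat.pow_le_pow_right hK1' (by norm_num))
    (fun α q r hq1 hq2 hgcd hα => L2_minor h_D V c d e K H X hH α
      (hK1 K (by omega) α q r hq1 hq2 hgcd hα))
  have hn : ((K ^ 42 : ℕ) : ℝ) = (K : ℝ) ^ 42 := by push_cast; ring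
  rw [hn] at harc
  have hMq : (∑ q ∈ Icc 1 (K ^ 5), ∑ r ∈ (range (q + 1)).filter (fun r => r.Coprime q),
      ∫ β in (-(1 / (K : ℝ) ^ 42))..(1 / (K : ℝ) ^ 42),
        Phi V c d e (K ^ 24) H X ((r : ℝ) / (q : ℝ) + β)) =
      ∑ q ∈ Icc 1 (K ^ 5), Mq V c d e K H X q := rfl
  rw [hMq] at harc
  refine harc.trans ?_
  -- the minor arcs
  have hmin : ∫ α in (0 : ℝ)..1, 4 * (K : ℝ) ^ 44 *
      (‖Qs X (5 * V) e α‖ * ‖Qs (Ico (2 * K ^ 24) (20 * K ^ 24)) V d α‖) ^ 2 ≤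
      4 * (K : ℝ) ^ 93 := by
    rw [intervalIntegral.integral_const_mul]
    calc 4 * (K : ℝ) ^ 44 * _ ≤ 4 * (K : ℝ) ^ 44 * (K : ℝ) ^ 49 :=
          mul_le_mul_of_nonneg_left (hK2 K (by omega) X hX.1) (by positivity)
      _ = 4 * (K : ℝ) ^ 93 := by ring
  -- the major arcs
  set F : ℝ := (X.card : ℝ) with hF
  have hFK : (K : ℝ) ^ 23 ≤ F := hX.2.1
  have hF0 : 0 ≤ F := le_trans (by positivity) hFK
  have hF2 : (K : ℝ) ^ 46 ≤ F ^ 2 := by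
    calc (K : ℝ) ^ 46 = ((K : ℝ) ^ 23) ^ 2 := by ring
      _ ≤ F ^ 2 := pow_le_pow_left₀ (by positivity) hFK 2
  have hsplit : Icc 1 (K ^ 5) = insert 1 (Ioc 1 (K ^ 5)) := by
    ext x
    have := Nat.one_le_pow 5 K hK1'
    simp only [mem_Icc, mem_insert, mem_Ioc]
    omega
  have hsum : ∑ q ∈ Icc 1 (K ^ 5), Mq V c d e K H X q =
      Mq V c d e K H X 1 + ∑ q ∈ Ioc 1 (K ^ 5), Mq V c d e K H X q := by
    rw [hsplit, Finset.sum_insert (by simp)]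
  have hm1 : Mq V c d e K H X 1 ≤ F ^ 2 * (10 ^ 9 * (K : ℝ) ^ 48 / (V * w) + (K : ℝ) ^ 36) :=
    hK3 K (by omega) X H w hH (by omega) hHw
  have hterm : ∀ q ∈ Ioc 1 (K ^ 5), Mq V c d e K H X q ≤
      (if w < q then 10 ^ 9 * ((K : ℝ) ^ 48 / V) * (C1 ^ 2 * F ^ 2) *
        ((q.divisors.card : ℝ) / (q.totient : ℝ) ^ 2) else 0) + F ^ 2 * (K : ℝ) ^ 36 := by
    intro q hq
    rw [mem_Ioc] at hq
    by_cases hcop : q.Coprime (2 * V)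
    · obtain ⟨hwq, hb⟩ := L2_q h_pairs w V c e K q C1 hC1 X hV hX hq.1 hq.2 hcop
      have h1 := hK4 K (by omega) X H q hH (by omega) hq.2 hcop
      rw [if_pos hwq]
      have h2 : 10 ^ 9 * ((K : ℝ) ^ 48 / V) * ((prs X (5 * V) e q : ℝ) / q) ≤
          10 ^ 9 * ((K : ℝ) ^ 48 / V) *
            (C1 ^ 2 * F ^ 2 * ((q.divisors.card : ℝ) / (q.totient : ℝ) ^ 2)) :=
        mul_le_mul_of_nonneg_left hb (by positivity)
      have h3 : 10 ^ 9 * ((K : ℝ) ^ 48 / V) *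
            (C1 ^ 2 * F ^ 2 * ((q.divisors.card : ℝ) / (q.totient : ℝ) ^ 2)) =
          10 ^ 9 * ((K : ℝ) ^ 48 / V) * (C1 ^ 2 * F ^ 2) *
            ((q.divisors.card : ℝ) / (q.totient : ℝ) ^ 2) := by ring
      linarith
    · have h1 := hK5 K (by omega) X H q hH (by omega) hq.2 hcop
      have h2 : (0 : ℝ) ≤ (if w < q then 10 ^ 9 * ((K : ℝ) ^ 48 / V) * (C1 ^ 2 * F ^ 2) *
        ((q.divisors.card : ℝ) / (q.totient : ℝ) ^ 2) else 0) := by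
        split_ifs
        · positivity
        · exact le_refl 0
      linarith
  have hS := Finset.sum_le_sum hterm
  rw [Finset.sum_add_distrib, ← Finset.sum_filter] at hS
  have hfil : (Ioc 1 (K ^ 5)).filter (fun q => w < q) ⊆ Ioc w (K ^ 5) := by
    intro q hq
    rw [mem_filter, mem_Ioc] at hq
    rw [mem_Ioc]
    exact ⟨hq.2, hq.1.2⟩
  have hS1 : ∑ q ∈ (Ioc 1 (K ^ 5)).filter (fun q => w < q),
      10 ^ 9 * ((K : ℝ) ^ 48 / V) * (C1 ^ 2 * F ^ 2) *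
        ((q.divisors.card : ℝ) / (q.totient : ℝ) ^ 2) ≤
      10 ^ 9 * ((K : ℝ) ^ 48 / V) * (C1 ^ 2 * F ^ 2) * (Ct / Real.sqrt w) := by
    rw [← Finset.mul_sum]
    refine mul_le_mul_of_nonneg_left ?_ (by positivity)
    refine (Finset.sum_le_sum_of_subset_of_nonneg hfil fun q _ _ => by positivity).trans ?_
    exact htau w (K ^ 5) (by omega)
  have hS2 : ∑ _q ∈ Ioc 1 (K ^ 5), F ^ 2 * (K : ℝ) ^ 36 ≤ F ^ 2 * (K : ℝ) ^ 41 := by
    rw [Finset.sum_const, nsmul_eq_mul, Nat.card_Ioc]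
    have h1 : ((K ^ 5 - 1 : ℕ) : ℝ) ≤ (K : ℝ) ^ 5 := by
      have : K ^ 5 - 1 ≤ K ^ 5 := Nat.sub_le _ _
      exact_mod_cast this
    calc ((K ^ 5 - 1 : ℕ) : ℝ) * (F ^ 2 * (K : ℝ) ^ 36) ≤ (K : ℝ) ^ 5 * (F ^ 2 * (K : ℝ) ^ 36) :=
          mul_le_mul_of_nonneg_right h1 (by positivity)
      _ = F ^ 2 * (K : ℝ) ^ 41 := by ring
  -- `1/(V w) ≤ 1/(V √w)`
  set T : ℝ := F ^ 2 * (K : ℝ) ^ 48 / (V * Real.sqrt w) with hT
  have hVs : (0 : ℝ) < V * Real.sqrt w := by positivity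
  have hA : F ^ 2 * (10 ^ 9 * (K : ℝ) ^ 48 / (V * w)) ≤ 10 ^ 9 * T := by
    have h1 : F ^ 2 * (10 ^ 9 * (K : ℝ) ^ 48 / (V * w)) =
        10 ^ 9 * (F ^ 2 * (K : ℝ) ^ 48) / (V * w) := by ring
    have h2 : 10 ^ 9 * T = 10 ^ 9 * (F ^ 2 * (K : ℝ) ^ 48) / (V * Real.sqrt w) := by
      rw [hT]; ring
    rw [h1, h2]
    exact div_le_div_of_nonneg_left (by positivity) hVs
      (mul_le_mul_of_nonneg_left hsw (by positivity))
  have hB : 10 ^ 9 * ((K : ℝ) ^ 48 / V) * (C1 ^ 2 * F ^ 2) * (Ct / Real.sqrt w) =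
      10 ^ 9 * (C1 ^ 2 * Ct) * T := by
    rw [hT]
    field_simp
  -- the error terms
  have hKT : 6 * (F ^ 2 * (K : ℝ) ^ 47) ≤ T := by
    rw [hT, le_div_iff₀ hVs]
    have h1 : 6 * ((V : ℝ) * Real.sqrt w) ≤ K := by
      have h2 : 6 * ((V : ℝ) * (w : ℝ)) ≤ K := by exact_mod_cast hKVw
      have h3 : (V : ℝ) * Real.sqrt w ≤ (V : ℝ) * (w : ℝ) :=
        mul_le_mul_of_nonneg_left hsw (by positivity)
      linarith
    calc 6 * (F ^ 2 * (K : ℝ) ^ 47) * (V * Real.sqrt w) =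
          (F ^ 2 * (K : ℝ) ^ 47) * (6 * (V * Real.sqrt w)) := by ring
      _ ≤ (F ^ 2 * (K : ℝ) ^ 47) * K := mul_le_mul_of_nonneg_left h1 (by positivity)
      _ = F ^ 2 * (K : ℝ) ^ 48 := by ring
  have hE1 : F ^ 2 * (K : ℝ) ^ 36 ≤ F ^ 2 * (K : ℝ) ^ 47 :=
    mul_le_mul_of_nonneg_left (pow_le_pow_right₀ hKR (by norm_num)) (by positivity)
  have hE2 : F ^ 2 * (K : ℝ) ^ 41 ≤ F ^ 2 * (K : ℝ) ^ 47 :=
    mul_le_mul_of_nonneg_left (pow_le_pow_right₀ hKR (by norm_num)) (by positivity)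
  have hE3 : (K : ℝ) ^ 93 ≤ F ^ 2 * (K : ℝ) ^ 47 := by
    calc (K : ℝ) ^ 93 = (K : ℝ) ^ 46 * (K : ℝ) ^ 47 := by ring
      _ ≤ F ^ 2 * (K : ℝ) ^ 47 := mul_le_mul_of_nonneg_right hF2 (by positivity)
  rw [hsum]
  have hm1' : Mq V c d e K H X 1 ≤ F ^ 2 * (10 ^ 9 * (K : ℝ) ^ 48 / (V * w)) +
      F ^ 2 * (K : ℝ) ^ 36 := by
    rw [← mul_add]; exact hm1
  have hfin : (10 ^ 9 + 10 ^ 9 * (C1 ^ 2 * Ct) + 1) * T =
      10 ^ 9 * T + 10 ^ 9 * (C1 ^ 2 * Ct) * T + T := by ring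
  rw [hfin]
  rw [hB] at hS1
  linarith

end Pool.Agent.GM
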