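import Pool.Agent.Lib.MP_1e1427_nt.GM.Stm

set_option autoImplicit false

open Finset

namespace Pool.Agent.GM

private theorem X_log (K : ℕ) (hK : 9216 ≤ K) : 48 * Real.log K ≤ K := by
  have h0 : (9216 : ℝ) ≤ K := by exact_mod_cast hK
  have h1 : (96 : ℝ) ≤ Real.sqrt K := by
    rw [show (96 : ℝ) = Real.sqrt 9216 by
      rw [show (9216 : ℝ) = 96 ^ 2 by norm_num, Real.sqrt_sq (by norm_num)]]
    exact Real.sqrt_le_sqrt h0
  have h2 : Real.log (Real.sqrt K) ≤ Real.sqrt K - 1 := Real.log_le_sub_one_of_pos (by linarith)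
  rw [Real.log_sqrt (by linarith)] at h2
  have h3 : Real.sqrt K * Real.sqrt K = K := Real.mul_self_sqrt (by linarith)
  nlinarith

/-- the bound in one class -/
private theorem X_class {C : ℝ} (hC0 : 0 < C)
    (hC : ∀ Q a j0 J : ℕ, 1 ≤ Q → 2 ≤ J →
      (((Ico j0 (j0 + J)).filter (fun j => (a + Q * j).Prime)).card : ℝ) ≤
      C * ((Q : ℝ) / Q.totient) * (J / Real.log J)) (V a K q u : ℕ) (hV : 1 ≤ V) (hK : 2 ≤ K)
    (hq : 1 ≤ q) (hqK : q ≤ K ^ 5) (hc : q.Coprime (2 * V)) (hu : u < q) :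
    ((((Ico (30 * K ^ 24) (31 * K ^ 24)).filter (fun x => (a + 4 * V * x).Prime)).filter
      (fun x => x % q = u)).card : ℝ) * q.totient ≤
      6 * C * (((4 * V : ℕ) : ℝ) / (4 * V).totient * (((K ^ 24 : ℕ) : ℝ) /
        (2 * Real.log ((K ^ 24 : ℕ) : ℝ)))) := by
  obtain ⟨L, hL⟩ : ∃ L, L = K ^ 24 := ⟨_, rfl⟩
  rw [← hL]
  have hq0 : (0 : ℝ) < q := by exact_mod_cast hq
  have hK0 : (0 : ℝ) < K := by exact_mod_cast (by omega : 0 < K)
  have hlK : 0 < Real.log K := Real.log_pos (by exact_mod_cast (by omega : 1 < K))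
  have hLr : (L : ℝ) = (K : ℝ) ^ 24 := by rw [hL]; push_cast; rfl
  have hqr : (q : ℝ) ≤ (K : ℝ) ^ 5 := by exact_mod_cast hqK
  have hK19 : (K : ℝ) ^ 19 ≤ L / q := by
    rw [le_div_iff₀ hq0, hLr]
    calc (K : ℝ) ^ 19 * q ≤ (K : ℝ) ^ 19 * (K : ℝ) ^ 5 :=
          mul_le_mul_of_nonneg_left hqr (by positivity)
      _ = (K : ℝ) ^ 24 := by rw [← pow_add]
  have h2K : (2 : ℝ) ≤ (K : ℝ) ^ 19 := by
    have h2 : (2 : ℝ) ≤ K := by exact_mod_cast hK
    calc (2 : ℝ) ≤ K := h2
      _ = (K : ℝ) ^ 1 := (pow_one _).symm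
      _ ≤ (K : ℝ) ^ 19 := pow_le_pow_right₀ (by linarith) (by norm_num)
  -- the number of blocks
  obtain ⟨J, hJ⟩ : ∃ J, J = L / q + 2 := ⟨_, rfl⟩
  have hJ1 : (J : ℝ) ≤ 2 * (L / q) := by
    have h3 : ((L / q : ℕ) : ℝ) ≤ (L : ℝ) / q := Nat.cast_div_le
    rw [hJ]
    push_cast
    linarith
  have hJ2 : (L : ℝ) / q ≤ J := by
    have h3 : (L : ℝ) / q < ((L / q : ℕ) : ℝ) + 1 := by
      rw [div_lt_iff₀ hq0]
      have h4 : L < (L / q + 1) * q := by
        have := Nat.lt_mul_div_succ L (by omega : 0 < q)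
        rw [mul_comm]
        exact this
      exact_mod_cast h4
    rw [hJ]
    push_cast
    linarith
  have hlJ : 19 * Real.log K ≤ Real.log J := by
    have h3 : Real.log ((K : ℝ) ^ 19) ≤ Real.log J :=
      Real.log_le_log (by positivity) (hK19.trans hJ2)
    rw [Real.log_pow] at h3
    exact_mod_cast h3
  have hcard := hC (4 * V * q) (a + 4 * V * u) ((30 * L) / q) J
    (by have : 0 < 4 * V * q := by positivity
        omega) (by rw [hJ]; exact Nat.le_add_left 2 _)
  -- injection
  have hinj : (((Ico (30 * L) (31 * L)).filter (fun x => (a + 4 * V * x).Prime)).filter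
      (fun x => x % q = u)).card ≤ ((Ico ((30 * L) / q) ((30 * L) / q + J)).filter
        (fun j => (a + 4 * V * u + 4 * V * q * j).Prime)).card := by
    refine Finset.card_le_card_of_injOn (fun x => x / q) ?_ ?_
    · intro x hx
      simp only [Finset.coe_filter, Finset.mem_filter, Finset.mem_Ico, Set.mem_ofPred_eq] at hx ⊢
      obtain ⟨⟨⟨h3, h4⟩, h5⟩, h6⟩ := hx
      have h7 : x = u + q * (x / q) := by
        have := Nat.mod_add_div x q
        rw [h6] at this
        exact this.symm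
      refine ⟨⟨Nat.div_le_div_right h3, ?_⟩, ?_⟩
      · rw [Nat.div_lt_iff_lt_mul (by omega)]
        have h8 : 30 * L < q * (30 * L / q + 1) := Nat.lt_mul_div_succ _ (by omega)
        have h9 : L < q * (L / q + 1) := Nat.lt_mul_div_succ _ (by omega)
        have h10 : (30 * L / q + J) * q = q * (30 * L / q + 1) + q * (L / q + 1) := by
          rw [hJ]; ring
        rw [h10]
        omega
      · rw [show a + 4 * V * u + 4 * V * q * (x / q) = a + 4 * V * (u + q * (x / q)) by ring,
          ← h7]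
        exact h5
    · intro x hx y hy hxy
      simp only [Finset.coe_filter, Finset.mem_filter, Finset.mem_Ico, Set.mem_ofPred_eq] at hx hy hxy
      have h7 := Nat.mod_add_div x q
      have h8 := Nat.mod_add_div y q
      rw [hx.2] at h7
      rw [hy.2] at h8
      rw [← h7, ← h8, hxy]
  have hinj' : ((((Ico (30 * L) (31 * L)).filter (fun x => (a + 4 * V * x).Prime)).filter
      (fun x => x % q = u)).card : ℝ) ≤ _ := (Nat.cast_le.2 hinj).trans hcard
  have hcop : Nat.Coprime (4 * V) q := by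
    have h3 : Nat.Coprime q 2 := Nat.Coprime.coprime_dvd_right (Dvd.intro _ rfl) hc
    have h4 : Nat.Coprime q V := Nat.Coprime.coprime_dvd_right (Dvd.intro_left _ rfl) hc
    have h5 : Nat.Coprime q (2 * (2 * V)) := h3.mul_right (h3.mul_right h4)
    rw [show 4 * V = 2 * (2 * V) by ring]
    exact h5.symm
  have htot : (4 * V * q).totient = (4 * V).totient * q.totient := Nat.totient_mul hcop
  have hφq : (0 : ℝ) < q.totient := by exact_mod_cast Nat.totient_pos.2 hq
  have hφQ : (0 : ℝ) < (4 * V).totient := by exact_mod_cast Nat.totient_pos.2 (by omega)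
  have hV0 : (0 : ℝ) < V := by exact_mod_cast hV
  have hJl : (J : ℝ) / Real.log J ≤ (2 * (L / q)) / (19 * Real.log K) :=
    div_le_div₀ (by positivity) hJ1 (by positivity) hlJ
  have hlL : Real.log (L : ℝ) = 24 * Real.log K := by
    rw [hLr, Real.log_pow]
    push_cast
    ring
  calc ((((Ico (30 * L) (31 * L)).filter (fun x => (a + 4 * V * x).Prime)).filter
      (fun x => x % q = u)).card : ℝ) * q.totient
      ≤ (C * (((4 * V * q : ℕ) : ℝ) / (4 * V * q).totient) * (J / Real.log J)) * q.totient :=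
        mul_le_mul_of_nonneg_right hinj' hφq.le
    _ ≤ (C * (((4 * V * q : ℕ) : ℝ) / (4 * V * q).totient) *
        ((2 * (L / q)) / (19 * Real.log K))) * q.totient := by
        refine mul_le_mul_of_nonneg_right (mul_le_mul_of_nonneg_left hJl ?_) hφq.le
        positivity
    _ = C * (((4 * V : ℕ) : ℝ) / (4 * V).totient) * (2 / 19 * (L / Real.log K)) := by
        rw [htot]
        push_cast
        field_simp
    _ ≤ 6 * C * (((4 * V : ℕ) : ℝ) / (4 * V).totient * (L / (2 * Real.log L))) := by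
        rw [hlL]
        have h5 : 0 ≤ C * (((4 * V : ℕ) : ℝ) / (4 * V).totient) * (L / Real.log K) := by
          positivity
        have h6 : 6 * C * (((4 * V : ℕ) : ℝ) / (4 * V).totient * (L / (2 * (24 * Real.log K)))) =
            1 / 8 * (C * (((4 * V : ℕ) : ℝ) / (4 * V).totient) * (L / Real.log K)) := by
          field_simp
          ring
        rw [h6]
        nlinarith

theorem p_X (h_pnt : S_pnt) (h_bt : S_bt) : S_X := by
  obtain ⟨C, hC0, hC⟩ := h_bt
  refine ⟨6 * C, by positivity, fun V a hV ha => ?_⟩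
  have ha4 : a.Coprime (4 * V) := by
    have h3 : Nat.Coprime a 2 := Nat.Coprime.coprime_dvd_right (Dvd.intro _ rfl) ha
    have h4 : Nat.Coprime a V := Nat.Coprime.coprime_dvd_right (Dvd.intro_left _ rfl) ha
    rw [show 4 * V = 2 * (2 * V) by ring]
    exact h3.mul_right (h3.mul_right h4)
  obtain ⟨L0, hL0⟩ := h_pnt (4 * V) a (by omega) ha4
  refine ⟨max L0 9216, fun K hK => ?_⟩
  have hK1 : 9216 ≤ K := (le_max_right _ _).trans hK
  have hK2 : L0 ≤ K ^ 24 := ((le_max_left _ _).trans hK).trans (Nat.le_self_pow (by norm_num) K)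
  have hp := hL0 _ hK2
  have hlog := X_log K hK1
  have hlK : 0 < Real.log K := Real.log_pos (by exact_mod_cast (by omega : 1 < K))
  have hK0 : (0 : ℝ) < K := by exact_mod_cast (by omega : 0 < K)
  have hφQ : (0 : ℝ) < (4 * V).totient := by exact_mod_cast Nat.totient_pos.2 (by omega)
  have hQ1 : (1 : ℝ) ≤ ((4 * V : ℕ) : ℝ) / (4 * V).totient := by
    rw [le_div_iff₀ hφQ, one_mul]
    exact_mod_cast Nat.totient_le _
  have hlL : Real.log ((K ^ 24 : ℕ) : ℝ) = 24 * Real.log K := by
    push_cast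
    rw [Real.log_pow]
    push_cast
    ring
  have hmain : (K : ℝ) ^ 24 / (48 * Real.log K) ≤
      (((Ico (30 * K ^ 24) (31 * K ^ 24)).filter (fun x => (a + 4 * V * x).Prime)).card : ℝ) := by
    refine le_trans ?_ hp
    rw [hlL]
    have h1 : ((K ^ 24 : ℕ) : ℝ) / (2 * (24 * Real.log K)) = (K : ℝ) ^ 24 / (48 * Real.log K) := by
      push_cast
      congr 1
      ring
    rw [h1]
    exact le_mul_of_one_le_left (by positivity) hQ1
  refine ⟨⟨Finset.filter_subset _ _, ?_, ?_⟩, hmain⟩
  · refine le_trans ?_ hmain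
    rw [le_div_iff₀ (by positivity)]
    calc (K : ℝ) ^ 23 * (48 * Real.log K) ≤ (K : ℝ) ^ 23 * K :=
          mul_le_mul_of_nonneg_left hlog (by positivity)
      _ = (K : ℝ) ^ 24 := by rw [← pow_succ]
  · intro q u hq hqK hc
    by_cases hu : u < q
    · refine (X_class hC0 hC V a K q u hV (by omega) hq hqK hc hu).trans ?_
      exact mul_le_mul_of_nonneg_left hp (by positivity)
    · have h0 : (((Ico (30 * K ^ 24) (31 * K ^ 24)).filter (fun x => (a + 4 * V * x).Prime)).filter
          (fun x => x % q = u)) = ∅ := by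
        refine Finset.filter_eq_empty_iff.2 fun x _ hx => hu ?_
        rw [← hx]
        exact Nat.mod_lt _ hq
      rw [h0, Finset.card_empty]
      simp only [Nat.cast_zero, zero_mul]
      positivity

end Pool.Agent.GM
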