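import Pool.Agent.Lib.MP_1e1427_nt.GM.Stm

set_option autoImplicit false

open Finset
open Pool.Agent.APP (ee nn)

namespace Pool.Agent.GM

open Pool.Agent.APP in
private lemma apq_abel (w G : ℕ → ℂ) (A B : ℕ) (hAB : A ≤ B) :
    ∑ y ∈ Ico A B, w y * G y = (∑ j ∈ Ico A B, w j) * G B -
      ∑ y ∈ Ico A B, (∑ j ∈ Ico A (y + 1), w j) * (G (y + 1) - G y) := by
  induction B, hAB using Nat.le_induction with
  | base => simp
  | succ B hB ih =>
    rw [Finset.sum_Ico_succ_top hB, Finset.sum_Ico_succ_top hB, Finset.sum_Ico_succ_top hB, ih,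
      Finset.sum_Ico_succ_top hB]
    ring

private lemma apq_tel (Q : ℕ → ℝ) (A B : ℕ) (hAB : A ≤ B) :
    ∑ y ∈ Ico A B, (Q (y + 1) - Q y) = Q B - Q A := by
  induction B, hAB using Nat.le_induction with
  | base => simp
  | succ B hB ih => rw [Finset.sum_Ico_succ_top hB, ih]; ring

private lemma apq_cnt (A n a q : ℕ) (hq : 1 ≤ q) (hAn : A ≤ n) :
    |(((Ico A n).filter (fun y => y ≡ a [MOD q])).card : ℝ) - ((n : ℝ) - A) / q| ≤ 1 := by
  have h := Nat.Ico_filter_modEq_card A n (r := q) (by omega) a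
  have hq' : (0 : ℚ) < q := by exact_mod_cast hq
  have hle : ⌈((A : ℚ) - a) / q⌉ ≤ ⌈((n : ℚ) - a) / q⌉ := by
    apply Int.ceil_le_ceil
    have : (A : ℚ) ≤ n := by exact_mod_cast hAn
    gcongr
  rw [max_eq_left (by linarith)] at h
  have h1 : (((Ico A n).filter (fun y => y ≡ a [MOD q])).card : ℚ) =
      (⌈((n : ℚ) - a) / q⌉ : ℚ) - (⌈((A : ℚ) - a) / q⌉ : ℚ) := by exact_mod_cast h
  have h2 := Int.le_ceil (((n : ℚ) - a) / q)
  have h3 := Int.ceil_lt_add_one (((n : ℚ) - a) / q)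
  have h4 := Int.le_ceil (((A : ℚ) - a) / q)
  have h5 := Int.ceil_lt_add_one (((A : ℚ) - a) / q)
  have h6 : ((n : ℚ) - A) / q = ((n : ℚ) - a) / q - ((A : ℚ) - a) / q := by ring
  have h7 : |(((Ico A n).filter (fun y => y ≡ a [MOD q])).card : ℚ) - ((n : ℚ) - A) / q| ≤ 1 := by
    rw [h1, h6, abs_le]
    constructor <;> linarith
  have h8 : ((|(((Ico A n).filter (fun y => y ≡ a [MOD q])).card : ℚ) - ((n : ℚ) - A) / q| : ℚ) : ℝ) ≤
      ((1 : ℚ) : ℝ) := by exact_mod_cast h7
  simpa using h8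

theorem p_apq : S_apq := by
  intro V c A B q r β hq hAB
  have hq0 : (0 : ℝ) < q := by exact_mod_cast hq
  set Q : ℕ → ℝ := fun y => (V : ℝ) * (y : ℝ) ^ 2 + (c : ℝ) * (y : ℝ) with hQ
  set G : ℕ → ℂ := fun y => ee (β * Q y) with hG
  set E : ℕ → ℂ := fun y => ee ((r : ℝ) / q * Q y) with hE
  -- periodicity
  have hper : ∀ y a : ℕ, y ≡ a [MOD q] → E y = E a := by
    intro y a hya
    obtain ⟨t, ht⟩ := (Nat.modEq_iff_dvd.1 hya)
    have h1 : (r : ℝ) / q * Q y = (r : ℝ) / q * Q a +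
        ((-(r * t * (V * (a + y) + c)) : ℤ) : ℝ) := by
      have h2 : (a : ℝ) - y = q * t := by exact_mod_cast ht
      have h3 : Q y = Q a - (q * t) * (V * (a + y) + c) := by
        rw [← h2]; simp only [hQ]; ring
      rw [h3]
      push_cast
      field_simp
      ring
    simp only [hE]
    rw [h1, Pool.Agent.APP.ee_add_int]
  have hvar : ∑ y ∈ Ico A B, ‖G (y + 1) - G y‖ ≤
      2 * Real.pi * |β| * (V * (B : ℝ) ^ 2 + c * B) := by
    have h1 : ∀ y ∈ Ico A B, ‖G (y + 1) - G y‖ ≤ 2 * Real.pi * |β| * (Q (y + 1) - Q y) := by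
      intro y _
      simp only [hG]
      refine (Pool.Agent.APP.norm_ee_sub_ee_le _ _).trans ?_
      have h2 : nn (β * Q (y + 1) - β * Q y) ≤ |β| * (Q (y + 1) - Q y) := by
        refine (Pool.Agent.APP.nn_le_abs _).trans ?_
        rw [← mul_sub, abs_mul]
        apply le_of_eq
        congr 1
        apply abs_of_nonneg
        simp only [hQ]
        push_cast
        have : (0 : ℝ) ≤ y := by positivity
        have hV : (0 : ℝ) ≤ V := by positivity
        have hc : (0 : ℝ) ≤ c := by positivity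
        nlinarith [mul_nonneg hV this]
      have hpi := Real.pi_pos
      nlinarith
    refine (Finset.sum_le_sum h1).trans ?_
    rw [← Finset.mul_sum, apq_tel Q A B hAB]
    have h3 : 0 ≤ Q A := by simp only [hQ]; positivity
    have hpi := Real.pi_pos
    have h4 : Q B = V * (B : ℝ) ^ 2 + c * B := rfl
    rw [← h4]
    have h5 : 0 ≤ 2 * Real.pi * |β| := by positivity
    nlinarith
  have hclaim : ∀ a : ℕ, ‖∑ y ∈ Ico A B, ((if y ≡ a [MOD q] then (1 : ℂ) else 0) - 1 / q) * G y‖ ≤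
      2 + 2 * Real.pi * |β| * (V * (B : ℝ) ^ 2 + c * B) := by
    intro a
    have hW : ∀ n, A ≤ n →
        ‖∑ j ∈ Ico A n, ((if j ≡ a [MOD q] then (1 : ℂ) else 0) - 1 / q)‖ ≤ 1 := by
      intro n hn
      rw [Finset.sum_sub_distrib, Finset.sum_boole, Finset.sum_const, Nat.card_Ico, nsmul_eq_mul]
      have h1 := apq_cnt A n a q hq hn
      have h2 : (((((Ico A n).filter (fun y => y ≡ a [MOD q])).card : ℝ) - ((n : ℝ) - A) / q : ℝ) : ℂ) =
          (((Ico A n).filter (fun y => y ≡ a [MOD q])).card : ℂ) - ((n - A : ℕ) : ℂ) * (1 / q) := by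
        push_cast [Nat.cast_sub hn]
        ring
      rw [← h2, Complex.norm_real, Real.norm_eq_abs]
      exact h1
    rw [apq_abel _ G A B hAB]
    refine (norm_sub_le _ _).trans ?_
    have h1 : ‖(∑ j ∈ Ico A B, ((if j ≡ a [MOD q] then (1 : ℂ) else 0) - 1 / q)) * G B‖ ≤ 1 := by
      rw [norm_mul]
      have : ‖G B‖ = 1 := Pool.Agent.APP.norm_ee _
      rw [this, mul_one]
      exact hW B hAB
    have h2 : ‖∑ y ∈ Ico A B, (∑ j ∈ Ico A (y + 1), ((if j ≡ a [MOD q] then (1 : ℂ) else 0) - 1 / q)) *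
        (G (y + 1) - G y)‖ ≤ ∑ y ∈ Ico A B, ‖G (y + 1) - G y‖ := by
      refine norm_sum_le_of_le _ (fun y hy => ?_)
      rw [Finset.mem_Ico] at hy
      rw [norm_mul]
      have := hW (y + 1) (by omega)
      have h3 := norm_nonneg (G (y + 1) - G y)
      nlinarith
    linarith
  have hmain : Qs (Ico A B) V c ((r : ℝ) / q + β) -
      Qs (range q) V c ((r : ℝ) / q) / q * Qs (Ico A B) V c β =
      ∑ a ∈ range q, E a * ∑ y ∈ Ico A B, ((if y ≡ a [MOD q] then (1 : ℂ) else 0) - 1 / q) * G y := by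
    have e1 : Qs (Ico A B) V c ((r : ℝ) / q + β) = ∑ y ∈ Ico A B, E y * G y := by
      unfold Qs
      apply Finset.sum_congr rfl
      intro y _
      simp only [hE, hG, hQ]
      rw [← Pool.Agent.APP.ee_add]
      congr 1
      ring
    have e2 : Qs (range q) V c ((r : ℝ) / q) = ∑ a ∈ range q, E a := rfl
    have e3 : Qs (Ico A B) V c β = ∑ y ∈ Ico A B, G y := rfl
    rw [e1, e2, e3]
    have e4 : ∀ a ∈ range q, E a * ∑ y ∈ Ico A B, ((if y ≡ a [MOD q] then (1 : ℂ) else 0) - 1 / q) * G y =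
        ∑ y ∈ Ico A B, (if y ≡ a [MOD q] then E y * G y else 0) - E a / q * ∑ y ∈ Ico A B, G y := by
      intro a _
      rw [Finset.mul_sum, Finset.mul_sum, ← Finset.sum_sub_distrib]
      apply Finset.sum_congr rfl
      intro y _
      by_cases h : y ≡ a [MOD q]
      · rw [if_pos h, if_pos h, hper y a h]; ring
      · rw [if_neg h, if_neg h]; ring
    rw [Finset.sum_congr rfl e4, Finset.sum_sub_distrib, ← Finset.sum_mul, Finset.sum_comm]
    congr 1
    · apply Finset.sum_congr rfl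
      intro y _
      rw [Finset.sum_eq_single (y % q)]
      · rw [if_pos (Nat.mod_modEq y q).symm]
      · intro b hb hby
        rw [if_neg]
        intro hcon
        apply hby
        rw [Finset.mem_range] at hb
        have : y % q = b % q := hcon
        rw [this, Nat.mod_eq_of_lt hb]
      · intro h
        exact absurd (Finset.mem_range.2 (Nat.mod_lt y (by omega))) h
    · rw [← Finset.sum_div]
  rw [hmain]
  refine (norm_sum_le _ _).trans ?_
  have h1 : ∀ a ∈ range q, ‖E a * ∑ y ∈ Ico A B, ((if y ≡ a [MOD q] then (1 : ℂ) else 0) - 1 / q) * G y‖ ≤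
      2 + 2 * Real.pi * |β| * (V * (B : ℝ) ^ 2 + c * B) := by
    intro a _
    rw [norm_mul]
    have : ‖E a‖ = 1 := Pool.Agent.APP.norm_ee _
    rw [this, one_mul]
    exact hclaim a
  refine (Finset.sum_le_sum h1).trans ?_
  rw [Finset.sum_const, card_range, nsmul_eq_mul]

end Pool.Agent.GM
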