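import Pool.Agent.Lib.MP_1e1427_nt.GM.Stm

set_option autoImplicit false

open Finset MeasureTheory

namespace Pool.Agent.GM

private lemma arcs_point (Φ Ψ : ℝ → ℝ) (Q1 n : ℕ) (hΦ : ∀ α, 0 ≤ Φ α)
    (hΨ : ∀ α, 0 ≤ Ψ α) (hn : 1 ≤ n)
    (h : ∀ (α : ℝ) (q : ℕ) (r : ℤ), Q1 < q → q ≤ n → Int.gcd r q = 1 →
      |α - r / q| ≤ 1 / (q : ℝ) ^ 2 → Φ α ≤ Ψ α) (α : ℝ) (h0 : 0 ≤ α) (h1 : α ≤ 1) :
    Φ α ≤ (∑ q ∈ Icc 1 Q1, ∑ r ∈ (range (q + 1)).filter (fun r => r.Coprime q),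
      (Set.Icc ((r : ℝ) / (q : ℝ) - 1 / (n : ℝ)) ((r : ℝ) / (q : ℝ) + 1 / (n : ℝ))).indicator Φ α) +
        Ψ α := by
  have hind : ∀ (q r : ℕ), 0 ≤ (Set.Icc ((r : ℝ) / (q : ℝ) - 1 / (n : ℝ))
      ((r : ℝ) / (q : ℝ) + 1 / (n : ℝ))).indicator Φ α := by
    intro q r
    exact Set.indicator_nonneg (fun x _ => hΦ x) α
  have hn0 : (0 : ℝ) < n := by exact_mod_cast hn
  obtain ⟨ρ, hρ1, hρ2⟩ := Real.exists_rat_abs_sub_le_and_den_le α (n := n) (by omega)
  set q := ρ.den with hq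
  have hqpos : 0 < q := ρ.den_pos
  have hq0 : (0 : ℝ) < q := by exact_mod_cast hqpos
  have hq1 : (1 : ℝ) ≤ q := by exact_mod_cast hqpos
  have hqn : (q : ℝ) ≤ n := by exact_mod_cast hρ2
  have hcast : (ρ : ℝ) = (ρ.num : ℝ) / (q : ℝ) := by
    rw [hq]; exact_mod_cast (Rat.num_div_den ρ).symm
  have hgcd : Int.gcd ρ.num q = 1 := by
    have := ρ.reduced
    rw [hq, Int.gcd_eq_natAbs, Int.natAbs_natCast]
    exact this
  rw [hcast] at hρ1
  by_cases hQ : Q1 < q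
  · have h2 : |α - ρ.num / q| ≤ 1 / (q : ℝ) ^ 2 := by
      refine hρ1.trans ?_
      apply one_div_le_one_div_of_le (by positivity)
      rw [sq]
      gcongr
      linarith
    have h3 := h α q ρ.num hQ hρ2 hgcd h2
    have h4 : 0 ≤ ∑ q ∈ Icc 1 Q1, ∑ r ∈ (range (q + 1)).filter (fun r => r.Coprime q),
        (Set.Icc ((r : ℝ) / (q : ℝ) - 1 / (n : ℝ)) ((r : ℝ) / (q : ℝ) + 1 / (n : ℝ))).indicator Φ α :=
      Finset.sum_nonneg (fun q _ => Finset.sum_nonneg (fun r _ => hind q r))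
    linarith
  · push Not at hQ
    have hlt : |α - ρ.num / q| < 1 / q := by
      refine hρ1.trans_lt ?_
      apply one_div_lt_one_div_of_lt hq0
      nlinarith
    rw [abs_lt] at hlt
    have hr0 : 0 ≤ ρ.num := by
      by_contra hcon
      push Not at hcon
      have h2 : (ρ.num : ℝ) ≤ -1 := by exact_mod_cast (show ρ.num ≤ -1 by omega)
      have h3 : (ρ.num : ℝ) / q ≤ -1 / q := by gcongr
      have h4 : (-1 : ℝ) / q = -(1 / q) := by ring
      linarith [hlt.2]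
    have hr1 : ρ.num ≤ q := by
      by_contra hcon
      push Not at hcon
      have h2 : (q : ℝ) + 1 ≤ (ρ.num : ℝ) := by exact_mod_cast (show (q : ℤ) + 1 ≤ ρ.num by omega)
      have h3 : ((q : ℝ) + 1) / q ≤ (ρ.num : ℝ) / q := by gcongr
      have h4 : ((q : ℝ) + 1) / q = 1 + 1 / q := by field_simp
      linarith [hlt.1]
    obtain ⟨r, hr⟩ := Int.eq_ofNat_of_zero_le hr0
    have hrq : r ≤ q := by omega
    have hcop : r.Coprime q := by
      rw [hr] at hgcd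
      simpa [Int.gcd_natCast_natCast] using hgcd
    have hmem : α ∈ Set.Icc ((r : ℝ) / (q : ℝ) - 1 / (n : ℝ)) ((r : ℝ) / (q : ℝ) + 1 / (n : ℝ)) := by
      have h2 : |α - (r : ℝ) / q| ≤ 1 / n := by
        have h3 : ((ρ.num : ℤ) : ℝ) = (r : ℝ) := by rw [hr]; simp
        rw [← h3]
        refine hρ1.trans ?_
        apply one_div_le_one_div_of_le hn0
        nlinarith
      rw [abs_le] at h2
      constructor <;> linarith [h2.1, h2.2]
    have hterm : Φ α = (Set.Icc ((r : ℝ) / (q : ℝ) - 1 / (n : ℝ))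
        ((r : ℝ) / (q : ℝ) + 1 / (n : ℝ))).indicator Φ α := by
      rw [Set.indicator_of_mem hmem]
    have hin : (Set.Icc ((r : ℝ) / (q : ℝ) - 1 / (n : ℝ))
        ((r : ℝ) / (q : ℝ) + 1 / (n : ℝ))).indicator Φ α ≤
        ∑ r ∈ (range (q + 1)).filter (fun r => r.Coprime q),
        (Set.Icc ((r : ℝ) / (q : ℝ) - 1 / (n : ℝ)) ((r : ℝ) / (q : ℝ) + 1 / (n : ℝ))).indicator Φ α := by
      apply Finset.single_le_sum (f := fun r : ℕ => (Set.Icc ((r : ℝ) / (q : ℝ) - 1 / (n : ℝ))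
        ((r : ℝ) / (q : ℝ) + 1 / (n : ℝ))).indicator Φ α) (fun r _ => hind q r)
      rw [Finset.mem_filter, Finset.mem_range]
      exact ⟨by omega, hcop⟩
    have hout : ∑ r ∈ (range (q + 1)).filter (fun r => r.Coprime q),
        (Set.Icc ((r : ℝ) / (q : ℝ) - 1 / (n : ℝ)) ((r : ℝ) / (q : ℝ) + 1 / (n : ℝ))).indicator Φ α ≤
        ∑ q ∈ Icc 1 Q1, ∑ r ∈ (range (q + 1)).filter (fun r => r.Coprime q),
        (Set.Icc ((r : ℝ) / (q : ℝ) - 1 / (n : ℝ)) ((r : ℝ) / (q : ℝ) + 1 / (n : ℝ))).indicator Φ α := by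
      apply Finset.single_le_sum (f := fun q : ℕ => ∑ r ∈ (range (q + 1)).filter (fun r => r.Coprime q),
        (Set.Icc ((r : ℝ) / (q : ℝ) - 1 / (n : ℝ)) ((r : ℝ) / (q : ℝ) + 1 / (n : ℝ))).indicator Φ α)
        (fun q _ => Finset.sum_nonneg (fun r _ => hind q r))
      rw [Finset.mem_Icc]
      exact ⟨hqpos, hQ⟩
    have h5 := hΨ α
    linarith

theorem p_arcs : S_arcs := by
  intro Φ Ψ Q1 n hΦc hΨc hΦ hΨ hn hQn h
  have hn0 : (0 : ℝ) < n := by exact_mod_cast hn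
  have hintI : ∀ (c : ℝ), Integrable ((Set.Icc (c - 1 / (n : ℝ)) (c + 1 / (n : ℝ))).indicator Φ) := by
    intro c
    exact (hΦc.integrableOn_Icc).integrable_indicator measurableSet_Icc
  have hone : ∀ (c : ℝ), ∫ α in Set.Ioc (0 : ℝ) 1,
      (Set.Icc (c - 1 / (n : ℝ)) (c + 1 / (n : ℝ))).indicator Φ α ≤
      ∫ β in (-(1 / (n : ℝ)))..(1 / (n : ℝ)), Φ (c + β) := by
    intro c
    have h1 : ∫ α in Set.Ioc (0 : ℝ) 1,
        (Set.Icc (c - 1 / (n : ℝ)) (c + 1 / (n : ℝ))).indicator Φ α ≤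
        ∫ α, (Set.Icc (c - 1 / (n : ℝ)) (c + 1 / (n : ℝ))).indicator Φ α := by
      apply setIntegral_le_integral (hintI c)
      exact Filter.Eventually.of_forall (fun x => Set.indicator_nonneg (fun y _ => hΦ y) x)
    refine h1.trans_eq ?_
    rw [integral_indicator measurableSet_Icc, integral_Icc_eq_integral_Ioc,
      ← intervalIntegral.integral_of_le (by have : 0 < 1 / (n : ℝ) := by positivity
                                            linarith)]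
    rw [intervalIntegral.integral_comp_add_left]
    congr 1
  rw [intervalIntegral.integral_of_le zero_le_one, intervalIntegral.integral_of_le zero_le_one]
  have hΨi : IntegrableOn Ψ (Set.Ioc 0 1) := (hΨc.integrableOn_Icc).mono_set Set.Ioc_subset_Icc_self
  have hΦi : IntegrableOn Φ (Set.Ioc 0 1) := (hΦc.integrableOn_Icc).mono_set Set.Ioc_subset_Icc_self
  have hsumi : IntegrableOn (fun α => ∑ q ∈ Icc 1 Q1, ∑ r ∈ (range (q + 1)).filter (fun r => r.Coprime q),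
      (Set.Icc ((r : ℝ) / (q : ℝ) - 1 / (n : ℝ)) ((r : ℝ) / (q : ℝ) + 1 / (n : ℝ))).indicator Φ α)
      (Set.Ioc 0 1) := by
    apply integrable_finset_sum
    intro q _
    apply integrable_finset_sum
    intro r _
    exact (hintI _).integrableOn
  have hstep : ∫ α in Set.Ioc (0 : ℝ) 1, Φ α ≤ ∫ α in Set.Ioc (0 : ℝ) 1,
      ((∑ q ∈ Icc 1 Q1, ∑ r ∈ (range (q + 1)).filter (fun r => r.Coprime q),
      (Set.Icc ((r : ℝ) / (q : ℝ) - 1 / (n : ℝ)) ((r : ℝ) / (q : ℝ) + 1 / (n : ℝ))).indicator Φ α) +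
        Ψ α) := by
    apply setIntegral_mono_on hΦi (hsumi.add hΨi) measurableSet_Ioc
    intro α hα
    exact arcs_point Φ Ψ Q1 n hΦ hΨ hn h α hα.1.le hα.2
  refine hstep.trans ?_
  rw [integral_add hsumi hΨi]
  have hsw : ∫ α in Set.Ioc (0 : ℝ) 1,
      (∑ q ∈ Icc 1 Q1, ∑ r ∈ (range (q + 1)).filter (fun r => r.Coprime q),
      (Set.Icc ((r : ℝ) / (q : ℝ) - 1 / (n : ℝ)) ((r : ℝ) / (q : ℝ) + 1 / (n : ℝ))).indicator Φ α) =
      ∑ q ∈ Icc 1 Q1, ∑ r ∈ (range (q + 1)).filter (fun r => r.Coprime q),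
        ∫ α in Set.Ioc (0 : ℝ) 1,
      (Set.Icc ((r : ℝ) / (q : ℝ) - 1 / (n : ℝ)) ((r : ℝ) / (q : ℝ) + 1 / (n : ℝ))).indicator Φ α := by
    rw [integral_finset_sum]
    · apply Finset.sum_congr rfl
      intro q _
      rw [integral_finset_sum]
      intro r _
      exact (hintI _).integrableOn
    · intro q _
      apply integrable_finset_sum
      intro r _
      exact (hintI _).integrableOn
  rw [hsw]
  have hfin : ∑ q ∈ Icc 1 Q1, ∑ r ∈ (range (q + 1)).filter (fun r => r.Coprime q),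
        ∫ α in Set.Ioc (0 : ℝ) 1,
      (Set.Icc ((r : ℝ) / (q : ℝ) - 1 / (n : ℝ)) ((r : ℝ) / (q : ℝ) + 1 / (n : ℝ))).indicator Φ α ≤
      ∑ q ∈ Icc 1 Q1, ∑ r ∈ (range (q + 1)).filter (fun r => r.Coprime q),
        ∫ β in (-(1 / (n : ℝ)))..(1 / (n : ℝ)), Φ ((r : ℝ) / (q : ℝ) + β) := by
    apply Finset.sum_le_sum
    intro q _
    apply Finset.sum_le_sum
    intro r _
    exact hone _
  linarith

end Pool.Agent.GM
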