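/-
MP_1e1427_nt, piece [GM 30 cls] (helper75): the residue classes.
-/
import Pool.Agent.Lib.MP_1e1427_nt.GM.Stm

set_option autoImplicit false

open Finset

namespace Pool.Agent.GM

/-- the local statement for one odd prime -/
private theorem cls_prime (p : ℕ) [hp : Fact p.Prime] (s : ZMod p) :
    ∃ b c d : ZMod p, IsUnit (2 * b - 1) ∧ IsUnit c ∧
      5 * b ^ 2 + 1 + c ^ 2 + d ^ 2 = s + 4 * b := by
  have hb : ∃ b : ZMod p, 2 * b - 1 ≠ 0 ∧ s - (5 * b ^ 2 - 4 * b + 1) ≠ 0 := by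
    by_cases hs : s = 1
    · refine ⟨1, ?_, ?_⟩
      · intro h
        apply one_ne_zero (α := ZMod p)
        linear_combination h
      · rw [hs]
        intro h
        apply one_ne_zero (α := ZMod p)
        linear_combination (-1 : ZMod p) * h
    · refine ⟨0, ?_, ?_⟩
      · intro h
        apply one_ne_zero (α := ZMod p)
        linear_combination (-1 : ZMod p) * h
      · intro h
        apply hs
        linear_combination h
  obtain ⟨b, hb1, hb2⟩ := hb
  obtain ⟨x, y, hxy⟩ := ZMod.sq_add_sq p (s - (5 * b ^ 2 - 4 * b + 1))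
  by_cases hx : x = 0
  · have hy : y ≠ 0 := by
      rintro rfl
      apply hb2
      rw [← hxy, hx]
      ring
    exact ⟨b, y, x, isUnit_iff_ne_zero.2 hb1, isUnit_iff_ne_zero.2 hy, by
      linear_combination hxy⟩
  · exact ⟨b, x, y, isUnit_iff_ne_zero.2 hb1, isUnit_iff_ne_zero.2 hx, by
      linear_combination hxy⟩

/-- the local statement for a product of distinct odd primes -/
private theorem cls_prod (ν : ℕ) (s : Finset ℕ) (hs : ∀ p ∈ s, p.Prime ∧ p ≠ 2) :
    ∃ b c d : ZMod (∏ p ∈ s, p), IsUnit (2 * b - 1) ∧ IsUnit c ∧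
      5 * b ^ 2 + 1 + c ^ 2 + d ^ 2 = 2 * (ν : ZMod (∏ p ∈ s, p)) + 4 * b := by
  classical
  induction s using Finset.induction_on with
  | empty =>
    have : Subsingleton (ZMod (∏ p ∈ (∅ : Finset ℕ), p)) := by
      rw [Finset.prod_empty]
      infer_instance
    exact ⟨0, 0, 0, isUnit_of_subsingleton _, isUnit_of_subsingleton _, Subsingleton.elim _ _⟩
  | insert p s hps ih =>
    obtain ⟨b1, c1, d1, h1, h2, h3⟩ := ih (fun q hq => hs q (Finset.mem_insert_of_mem hq))
    have hp := hs p (Finset.mem_insert_self p s)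
    have : Fact p.Prime := ⟨hp.1⟩
    obtain ⟨b2, c2, d2, h4, h5, h6⟩ := cls_prime p (2 * (ν : ZMod p))
    have hco : Nat.Coprime p (∏ q ∈ s, q) := by
      refine Nat.Coprime.prod_right fun q hq => ?_
      rw [Nat.coprime_primes hp.1 (hs q (Finset.mem_insert_of_mem hq)).1]
      rintro rfl
      exact hps hq
    rw [Finset.prod_insert hps]
    let e := ZMod.chineseRemainder hco
    refine ⟨e.symm (b2, b1), e.symm (c2, c1), e.symm (d2, d1), ?_, ?_, ?_⟩
    · rw [← MulEquiv.isUnit_map e]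
      have : e (2 * e.symm (b2, b1) - 1) = (2 * b2 - 1, 2 * b1 - 1) := by
        rw [map_sub, map_mul, RingEquiv.apply_symm_apply, map_one, map_ofNat]
        rfl
      rw [this]
      exact Prod.isUnit_iff.2 ⟨h4, h1⟩
    · rw [← MulEquiv.isUnit_map e, RingEquiv.apply_symm_apply]
      exact Prod.isUnit_iff.2 ⟨h5, h2⟩
    · apply e.injective
      rw [map_add, map_add, map_add, map_mul, map_pow, map_pow, map_pow, map_add, map_mul,
        map_mul, RingEquiv.apply_symm_apply, RingEquiv.apply_symm_apply,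
        RingEquiv.apply_symm_apply, map_one, map_ofNat, map_ofNat, map_ofNat, map_natCast]
      exact Prod.ext h6 h3

/-- the part modulo sixteen -/
private theorem cls_two (ν : ℕ) (hν : ν % 2 = 1) : ∃ c0 d0 : ℕ, c0 % 2 = 1 ∧ d0 % 2 = 0 ∧
    ∀ b c d : ℕ, b % 8 = 2 → c % 8 = c0 % 8 → d % 8 = d0 % 8 →
      5 * b ^ 2 + 1 + c ^ 2 + d ^ 2 ≡ 2 * ν + 4 * b [MOD 16] := by
  have hsq : ∀ x r : ℕ, x % 8 = r → x ^ 2 % 16 = r ^ 2 % 16 := by
    intro x r h
    obtain ⟨q, hq⟩ : ∃ q, x = 8 * q + r := ⟨x / 8, by omega⟩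
    have : x ^ 2 = 16 * (4 * q ^ 2 + q * r) + r ^ 2 := by rw [hq]; ring
    omega
  have key : ∀ c0 d0 : ℕ, c0 < 8 → d0 < 8 → (13 + c0 ^ 2 + d0 ^ 2) % 16 = (2 * ν) % 16 →
      ∀ b c d : ℕ, b % 8 = 2 → c % 8 = c0 % 8 → d % 8 = d0 % 8 →
      5 * b ^ 2 + 1 + c ^ 2 + d ^ 2 ≡ 2 * ν + 4 * b [MOD 16] := by
    intro c0 d0 hc0 hd0 h b c d hb hc hd
    have e1 := hsq b 2 hb
    have e2 := hsq c c0 (by omega)
    have e3 := hsq d d0 (by omega)
    unfold Nat.ModEq
    omega
  have h8 : ν % 8 = 1 ∨ ν % 8 = 3 ∨ ν % 8 = 5 ∨ ν % 8 = 7 := by omega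
  rcases h8 with h | h | h | h
  · exact ⟨1, 2, rfl, rfl, key 1 2 (by norm_num) (by norm_num) (by omega)⟩
  · exact ⟨3, 0, rfl, rfl, key 3 0 (by norm_num) (by norm_num) (by omega)⟩
  · exact ⟨3, 2, rfl, rfl, key 3 2 (by norm_num) (by norm_num) (by omega)⟩
  · exact ⟨1, 0, rfl, rfl, key 1 0 (by norm_num) (by norm_num) (by omega)⟩

theorem p_cls : S_cls := by
  classical
  intro w ν hw hν
  set s : Finset ℕ := ((Finset.range (w + 1)).filter Nat.Prime).erase 2 with hs
  set M : ℕ := ∏ p ∈ s, p with hM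
  have hprim : primorial w = 2 * M := by
    have hmem : 2 ∈ (Finset.range (w + 1)).filter Nat.Prime := by
      simp only [Finset.mem_filter, Finset.mem_range]
      exact ⟨by omega, Nat.prime_two⟩
    unfold primorial
    rw [hM, hs]
    exact (Finset.mul_prod_erase _ (fun p => p) hmem).symm
  have hsp : ∀ p ∈ s, p.Prime ∧ p ≠ 2 := by
    intro p hp
    rw [hs, Finset.mem_erase, Finset.mem_filter] at hp
    exact ⟨hp.2.2, hp.1⟩
  have hMpos : 0 < M := Finset.prod_pos fun p hp => (hsp p hp).1.pos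
  have hcop2 : Nat.Coprime 2 M := by
    refine Nat.Coprime.prod_right fun p hp => ?_
    rw [Nat.coprime_primes Nat.prime_two (hsp p hp).1]
    exact (hsp p hp).2.symm
  have hcop8 : Nat.Coprime 8 M := Nat.Coprime.pow_left 3 hcop2
  have hcop16 : Nat.Coprime 16 M := Nat.Coprime.pow_left 4 hcop2
  have : NeZero M := ⟨hMpos.ne'⟩
  obtain ⟨bM, cM, dM, hb, hc, hbcd⟩ := cls_prod ν s hsp
  obtain ⟨c0, d0, hc0, hd0, h16⟩ := cls_two ν hν
  have lift : ∀ (r : ℕ) (x : ZMod M), ∃ y : ℕ, y % 8 = r % 8 ∧ (y : ZMod M) = x ∧ y < 8 * M := by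
    intro r x
    have hlt := Nat.chineseRemainder_lt_mul hcop8 r x.val (by norm_num) hMpos.ne'
    have hprop := (Nat.chineseRemainder hcop8 r x.val).2
    refine ⟨Nat.chineseRemainder hcop8 r x.val, hprop.1, ?_, hlt⟩
    rw [(ZMod.natCast_eq_natCast_iff _ _ _).2 hprop.2, ZMod.natCast_zmod_val]
  obtain ⟨b, hb8, hbM, -⟩ := lift 2 bM
  obtain ⟨c, hc8, hcM, hclt⟩ := lift c0 cM
  obtain ⟨d, hd8, hdM, hdlt⟩ := lift d0 dM
  have e2V : 2 * (2 * primorial w) = 8 * M := by rw [hprim]; ring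
  have e4V : 4 * (2 * primorial w) = 16 * M := by rw [hprim]; ring
  refine ⟨b, c, d, by omega, ?_, ?_, by omega, by omega, by omega, ?_⟩
  · rw [e2V]
    refine Nat.Coprime.mul_right ?_ ?_
    · have : Nat.Coprime (2 * b - 1) 2 := by
        rw [Nat.coprime_comm, Nat.Prime.coprime_iff_not_dvd Nat.prime_two]
        omega
      exact Nat.Coprime.pow_right 3 this
    · rw [← ZMod.isUnit_iff_coprime]
      have : ((2 * b - 1 : ℕ) : ZMod M) = 2 * bM - 1 := by
        rw [Nat.cast_sub (by omega), Nat.cast_mul, hbM]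
        norm_num
      rw [this]
      exact hb
  · rw [e2V]
    refine Nat.Coprime.mul_right ?_ ?_
    · have : Nat.Coprime c 2 := by
        rw [Nat.coprime_comm, Nat.Prime.coprime_iff_not_dvd Nat.prime_two]
        omega
      exact Nat.Coprime.pow_right 3 this
    · rw [← ZMod.isUnit_iff_coprime, hcM]
      exact hc
  · rw [e4V]
    refine (Nat.modEq_and_modEq_iff_modEq_mul hcop16).1 ⟨h16 b c d (by omega) hc8 hd8, ?_⟩
    rw [← ZMod.natCast_eq_natCast_iff]
    push_cast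
    rw [hbM, hcM, hdM]
    exact hbcd

end Pool.Agent.GM
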