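import Pool.Agent.Lib.MP_1e1427_nt.GM.Stm

set_option autoImplicit false

open Finset MeasureTheory

namespace Pool.Agent.GM

/-- Pairs with product divisible by `q`. -/
private theorem cnt_inj (q s t s' t' : ℕ) (hq : 0 < q)
    (hst : q ∣ s * t) (hst' : q ∣ s' * t')
    (ht : t < q) (ht' : t' < q) (hg : Nat.gcd s q = Nat.gcd s' q)
    (h : s + t / (q / Nat.gcd s q) = s' + t' / (q / Nat.gcd s' q)) : s = s' ∧ t = t' := by
  rw [← hg] at h
  set g := Nat.gcd s q with hgdef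
  have hg0 : 0 < g := Nat.gcd_pos_of_pos_right _ hq
  obtain ⟨r, hr⟩ : g ∣ q := Nat.gcd_dvd_right s q
  have hr0 : 0 < r := by
    rcases Nat.eq_zero_or_pos r with h0 | h0
    · rw [h0, mul_zero] at hr; omega
    · exact h0
  have hqr : q / g = r := by rw [hr, Nat.mul_div_cancel_left _ hg0]
  have hdiv : ∀ x y : ℕ, Nat.gcd x q = g → q ∣ x * y → r ∣ y := by
    intro x y hx hxy
    have h1 : Nat.Coprime (q / Nat.gcd x q) (x / Nat.gcd x q) :=
      (Nat.coprime_div_gcd_div_gcd (by rw [hx]; exact hg0)).symm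
    rw [hx, hqr] at h1
    obtain ⟨k, hk⟩ : g ∣ x := by rw [← hx]; exact Nat.gcd_dvd_left _ _
    have h2 : x / g = k := by rw [hk, Nat.mul_div_cancel_left _ hg0]
    rw [h2] at h1
    have h3 : r ∣ k * y := by
      rw [hr, hk, mul_assoc] at hxy
      exact Nat.dvd_of_mul_dvd_mul_left hg0 hxy
    exact h1.dvd_of_dvd_mul_left h3
  obtain ⟨τ, hτ⟩ := hdiv s t rfl hst
  obtain ⟨τ', hτ'⟩ := hdiv s' t' hg.symm hst'
  obtain ⟨σ, hσ⟩ : g ∣ s := Nat.gcd_dvd_left s q
  obtain ⟨σ', hσ'⟩ : g ∣ s' := by rw [hg]; exact Nat.gcd_dvd_left s' q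
  rw [hqr, hτ, hτ', Nat.mul_div_cancel_left _ hr0, Nat.mul_div_cancel_left _ hr0, hσ, hσ'] at h
  have hτg : τ < g := by
    rw [hτ, hr, mul_comm g r] at ht
    exact Nat.lt_of_mul_lt_mul_left ht
  have hτg' : τ' < g := by
    rw [hτ', hr, mul_comm g r] at ht'
    exact Nat.lt_of_mul_lt_mul_left ht'
  have h1 := congrArg (· % g) h
  simp only [Nat.mul_add_mod, Nat.mod_eq_of_lt hτg, Nat.mod_eq_of_lt hτg'] at h1
  subst h1
  have h2 : g * σ = g * σ' := by omega
  exact ⟨by rw [hσ, hσ', h2], by rw [hτ, hτ']⟩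

theorem p_cnt : S_cnt := by
  intro U e q hq hcop
  have : NeZero q := ⟨by omega⟩
  unfold prs
  have hcard : (range q ×ˢ q.divisors).card = q * q.divisors.card := by
    rw [card_product, card_range]
  rw [← hcard]
  let s : ℕ × ℕ → ℕ := fun t => ((t.1 : ZMod q) - (t.2 : ZMod q)).val
  let r : ℕ × ℕ → ℕ := fun t => ((U : ZMod q) * ((t.1 : ZMod q) + (t.2 : ZMod q)) + e).val
  have hs : ∀ t, ((s t : ℕ) : ZMod q) = (t.1 : ZMod q) - (t.2 : ZMod q) := fun t =>
    ZMod.natCast_zmod_val _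
  have hr : ∀ t, ((r t : ℕ) : ZMod q) = (U : ZMod q) * ((t.1 : ZMod q) + (t.2 : ZMod q)) + e :=
    fun t => ZMod.natCast_zmod_val _
  have hdvd : ∀ t : ℕ × ℕ, U * t.1 ^ 2 + e * t.1 ≡ U * t.2 ^ 2 + e * t.2 [MOD q] →
      q ∣ s t * r t := by
    intro t ht
    rw [← ZMod.natCast_eq_zero_iff]
    rw [← ZMod.natCast_eq_natCast_iff] at ht
    push_cast at ht ⊢
    rw [hs, hr]
    linear_combination ht
  have hmaps : ∀ t ∈ (range q ×ˢ range q).filter
      (fun t => U * t.1 ^ 2 + e * t.1 ≡ U * t.2 ^ 2 + e * t.2 [MOD q]),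
      (s t + r t / (q / Nat.gcd (s t) q), Nat.gcd (s t) q) ∈ range q ×ˢ q.divisors := by
    intro t ht
    rw [mem_filter] at ht
    have hd := hdvd t ht.2
    have hslt : s t < q := ZMod.val_lt _
    have hrlt : r t < q := ZMod.val_lt _
    rw [mem_product, Finset.mem_range, Nat.mem_divisors]
    refine ⟨?_, Nat.gcd_dvd_right _ _, by omega⟩
    simp only
    have hg0 : 0 < Nat.gcd (s t) q := Nat.gcd_pos_of_pos_right _ (by omega)
    obtain ⟨k, hk⟩ := Nat.gcd_dvd_right (s t) q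
    obtain ⟨l, hl⟩ := Nat.gcd_dvd_left (s t) q
    set g := Nat.gcd (s t) q with hg
    have hk0 : 0 < k := by
      rcases Nat.eq_zero_or_pos k with h0 | h0
      · rw [h0, mul_zero] at hk; omega
      · exact h0
    have h1 : q / g = k := by
      have : q / g = g * k / g := by rw [← hk]
      rw [this, Nat.mul_div_cancel_left _ hg0]
    rw [h1]
    have h2 : r t / k < g := by
      rw [Nat.div_lt_iff_lt_mul hk0, ← hk]
      exact hrlt
    have h3 : l < k := by
      have h4 : g * l < g * k := by rw [← hl, ← hk]; exact hslt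
      exact Nat.lt_of_mul_lt_mul_left h4
    have h5 : g * (l + 1) ≤ g * k := Nat.mul_le_mul_left _ h3
    calc s t + r t / k = g * l + r t / k := by rw [← hl]
      _ < g * l + g := by omega
      _ = g * (l + 1) := by ring
      _ ≤ g * k := h5
      _ = q := hk.symm
  refine card_le_card_of_injOn
    (fun t => (s t + r t / (q / Nat.gcd (s t) q), Nat.gcd (s t) q)) hmaps ?_
  intro t ht t' ht' heq
  rw [mem_coe, mem_filter, mem_product, Finset.mem_range, Finset.mem_range] at ht ht'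
  have h1 := congrArg Prod.fst heq
  have h2 := congrArg Prod.snd heq
  simp only at h1 h2
  obtain ⟨h3, h4⟩ := cnt_inj q (s t) (r t) (s t') (r t') (by omega) (hdvd t ht.2) (hdvd t' ht'.2)
    (ZMod.val_lt _) (ZMod.val_lt _) h2 h1
  have h5 : (t.1 : ZMod q) - (t.2 : ZMod q) = (t'.1 : ZMod q) - (t'.2 : ZMod q) := by
    rw [← hs, ← hs, h3]
  have h6 : (U : ZMod q) * ((t.1 : ZMod q) + (t.2 : ZMod q)) + e =
      (U : ZMod q) * ((t'.1 : ZMod q) + (t'.2 : ZMod q)) + e := by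
    rw [← hr, ← hr, h4]
  have hunit : IsUnit (((2 * U : ℕ) : ZMod q)) := (ZMod.isUnit_iff_coprime _ _).2 hcop.symm
  have h7 : ((2 * U : ℕ) : ZMod q) * (t.1 : ZMod q) = ((2 * U : ℕ) : ZMod q) * (t'.1 : ZMod q) := by
    push_cast
    linear_combination h6 + (U : ZMod q) * h5
  have h8 : (t.1 : ZMod q) = (t'.1 : ZMod q) := hunit.mul_left_cancel h7
  have h9 : (t.2 : ZMod q) = (t'.2 : ZMod q) := by linear_combination h8 - h5
  rw [ZMod.natCast_eq_natCast_iff'] at h8 h9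
  rw [Nat.mod_eq_of_lt ht.1.1, Nat.mod_eq_of_lt ht'.1.1] at h8
  rw [Nat.mod_eq_of_lt ht.1.2, Nat.mod_eq_of_lt ht'.1.2] at h9
  exact Prod.ext h8 h9

end Pool.Agent.GM
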