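import Pool.Agent.Lib.MP_1e1427_nt.GM.Stm

set_option autoImplicit false

open Finset

namespace Pool.Agent.GM

private noncomputable def dens_r (x : ℝ) : ℝ := x ^ (((48 : ℕ) : ℝ)⁻¹)

private lemma dens_r_nonneg {x : ℝ} (hx : 0 ≤ x) : 0 ≤ dens_r x := Real.rpow_nonneg hx _

private lemma dens_r_pow {x : ℝ} (hx : 0 ≤ x) : dens_r x ^ 48 = x :=
  Real.rpow_inv_natCast_pow hx (by norm_num)

private lemma dens_le_r {a x : ℝ} (hx : 0 ≤ x) (h : a ^ 48 ≤ x) : a ≤ dens_r x := by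
  by_contra hc
  push Not at hc
  have h1 : dens_r x ^ 48 < a ^ 48 := pow_lt_pow_left₀ hc (dens_r_nonneg hx) (by norm_num)
  rw [dens_r_pow hx] at h1
  linarith

private lemma dens_r_le {a x : ℝ} (hx : 0 ≤ x) (ha : 0 ≤ a) (h : x ≤ a ^ 48) : dens_r x ≤ a := by
  by_contra hc
  push Not at hc
  have h1 : a ^ 48 < dens_r x ^ 48 := pow_lt_pow_left₀ hc ha (by norm_num)
  rw [dens_r_pow hx] at h1
  linarith

theorem p_dens : S_dens := by
  classical
  refine ⟨7, by norm_num, ?_⟩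
  intro Bad Λ σ K0 hΛ hσ hσ1 hK
  set s : ℝ := Real.sqrt σ with hs
  have hs0 : 0 < s := Real.sqrt_pos.mpr hσ
  have hs1 : s ≤ 1 := by
    rw [hs]; exact Real.sqrt_le_one.mpr hσ1
  have hss : s * s = σ := Real.mul_self_sqrt hσ.le
  set D : ℝ := (K0 : ℝ) + 5000 with hD
  refine ⟨⌈9799 * Λ * D ^ 48 / s + 1 / s⌉₊, ?_⟩
  intro X hX
  have hX' : 9799 * Λ * D ^ 48 / s + 1 / s ≤ (X : ℝ) := le_trans (Nat.le_ceil _) (by exact_mod_cast hX)
  have hD0 : 0 < D := by rw [hD]; positivity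
  have hXa : 9799 * Λ * D ^ 48 / s ≤ (X : ℝ) := by
    have : 0 < 1 / s := by positivity
    linarith
  have hXb : 1 / s ≤ (X : ℝ) := by
    have : 0 < 9799 * Λ * D ^ 48 / s := by positivity
    linarith
  have hX1 : 1 ≤ s * (X : ℝ) := by
    rw [div_le_iff₀ hs0] at hXb
    linarith
  have hX2 : 9799 * Λ * D ^ 48 ≤ s * (X : ℝ) := by
    rw [div_le_iff₀ hs0] at hXa
    linarith
  have hXpos : 0 < (X : ℝ) := by
    by_contra hc
    push Not at hc
    nlinarith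
  -- the main quantities
  set w : ℝ := dens_r (s * X / (9799 * Λ)) with hw
  set vX : ℝ := dens_r ((X : ℝ) / (9641 * Λ)) with hv
  have ha0 : 0 ≤ s * X / (9799 * Λ) := by positivity
  have hb0 : 0 ≤ (X : ℝ) / (9641 * Λ) := by positivity
  have hwD : D ≤ w := by
    apply dens_le_r ha0
    rw [le_div_iff₀ (by positivity)]
    linarith
  have hw0 : 0 < w := lt_of_lt_of_le hD0 hwD
  have hvw : vX ≤ 2 * w / s := by
    apply dens_r_le hb0 (by positivity)
    have e1 : (2 * w / s) ^ 48 = 2 ^ 48 * (s * X / (9799 * Λ)) / s ^ 48 := by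
      rw [div_pow, mul_pow, hw, dens_r_pow ha0]
    rw [e1, le_div_iff₀ (by positivity)]
    have e2 : s ^ 48 ≤ s := pow_le_of_le_one hs0.le hs1 (by norm_num)
    have e3 : (X : ℝ) / (9641 * Λ) * s ^ 48 ≤ (X : ℝ) / (9641 * Λ) * s :=
      mul_le_mul_of_nonneg_left e2 hb0
    refine le_trans e3 ?_
    have e4 : (X : ℝ) / (9641 * Λ) * s = (s * X / Λ) * (1 / 9641) := by
      field_simp
    have e5 : (2 : ℝ) ^ 48 * (s * X / (9799 * Λ)) = (s * X / Λ) * (2 ^ 48 / 9799) := by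
      field_simp
    rw [e4, e5]
    apply mul_le_mul_of_nonneg_left _ (by positivity)
    norm_num
  have hwv : w ≤ vX := by
    apply dens_le_r hb0
    rw [hw, dens_r_pow ha0]
    rw [div_le_div_iff₀ (by positivity) (by positivity)]
    have e1 : s * (X : ℝ) ≤ X := by nlinarith
    have e2 : s * (X : ℝ) * (9641 * Λ) ≤ X * (9641 * Λ) :=
      mul_le_mul_of_nonneg_right e1 (by positivity)
    have e3 : (X : ℝ) * (9641 * Λ) ≤ X * (9799 * Λ) :=
      mul_le_mul_of_nonneg_left (by linarith) hXpos.le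
    linarith
  set M : ℕ := ⌊vX⌋₊ with hM
  have hMv : (M : ℝ) ≤ vX := Nat.floor_le (by linarith)
  -- the sets
  set S : Finset ℕ := (range X).filter (fun n => n ∈ Bad ∧ s * X ≤ (n : ℝ)) with hS
  set Ks : Finset ℕ := (range (M + 1)).filter (fun K => K0 ≤ K) with hKs
  let R : ℕ → ℕ → Prop := fun n K => 9641 * Λ * (K : ℝ) ^ 48 ≤ n ∧ (n : ℝ) < 9799 * Λ * (K : ℝ) ^ 48
  have hdc : ∑ n ∈ S, ((Ks.filter (fun K => R n K)).card) = ∑ K ∈ Ks, ((S.filter (fun n => R n K)).card) :=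
    Finset.sum_card_bipartiteAbove_eq_sum_card_bipartiteBelow R
  have hlow : ∀ n ∈ S, w / 10000 ≤ (((Ks.filter (fun K => R n K)).card : ℕ) : ℝ) := by
    intro n hn
    rw [hS, mem_filter, mem_range] at hn
    obtain ⟨hnX, -, hns⟩ := hn
    have hnX' : (n : ℝ) < X := by exact_mod_cast hnX
    have hn0 : 0 ≤ (n : ℝ) := Nat.cast_nonneg n
    set u : ℝ := dens_r ((n : ℝ) / (9799 * Λ)) with hu
    set v : ℝ := dens_r ((n : ℝ) / (9641 * Λ)) with hvn
    have hc0 : 0 ≤ (n : ℝ) / (9799 * Λ) := by positivity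
    have hd0 : 0 ≤ (n : ℝ) / (9641 * Λ) := by positivity
    have hu0 : 0 ≤ u := dens_r_nonneg hc0
    have hv0 : 0 ≤ v := dens_r_nonneg hd0
    have hup : u ^ 48 = (n : ℝ) / (9799 * Λ) := dens_r_pow hc0
    have hvp : v ^ 48 = (n : ℝ) / (9641 * Λ) := dens_r_pow hd0
    have hwu : w ≤ u := by
      apply dens_le_r hc0
      rw [hw, dens_r_pow ha0]
      apply div_le_div_of_nonneg_right hns (by positivity)
    have hvvX : v ≤ vX := by
      apply dens_le_r hb0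
      rw [hvp]
      apply div_le_div_of_nonneg_right hnX'.le (by positivity)
    have huv : (1 + 3 / 10000) * u ≤ v := by
      apply dens_le_r hd0
      rw [mul_pow, hup]
      have e1 : (n : ℝ) / (9641 * Λ) = (n / Λ) * (1 / 9641) := by field_simp
      have e2 : (n : ℝ) / (9799 * Λ) = (n / Λ) * (1 / 9799) := by field_simp
      rw [e1, e2]
      have e3 : ((1 : ℝ) + 3 / 10000) ^ 48 * ((n / Λ) * (1 / 9799)) = (n / Λ) * (((1 : ℝ) + 3 / 10000) ^ 48 * (1 / 9799)) := by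
        ring
      rw [e3]
      apply mul_le_mul_of_nonneg_left _ (by positivity)
      norm_num
    have hsub : Ioc ⌊u⌋₊ ⌊v⌋₊ ⊆ Ks.filter (fun K => R n K) := by
      intro K hK'
      rw [mem_Ioc] at hK'
      obtain ⟨h1, h2⟩ := hK'
      have h1' : u < (K : ℝ) := Nat.lt_of_floor_lt h1
      have h2' : (K : ℝ) ≤ v := le_trans (by exact_mod_cast h2) (Nat.floor_le hv0)
      rw [mem_filter, hKs, mem_filter, mem_range]
      refine ⟨⟨?_, ?_⟩, ?_, ?_⟩
      · apply Nat.lt_succ_of_le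
        rw [hM]
        apply Nat.le_floor
        linarith
      · have : (K0 : ℝ) ≤ K := by
          have : (K0 : ℝ) ≤ D := by rw [hD]; linarith
          linarith
        exact_mod_cast this
      · have e1 : (K : ℝ) ^ 48 ≤ v ^ 48 := pow_le_pow_left₀ (Nat.cast_nonneg K) h2' 48
        rw [hvp, le_div_iff₀ (by positivity)] at e1
        linarith
      · have e1 : u ^ 48 < (K : ℝ) ^ 48 := pow_lt_pow_left₀ h1' hu0 (by norm_num)
        rw [hup, div_lt_iff₀ (by positivity)] at e1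
        linarith
    have hcard : (Ioc ⌊u⌋₊ ⌊v⌋₊).card ≤ (Ks.filter (fun K => R n K)).card := card_le_card hsub
    rw [Nat.card_Ioc] at hcard
    have hfl : v - 1 < (⌊v⌋₊ : ℝ) := by
      have := Nat.lt_floor_add_one v
      linarith
    have hfu : (⌊u⌋₊ : ℝ) ≤ u := Nat.floor_le hu0
    have hsubc : (⌊v⌋₊ : ℝ) - ⌊u⌋₊ ≤ ((⌊v⌋₊ - ⌊u⌋₊ : ℕ) : ℝ) := by
      rw [sub_le_iff_le_add]
      have : ⌊v⌋₊ ≤ (⌊v⌋₊ - ⌊u⌋₊) + ⌊u⌋₊ := by omega
      exact_mod_cast this
    have hcard' : ((⌊v⌋₊ - ⌊u⌋₊ : ℕ) : ℝ) ≤ (((Ks.filter (fun K => R n K)).card : ℕ) : ℝ) := by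
      exact_mod_cast hcard
    have h5000 : 5000 ≤ u := by
      have h1 : (5000 : ℝ) ≤ D := by
        rw [hD]
        have : (0 : ℝ) ≤ (K0 : ℝ) := Nat.cast_nonneg K0
        linarith
      linarith
    linarith
  have hup : ∀ K ∈ Ks, (((S.filter (fun n => R n K)).card : ℕ) : ℝ) ≤ σ * X / 9641 := by
    intro K hKm
    rw [hKs, mem_filter, mem_range] at hKm
    obtain ⟨hKM, hK0⟩ := hKm
    have h1 := hK K hK0
    have hsub : ((S.filter (fun n => R n K) : Finset ℕ) : Set ℕ) ⊆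
        {n : ℕ | n ∈ Bad ∧ 9641 * Λ * (K : ℝ) ^ 48 ≤ n ∧ (n : ℝ) < 9799 * Λ * (K : ℝ) ^ 48} := by
      intro n hn
      rw [mem_coe, mem_filter, hS, mem_filter] at hn
      exact ⟨hn.1.2.1, hn.2.1, hn.2.2⟩
    have hfin : ({n : ℕ | n ∈ Bad ∧ 9641 * Λ * (K : ℝ) ^ 48 ≤ n ∧
        (n : ℝ) < 9799 * Λ * (K : ℝ) ^ 48}).Finite := by
      apply (Set.finite_Iio (⌈9799 * Λ * (K : ℝ) ^ 48⌉₊)).subset
      intro n hn
      exact Nat.lt_ceil.mpr hn.2.2
    have h2 := Set.ncard_le_ncard hsub hfin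
    rw [Set.ncard_coe_finset] at h2
    have h3 : (((S.filter (fun n => R n K)).card : ℕ) : ℝ) ≤ σ * Λ * (K : ℝ) ^ 48 :=
      le_trans (by exact_mod_cast h2) h1
    refine le_trans h3 ?_
    have hKv : (K : ℝ) ≤ vX := by
      have : (K : ℝ) ≤ M := by exact_mod_cast Nat.lt_succ_iff.mp hKM
      linarith
    have e1 : (K : ℝ) ^ 48 ≤ vX ^ 48 := pow_le_pow_left₀ (Nat.cast_nonneg K) hKv 48
    rw [hv, dens_r_pow hb0] at e1
    have e2 : σ * Λ * (K : ℝ) ^ 48 ≤ σ * Λ * ((X : ℝ) / (9641 * Λ)) :=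
      mul_le_mul_of_nonneg_left e1 (by positivity)
    refine le_trans e2 (le_of_eq ?_)
    field_simp
  have hKc : ((Ks.card : ℕ) : ℝ) ≤ 2 * vX := by
    have h1 : Ks.card ≤ M + 1 := by
      rw [hKs]
      refine le_trans (card_filter_le _ _) ?_
      rw [card_range]
    have h2 : ((Ks.card : ℕ) : ℝ) ≤ (M : ℝ) + 1 := by exact_mod_cast h1
    have h3 : (1 : ℝ) ≤ vX := by
      have h1 : (5000 : ℝ) ≤ D := by
        rw [hD]
        have : (0 : ℝ) ≤ (K0 : ℝ) := Nat.cast_nonneg K0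
        linarith
      linarith
    linarith
  have hSS : ((S.card : ℕ) : ℝ) * (w / 10000) ≤ 2 * vX * (σ * X / 9641) := by
    have h1 : ((S.card : ℕ) : ℝ) * (w / 10000) ≤ ∑ n ∈ S, (((Ks.filter (fun K => R n K)).card : ℕ) : ℝ) := by
      rw [← nsmul_eq_mul, ← Finset.sum_const]
      exact Finset.sum_le_sum hlow
    have h2 : ∑ n ∈ S, (((Ks.filter (fun K => R n K)).card : ℕ) : ℝ)
        = ∑ K ∈ Ks, (((S.filter (fun n => R n K)).card : ℕ) : ℝ) := by
      exact_mod_cast hdc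
    have h3 : ∑ K ∈ Ks, (((S.filter (fun n => R n K)).card : ℕ) : ℝ) ≤ ((Ks.card : ℕ) : ℝ) * (σ * X / 9641) := by
      rw [← nsmul_eq_mul, ← Finset.sum_const]
      exact Finset.sum_le_sum hup
    have h4 : ((Ks.card : ℕ) : ℝ) * (σ * X / 9641) ≤ 2 * vX * (σ * X / 9641) :=
      mul_le_mul_of_nonneg_right hKc (by positivity)
    linarith
  have hSfin : ((S.card : ℕ) : ℝ) ≤ 5 * (s * X) := by
    have h1 : 2 * vX * (σ * X / 9641) ≤ 2 * (2 * w / s) * (σ * X / 9641) := by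
      apply mul_le_mul_of_nonneg_right _ (by positivity)
      linarith
    have h2 : 2 * (2 * w / s) * (σ * X / 9641) = w * (4 * (s * X) / 9641) := by
      rw [← hss]
      field_simp
      ring
    have h3 : ((S.card : ℕ) : ℝ) * (w / 10000) ≤ w * (4 * (s * X) / 9641) := by linarith
    have h4 : w * (((S.card : ℕ) : ℝ) / 10000) ≤ w * (4 * (s * X) / 9641) := by
      have : ((S.card : ℕ) : ℝ) * (w / 10000) = w * (((S.card : ℕ) : ℝ) / 10000) := by ring
      linarith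
    have h5 := le_of_mul_le_mul_left h4 hw0
    have h6 : 0 < s * (X : ℝ) := by positivity
    linarith
  -- the total
  have hcov : {n : ℕ | n ∈ Bad ∧ n < X} ⊆ ((S ∪ range (⌈s * X⌉₊) : Finset ℕ) : Set ℕ) := by
    intro n hn
    rw [mem_coe, mem_union, hS, mem_filter, mem_range, mem_range]
    by_cases h : s * X ≤ (n : ℝ)
    · exact Or.inl ⟨hn.2, hn.1, h⟩
    · right
      push Not at h
      exact Nat.lt_ceil.mpr h
  have hnc := Set.ncard_le_ncard hcov (Finset.finite_toSet _)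
  rw [Set.ncard_coe_finset] at hnc
  have hun : (S ∪ range (⌈s * X⌉₊)).card ≤ S.card + ⌈s * X⌉₊ := by
    refine le_trans (card_union_le _ _) ?_
    rw [card_range]
  have hce : ((⌈s * X⌉₊ : ℕ) : ℝ) < s * X + 1 := Nat.ceil_lt_add_one (by positivity)
  have hfin : ((({n : ℕ | n ∈ Bad ∧ n < X}).ncard : ℕ) : ℝ) ≤ (S.card : ℝ) + (⌈s * X⌉₊ : ℝ) := by
    exact_mod_cast le_trans hnc hun
  nlinarith

end Pool.Agent.GM
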