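import Mathlib
import Pool.Agent.Lib.MP_1e1427_nt.GM.Stm

set_option autoImplicit false

open Finset MeasureTheory
open Pool.Agent.APP (ee nn)

namespace Pool.Agent.GM

theorem p_fh (h_par : S_par) (h_sm : S_sm) : S_fh := by
  intro V d e hV
  obtain ⟨K0, hK0⟩ := h_sm V d e hV
  refine ⟨K0, fun K hK X hX => ?_⟩
  let Y : Finset ℕ := Ico (2 * K ^ 24) (20 * K ^ 24)
  let T : Finset (ℕ × ℕ) := X ×ˢ Y
  let v : ℕ × ℕ → ℕ := fun t => (5 * V * t.1 ^ 2 + e * t.1) + (V * t.2 ^ 2 + d * t.2)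
  have hM : ∀ t ∈ T, v t < T.sup v + 1 := fun t ht => Nat.lt_succ_of_le (Finset.le_sup ht)
  have h1 := h_par (ℕ × ℕ) T v (fun _ => 1) (T.sup v + 1) hM
  have h2 : ∀ α : ℝ, (‖Qs X (5 * V) e α‖ * ‖Qs Y V d α‖) ^ 2 =
      ‖∑ t ∈ T, (1 : ℂ) * ee (α * (v t : ℝ))‖ ^ 2 := by
    intro α
    rw [← norm_mul]
    congr 2
    unfold Qs
    rw [Finset.sum_mul_sum, Finset.sum_product]
    refine Finset.sum_congr rfl fun x _ => Finset.sum_congr rfl fun z _ => ?_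
    rw [one_mul, ← Pool.Agent.APP.ee_add]
    congr 1
    simp only [v]
    push_cast
    ring
  have h3 : ∫ α in (0 : ℝ)..1, (‖Qs X (5 * V) e α‖ * ‖Qs Y V d α‖) ^ 2 =
      ∑ m ∈ range (T.sup v + 1), ‖∑ _t ∈ T.filter (fun t => v t = m), (1 : ℂ)‖ ^ 2 := by
    rw [← h1]
    refine intervalIntegral.integral_congr fun α _ => ?_
    exact h2 α
  have h4 : ∀ m : ℕ, ‖∑ _t ∈ T.filter (fun t => v t = m), (1 : ℂ)‖ ^ 2 =
      (((T ×ˢ T).filter (fun s => v s.1 = v s.2 ∧ v s.1 = m)).card : ℝ) := by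
    intro m
    rw [Finset.sum_const, nsmul_eq_mul, mul_one, Complex.norm_natCast]
    have : (T ×ˢ T).filter (fun s => v s.1 = v s.2 ∧ v s.1 = m) =
        (T.filter (fun t => v t = m)) ×ˢ (T.filter (fun t => v t = m)) := by
      ext ⟨a, b⟩
      simp only [mem_filter, mem_product]
      constructor
      · rintro ⟨⟨ha, hb⟩, hab, ham⟩
        exact ⟨⟨ha, ham⟩, hb, by rw [← hab]; exact ham⟩
      · rintro ⟨⟨ha, ham⟩, hb, hbm⟩
        exact ⟨⟨ha, hb⟩, by rw [ham, hbm], ham⟩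
    rw [this, card_product]
    push_cast
    ring
  have h5 : ∑ m ∈ range (T.sup v + 1), (((T ×ˢ T).filter (fun s => v s.1 = v s.2 ∧ v s.1 = m)).card : ℝ) =
      (((T ×ˢ T).filter (fun s => v s.1 = v s.2)).card : ℝ) := by
    rw [← Nat.cast_sum]
    congr 1
    rw [Finset.card_eq_sum_card_fiberwise (f := fun s : (ℕ × ℕ) × (ℕ × ℕ) => v s.1)
      (t := range (T.sup v + 1))]
    · refine Finset.sum_congr rfl fun m _ => ?_
      rw [Finset.filter_filter]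
    · intro s hs
      have hs' : s ∈ (T ×ˢ T).filter (fun s => v s.1 = v s.2) := hs
      rw [mem_filter, mem_product] at hs'
      exact Finset.mem_coe.2 (mem_range.2 (hM _ hs'.1.1))
  have h6 : ((T ×ˢ T).filter (fun s => v s.1 = v s.2)).card ≤ K ^ 49 := by
    refine le_trans (Finset.card_le_card ?_) (hK0 K hK)
    intro s hs
    rw [mem_filter, mem_product] at hs
    obtain ⟨⟨ha, hb⟩, hab⟩ := hs
    rw [mem_product] at ha hb
    have ha1 := mem_Ico.1 (hX ha.1)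
    have hb1 := mem_Ico.1 (hX hb.1)
    have ha2 := mem_Ico.1 ha.2
    have hb2 := mem_Ico.1 hb.2
    rw [mem_filter]
    refine ⟨?_, hab⟩
    simp only [mem_product, mem_range]
    refine ⟨⟨?_, ?_⟩, ?_, ?_⟩ <;> omega
  change ∫ α in (0 : ℝ)..1, (‖Qs X (5 * V) e α‖ * ‖Qs Y V d α‖) ^ 2 ≤ (K : ℝ) ^ 49
  rw [h3, Finset.sum_congr rfl fun m _ => h4 m, h5]
  exact_mod_cast h6

end Pool.Agent.GM
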