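import Pool.Agent.Lib.MP_1e1427_nt.GM.Stm

set_option autoImplicit false

open Finset

namespace Pool.Agent.GM

/-- the exceptional set -/
def finBad (ε : ℝ) : Set ℕ := {n | n % 2 = 1 ∧ ¬ (n : ℝ) ^ (1 / 2 - ε) ≤ ((NN n).ncard : ℝ)}

/-- the block -/
def finBlk (V K : ℕ) : Set ℕ := {n | 9641 * (V : ℝ) ^ 2 * (K : ℝ) ^ 48 ≤ n ∧ (n : ℝ) < 9799 * (V : ℝ) ^ 2 * (K : ℝ) ^ 48}

lemma fin_blk_nat {V K n : ℕ} (h : n ∈ finBlk V K) :
    9641 * V ^ 2 * K ^ 48 ≤ n ∧ n < 9799 * V ^ 2 * K ^ 48 := by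
  obtain ⟨h1, h2⟩ := h
  constructor
  · exact_mod_cast h1
  · exact_mod_cast h2

lemma fin_blk_finite (V K : ℕ) : (finBlk V K).Finite :=
  (Set.finite_lt_nat (9799 * V ^ 2 * K ^ 48)).subset (fun _ hn => (fin_blk_nat hn).2)

/-- the part of the exceptional set in one class and one block -/
lemma fin_class (h_cls : S_cls) (h_one : S_one) {C1 C2 : ℝ}
    (hX : ∀ V a : ℕ, 1 ≤ V → a.Coprime (2 * V) → ∃ K0 : ℕ, ∀ K : ℕ, K0 ≤ K →
      HypX C1 V K ((Ico (30 * K ^ 24) (31 * K ^ 24)).filter (fun x => (a + 4 * V * x).Prime)) ∧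
      (K : ℝ) ^ 24 / (48 * Real.log K) ≤
        (((Ico (30 * K ^ 24) (31 * K ^ 24)).filter (fun x => (a + 4 * V * x).Prime)).card : ℝ))
    (hA : ∀ w V c d e : ℕ, HypV w V c →
      ∃ K0 : ℕ, ∀ K : ℕ, K0 ≤ K → ∀ X : Finset ℕ, HypX C1 V K X →
      (((Ico (4820 * V * K ^ 48) (4900 * V * K ^ 48)).filter
        (fun m => 50 * V * rr V c d e (K ^ 24) X m < X.card)).card : ℝ) ≤
        C2 * (V * (K : ℝ) ^ 48 / Real.sqrt w))
    {ε : ℝ} (hε : 0 < ε) {w V ν : ℕ} (hw : 5 ≤ w) (hV : V = 2 * primorial w) (hν : ν % 2 = 1) :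
    ∃ K0 : ℕ, ∀ K : ℕ, K0 ≤ K →
      ((({n | n ∈ finBad ε ∧ n ∈ finBlk V K ∧ n % (2 * V) = ν % (2 * V)} : Set ℕ).ncard : ℕ) : ℝ) ≤
        C2 * (V * (K : ℝ) ^ 48 / Real.sqrt w) := by
  obtain ⟨b, c, d, hb8, hab, hc, hcV, hdV, hd2, hmod⟩ := h_cls w ν hw hν
  rw [← hV] at hab hc hcV hdV hmod
  have hpr : 0 < primorial w := primorial_pos w
  have hV1 : 1 ≤ V := by omega
  have hV2 : 2 ∣ V := ⟨primorial w, hV⟩
  have hHV : HypV w V c := by
    refine ⟨hw, hV1, hV2, ?_, hc⟩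
    intro p hp hpw
    have h1 : p ∣ primorial w := by
      apply Finset.dvd_prod_of_mem
      rw [Finset.mem_filter, Finset.mem_range]
      exact ⟨by omega, hp⟩
    rw [hV]
    exact (h1.mul_left 2).mul_left 2
  have hc2 : c % 2 = 1 := by
    have h1 : c.Coprime 2 := hc.coprime_dvd_right ⟨V, rfl⟩
    rcases Nat.mod_two_eq_zero_or_one c with h | h
    · exfalso
      have h2 : 2 ∣ c := Nat.dvd_of_mod_eq_zero h
      have h3 := Nat.Coprime.eq_one_of_dvd h1.symm h2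
      omega
    · exact h
  obtain ⟨K1, hK1⟩ := hX V (2 * b - 1) hV1 hab
  obtain ⟨K2, hK2⟩ := hA w V c d (5 * b - 2) hHV
  obtain ⟨K3, hK3⟩ := h_one V b c d ε hε hV1 hV2 hb8 hcV hdV hc2 hd2
  refine ⟨max (max K1 K2) (max K3 (5 * b ^ 2 + 1 + c ^ 2 + d ^ 2 + 4 * b + 1)), fun K hK => ?_⟩
  have hK1' : K1 ≤ K := ((le_max_left _ _).trans (le_max_left _ _)).trans hK
  have hK2' : K2 ≤ K := ((le_max_right _ _).trans (le_max_left _ _)).trans hK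
  have hK3' : K3 ≤ K := ((le_max_left _ _).trans (le_max_right _ _)).trans hK
  have hK4' : 5 * b ^ 2 + 1 + c ^ 2 + d ^ 2 + 4 * b + 1 ≤ K :=
    ((le_max_right _ _).trans (le_max_right _ _)).trans hK
  obtain ⟨hHX, hXlow⟩ := hK1 K hK1'
  have hcard := hK2 K hK2' _ hHX
  refine le_trans ?_ hcard
  obtain ⟨X, hXdef⟩ : ∃ X, X = (Ico (30 * K ^ 24) (31 * K ^ 24)).filter
    (fun x => (2 * b - 1 + 4 * V * x).Prime) := ⟨_, rfl⟩
  rw [← hXdef] at hXlow ⊢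
  have hone := hK3 K hK3' X hXdef hXlow
  obtain ⟨κ, hκ⟩ : ∃ κ, κ = 5 * b ^ 2 + 1 + c ^ 2 + d ^ 2 := ⟨_, rfl⟩
  rw [← hκ] at hK4' hmod
  have hK48 : K ≤ V * K ^ 48 := by
    calc K = 1 * K ^ 1 := by ring
      _ ≤ V * K ^ 48 := Nat.mul_le_mul hV1 (Nat.pow_le_pow_right (by omega) (by norm_num))
  have hVV : V * K ^ 48 ≤ V ^ 2 * K ^ 48 := by
    apply Nat.mul_le_mul_right
    nlinarith
  -- the map
  have hmap : ∀ n, n ∈ finBad ε ∧ n ∈ finBlk V K ∧ n % (2 * V) = ν % (2 * V) →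
      ∃ m, 2 * n + 4 * b = κ + 4 * V * m ∧ m ∈ (Ico (4820 * V * K ^ 48) (4900 * V * K ^ 48)).filter
        (fun m => 50 * V * rr V c d (5 * b - 2) (K ^ 24) X m < X.card) := by
    rintro n ⟨hbad, hblk, hcl⟩
    obtain ⟨hlo, hhi⟩ := fin_blk_nat hblk
    have e1 : κ ≤ 2 * n + 4 * b := by nlinarith
    have e2 : κ ≡ 2 * n + 4 * b [MOD 4 * V] := by
      refine hmod.trans ?_
      have h1 : ν ≡ n [MOD 2 * V] := hcl.symm
      have h2 : 2 * ν ≡ 2 * n [MOD 2 * (2 * V)] := Nat.ModEq.mul_left' 2 h1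
      rw [show 2 * (2 * V) = 4 * V by ring] at h2
      exact h2.add_right _
    obtain ⟨m, hm⟩ := (Nat.modEq_iff_dvd' e1).mp e2
    have hm' : 2 * n + 4 * b = κ + 4 * V * m := by omega
    have hVpos : 0 < 4 * V := by omega
    have a1 : 4820 * V * K ^ 48 ≤ m := by
      have : 4 * V * (4820 * V * K ^ 48) ≤ 4 * V * m := by
        have h3 : 4 * V * (4820 * V * K ^ 48) = 19280 * (V ^ 2 * K ^ 48) := by ring
        have h4 : 9641 * V ^ 2 * K ^ 48 = 9641 * (V ^ 2 * K ^ 48) := by ring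
        rw [h3]
        rw [h4] at hlo
        omega
      exact Nat.le_of_mul_le_mul_left this hVpos
    have a2 : m < 4900 * V * K ^ 48 := by
      have : 4 * V * m < 4 * V * (4900 * V * K ^ 48) := by
        have h3 : 4 * V * (4900 * V * K ^ 48) = 19600 * (V ^ 2 * K ^ 48) := by ring
        have h4 : 9799 * V ^ 2 * K ^ 48 = 9799 * (V ^ 2 * K ^ 48) := by ring
        rw [h3]
        rw [h4] at hhi
        omega
      exact Nat.lt_of_mul_lt_mul_left this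
    refine ⟨m, hm', ?_⟩
    rw [mem_filter, mem_Ico]
    refine ⟨⟨a1, a2⟩, ?_⟩
    by_contra hcon
    push Not at hcon
    apply hbad.2
    apply hone m n
    · rw [← hκ]; exact hm'
    · refine le_trans ?_ hlo
      rw [mul_assoc]
      exact Nat.le_mul_of_pos_left _ (by norm_num)
    · refine lt_of_lt_of_le hhi ?_
      rw [mul_assoc, mul_assoc]
      exact Nat.mul_le_mul_right _ (by norm_num)
    · exact hcon
  choose! f hf1 hf2 using hmap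
  have h1 : (({n | n ∈ finBad ε ∧ n ∈ finBlk V K ∧ n % (2 * V) = ν % (2 * V)} : Set ℕ)).ncard ≤
      ((((Ico (4820 * V * K ^ 48) (4900 * V * K ^ 48)).filter
        (fun m => 50 * V * rr V c d (5 * b - 2) (K ^ 24) X m < X.card) : Finset ℕ) : Set ℕ)).ncard := by
    apply Set.ncard_le_ncard_of_injOn f
    · intro n hn
      exact hf2 n hn
    · intro n hn n' hn' he
      have g1 := hf1 n hn
      have g2 := hf1 n' hn'
      rw [he] at g1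
      omega
  rw [Set.ncard_coe_finset] at h1
  exact_mod_cast h1

theorem p_fin (h_thmA : S_thmA) (h_X : S_X) (h_cls : S_cls) (h_one : S_one) (h_dens : S_dens) :
    S_fin := by
  intro ε hε η hη
  obtain ⟨C1, hC1, hX⟩ := h_X
  obtain ⟨C2, hC2, hA⟩ := h_thmA C1 hC1
  obtain ⟨C, hC, hD⟩ := h_dens
  -- choice of `w`
  obtain ⟨w, hw5, hw1, hw2⟩ : ∃ w : ℕ, 5 ≤ w ∧ C2 / Real.sqrt w ≤ 1 ∧
      C * Real.sqrt (C2 / Real.sqrt w) ≤ η := by
    obtain ⟨τ, hτ, hτ1, hτ2⟩ : ∃ τ : ℝ, 0 < τ ∧ τ ≤ 1 ∧ C * Real.sqrt τ ≤ η := by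
      refine ⟨min 1 ((η / C) ^ 2), by positivity, min_le_left _ _, ?_⟩
      have h1 : Real.sqrt (min 1 ((η / C) ^ 2)) ≤ η / C := by
        rw [Real.sqrt_le_left (by positivity)]
        exact min_le_right _ _
      calc C * Real.sqrt (min 1 ((η / C) ^ 2)) ≤ C * (η / C) := mul_le_mul_of_nonneg_left h1 hC.le
        _ = η := by field_simp
    obtain ⟨w, hw⟩ := exists_nat_ge (max 5 ((C2 / τ) ^ 2))
    have hw5 : (5 : ℝ) ≤ w := (le_max_left _ _).trans hw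
    have hw6 : (C2 / τ) ^ 2 ≤ w := (le_max_right _ _).trans hw
    have hs : C2 / τ ≤ Real.sqrt w := Real.le_sqrt_of_sq_le hw6
    have hspos : 0 < Real.sqrt w := Real.sqrt_pos.mpr (by linarith)
    have hle : C2 / Real.sqrt w ≤ τ := by
      rw [div_le_iff₀ hspos]
      rw [div_le_iff₀ hτ] at hs
      linarith
    refine ⟨w, by exact_mod_cast hw5, hle.trans hτ1, ?_⟩
    calc C * Real.sqrt (C2 / Real.sqrt w) ≤ C * Real.sqrt τ :=
          mul_le_mul_of_nonneg_left (Real.sqrt_le_sqrt hle) hC.le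
      _ ≤ η := hτ2
  obtain ⟨V, hV⟩ : ∃ V, V = 2 * primorial w := ⟨_, rfl⟩
  have hpr : 0 < primorial w := primorial_pos w
  have hV1 : 1 ≤ V := by omega
  have hVr : (0 : ℝ) < V := by exact_mod_cast hV1
  have hwr : (0 : ℝ) < Real.sqrt w := Real.sqrt_pos.mpr (by exact_mod_cast (by omega : 0 < w))
  -- all classes
  have hcl : ∀ i : ℕ, ∃ K0 : ℕ, ∀ K : ℕ, K0 ≤ K →
      ((({n | n ∈ finBad ε ∧ n ∈ finBlk V K ∧ n % (2 * V) = (2 * i + 1) % (2 * V)} : Set ℕ).ncard : ℕ) : ℝ) ≤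
        C2 * (V * (K : ℝ) ^ 48 / Real.sqrt w) := fun i =>
    fin_class h_cls h_one hX hA hε hw5 hV (by omega)
  choose K0 hK0 using hcl
  have hblock : ∀ K : ℕ, (range V).sup K0 ≤ K →
      (({n : ℕ | n ∈ finBad ε ∧ 9641 * (V : ℝ) ^ 2 * (K : ℝ) ^ 48 ≤ n ∧
        (n : ℝ) < 9799 * (V : ℝ) ^ 2 * (K : ℝ) ^ 48}.ncard : ℕ) : ℝ) ≤
        (C2 / Real.sqrt w) * (V : ℝ) ^ 2 * (K : ℝ) ^ 48 := by
    intro K hK
    have hsub : {n : ℕ | n ∈ finBad ε ∧ 9641 * (V : ℝ) ^ 2 * (K : ℝ) ^ 48 ≤ n ∧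
        (n : ℝ) < 9799 * (V : ℝ) ^ 2 * (K : ℝ) ^ 48} ⊆
        ⋃ i ∈ range V, {n | n ∈ finBad ε ∧ n ∈ finBlk V K ∧ n % (2 * V) = (2 * i + 1) % (2 * V)} := by
      rintro n ⟨h1, h2, h3⟩
      simp only [Set.mem_iUnion, mem_range, Set.mem_ofPred_eq, exists_prop]
      refine ⟨(n % (2 * V)) / 2, ?_, h1, ⟨h2, h3⟩, ?_⟩
      · have : n % (2 * V) < 2 * V := Nat.mod_lt _ (by omega)
        omega
      · have hodd : n % 2 = 1 := h1.1
        have h4 : n % (2 * V) % 2 = 1 := by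
          rw [Nat.mod_mod_of_dvd n ⟨V, rfl⟩]; exact hodd
        have h5 : 2 * (n % (2 * V) / 2) + 1 = n % (2 * V) := by omega
        rw [h5, Nat.mod_mod]
    have hfin : ∀ i ∈ range V, ({n | n ∈ finBad ε ∧ n ∈ finBlk V K ∧
        n % (2 * V) = (2 * i + 1) % (2 * V)} : Set ℕ).Finite := fun i _ =>
      (fin_blk_finite V K).subset (fun n hn => hn.2.1)
    have h1 : ({n : ℕ | n ∈ finBad ε ∧ 9641 * (V : ℝ) ^ 2 * (K : ℝ) ^ 48 ≤ n ∧
        (n : ℝ) < 9799 * (V : ℝ) ^ 2 * (K : ℝ) ^ 48}.ncard) ≤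
        ∑ i ∈ range V, ({n | n ∈ finBad ε ∧ n ∈ finBlk V K ∧
          n % (2 * V) = (2 * i + 1) % (2 * V)} : Set ℕ).ncard := by
      refine (Set.ncard_le_ncard hsub ?_).trans ?_
      · exact Set.Finite.biUnion (Finset.finite_toSet _) (fun i hi => hfin i hi)
      · exact Finset.set_ncard_biUnion_le (range V) _
    have h2 : (({n : ℕ | n ∈ finBad ε ∧ 9641 * (V : ℝ) ^ 2 * (K : ℝ) ^ 48 ≤ n ∧
        (n : ℝ) < 9799 * (V : ℝ) ^ 2 * (K : ℝ) ^ 48}.ncard : ℕ) : ℝ) ≤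
        ∑ i ∈ range V, ((({n | n ∈ finBad ε ∧ n ∈ finBlk V K ∧
          n % (2 * V) = (2 * i + 1) % (2 * V)} : Set ℕ).ncard : ℕ) : ℝ) := by exact_mod_cast h1
    refine h2.trans ?_
    calc ∑ i ∈ range V, ((({n | n ∈ finBad ε ∧ n ∈ finBlk V K ∧
          n % (2 * V) = (2 * i + 1) % (2 * V)} : Set ℕ).ncard : ℕ) : ℝ)
        ≤ ∑ _i ∈ range V, C2 * (V * (K : ℝ) ^ 48 / Real.sqrt w) :=
          Finset.sum_le_sum fun i hi => hK0 i K ((Finset.le_sup hi).trans hK)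
      _ = (C2 / Real.sqrt w) * (V : ℝ) ^ 2 * (K : ℝ) ^ 48 := by
          rw [Finset.sum_const, card_range, nsmul_eq_mul]
          ring
  obtain ⟨X0, hX0⟩ := hD (finBad ε) ((V : ℝ) ^ 2) (C2 / Real.sqrt w) ((range V).sup K0)
    (by positivity) (by positivity) hw1 hblock
  refine ⟨X0, fun X hX' => ?_⟩
  refine (hX0 X hX').trans ?_
  exact mul_le_mul_of_nonneg_right hw2 (Nat.cast_nonneg X)

end Pool.Agent.GM
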