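import Pool.Agent.Lib.MP_1e1427_nt.GM.Stm

set_option autoImplicit false

/-!
MP_1e1427_nt, GM 04: vanishing complete quadratic sums (theorem `p_gzero`).
-/

open Finset
open Pool.Agent.APP (ee nn)

namespace Pool.Agent.GM

private lemma gzero_sum_range (r : ℕ) [NeZero r] (F : ZMod r → ℂ) :
    ∑ j ∈ Finset.range r, F (j : ZMod r) = ∑ x : ZMod r, F x := by
  refine Finset.sum_bij' (fun j _ => (j : ZMod r)) (fun x _ => x.val) ?_ ?_ ?_ ?_ ?_
  · intro j _; exact Finset.mem_univ _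
  · intro x _; exact Finset.mem_range.2 (ZMod.val_lt x)
  · intro j hj; exact ZMod.val_cast_of_lt (Finset.mem_range.1 hj)
  · intro x _; exact ZMod.natCast_zmod_val x
  · intro j _; rfl

private lemma gzero_ee (q : ℕ) [NeZero q] (r : ℤ) (m : ℕ) :
    ee ((r : ℝ) / q * (m : ℝ)) = ZMod.stdAddChar ((r : ZMod q) * (m : ZMod q)) := by
  have h := ZMod.stdAddChar_coe (N := q) (r * m)
  push_cast at h
  rw [h, ee]
  congr 1
  push_cast
  ring

private lemma gzero_Qs (q : ℕ) [NeZero q] (r : ℤ) (V c : ℕ) :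
    Qs (range q) V c ((r : ℝ) / q) =
      ∑ x : ZMod q, ZMod.stdAddChar ((r : ZMod q) * ((V : ZMod q) * x ^ 2 + (c : ZMod q) * x)) := by
  rw [← gzero_sum_range q
    (fun x => ZMod.stdAddChar ((r : ZMod q) * ((V : ZMod q) * x ^ 2 + (c : ZMod q) * x)))]
  unfold Qs
  refine Finset.sum_congr rfl fun j _ => ?_
  have h := gzero_ee q r (V * j ^ 2 + c * j)
  push_cast at h
  exact h

theorem p_gzero : S_gzero := by
  intro V c q r h2V hc hq hnc hr
  have : NeZero q := ⟨by omega⟩
  -- a prime dividing `q` and `V`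
  obtain ⟨p, hp, hpq, hp2V⟩ := Nat.Prime.not_coprime_iff_dvd.1 hnc
  have hpV : p ∣ V := by
    rcases (Nat.Prime.dvd_mul hp).1 hp2V with h | h
    · have : p = 2 := (Nat.prime_dvd_prime_iff_eq hp Nat.prime_two).1 h
      rw [this]; exact h2V
    · exact h
  have hpc : ¬ p ∣ c := by
    intro h
    have := Nat.dvd_gcd h hp2V
    rw [hc] at this
    exact hp.one_lt.ne' (Nat.dvd_one.1 this)
  obtain ⟨s, hs⟩ := hpq
  have hpr : ¬ (p : ℤ) ∣ r := by
    intro h
    have h1 : (p : ℤ) ∣ (q : ℤ) := ⟨(s : ℤ), by exact_mod_cast hs⟩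
    have h2 : (p : ℤ) ∣ (Int.gcd r q : ℤ) := Int.dvd_coe_gcd h h1
    rw [hr] at h2
    exact hp.one_lt.ne' (Nat.dvd_one.1 (by exact_mod_cast h2))
  have hgs : (V : ZMod q) * (s : ZMod q) = 0 := by
    obtain ⟨g', rfl⟩ := hpV
    have : (((p * g') * s : ℕ) : ZMod q) = 0 := by
      rw [ZMod.natCast_eq_zero_iff]
      exact ⟨g', by rw [hs]; ring⟩
    push_cast at this ⊢
    exact this
  have hne : (r : ZMod q) * ((c : ZMod q) * (s : ZMod q)) ≠ 0 := by
    intro h
    have h3 : ((r * (c * s) : ℤ) : ZMod q) = 0 := by push_cast; exact h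
    rw [ZMod.intCast_zmod_eq_zero_iff_dvd] at h3
    have hs0 : (s : ℤ) ≠ 0 := by
      rintro h0
      have : s = 0 := by exact_mod_cast h0
      rw [this, mul_zero] at hs
      omega
    have h4 : (p : ℤ) ∣ r * c := by
      rw [hs] at h3
      push_cast at h3
      have : (p : ℤ) * s ∣ (r * c) * s := by rw [mul_assoc]; exact h3
      exact Int.dvd_of_mul_dvd_mul_right hs0 this
    rcases (Nat.prime_iff_prime_int.1 hp).dvd_or_dvd h4 with h5 | h5
    · exact hpr h5
    · exact hpc (by exact_mod_cast h5)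
  have hψ : ZMod.stdAddChar ((r : ZMod q) * ((c : ZMod q) * (s : ZMod q))) ≠ 1 := by
    intro h
    apply hne
    apply ZMod.injective_stdAddChar
    rw [h, AddChar.map_zero_eq_one]
  have h1 : Qs (range q) V c ((r : ℝ) / q) =
      ZMod.stdAddChar ((r : ZMod q) * ((c : ZMod q) * (s : ZMod q))) *
        Qs (range q) V c ((r : ℝ) / q) := by
    rw [gzero_Qs]
    conv_lhs => rw [← Equiv.sum_comp (Equiv.addRight (s : ZMod q))]
    rw [Finset.mul_sum]
    refine Finset.sum_congr rfl fun x _ => ?_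
    rw [← AddChar.map_add_eq_mul]
    congr 1
    simp only [Equiv.coe_addRight]
    linear_combination ((r : ZMod q) * (2 * x + s)) * hgs
  by_contra h0
  apply hψ
  have h6 : (ZMod.stdAddChar ((r : ZMod q) * ((c : ZMod q) * (s : ZMod q))) - 1) *
      Qs (range q) V c ((r : ℝ) / q) = 0 := by
    rw [sub_mul, one_mul, ← h1, sub_self]
  rcases mul_eq_zero.1 h6 with h7 | h7
  · exact sub_eq_zero.1 h7
  · exact absurd h7 h0

end Pool.Agent.GM
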