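import Pool.Agent.Lib.MP_1e1427_nt.GM.Stm

set_option autoImplicit false

open Finset MeasureTheory

namespace Pool.Agent.GM

private theorem int_half (a δ : ℝ) (ha : 0 < a) (hδ : 0 ≤ δ) :
    ∫ β in (0 : ℝ)..δ, ((1 + a * |β|) ^ 2)⁻¹ ≤ 1 / a := by
  have h1 : ∫ β in (0 : ℝ)..δ, ((1 + a * |β|) ^ 2)⁻¹ = ∫ β in (0 : ℝ)..δ, ((1 + a * β) ^ 2)⁻¹ := by
    refine intervalIntegral.integral_congr fun β hβ => ?_
    rw [Set.uIcc_of_le hδ] at hβ
    simp only [abs_of_nonneg hβ.1]
  have hpos : ∀ β ∈ Set.uIcc (0 : ℝ) δ, 0 < 1 + a * β := by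
    intro β hβ
    rw [Set.uIcc_of_le hδ] at hβ
    have := mul_nonneg ha.le hβ.1
    linarith
  have h2 : ∫ β in (0 : ℝ)..δ, ((1 + a * β) ^ 2)⁻¹ =
      -(a * (1 + a * δ))⁻¹ - -(a * (1 + a * 0))⁻¹ := by
    refine intervalIntegral.integral_eq_sub_of_hasDerivAt
      (f := fun β : ℝ => -(a * (1 + a * β))⁻¹) ?_ ?_
    · intro β hβ
      have hp := hpos β hβ
      have hd : HasDerivAt (fun β : ℝ => a * (1 + a * β)) (a * (a * 1)) β :=
        (((hasDerivAt_id β).const_mul a).const_add 1).const_mul a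
      have hne : a * (1 + a * β) ≠ 0 := by positivity
      have hd2 := (hd.fun_inv hne).fun_neg
      refine hd2.congr_deriv ?_
      field_simp
    · refine ContinuousOn.intervalIntegrable ?_
      refine ContinuousOn.inv₀ (by fun_prop) ?_
      intro β hβ
      have hp := hpos β hβ
      positivity
  rw [h1, h2]
  have h3 : 0 < (a * (1 + a * δ))⁻¹ := by
    have : 0 < 1 + a * δ := hpos δ Set.right_mem_uIcc
    positivity
  have h4 : (a * (1 + a * 0))⁻¹ = 1 / a := by
    rw [mul_zero, add_zero, mul_one, one_div]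
  rw [h4]
  linarith

theorem p_int : S_int := by
  intro a δ ha hδ
  have hcont : Continuous fun β : ℝ => ((1 + a * |β|) ^ 2)⁻¹ := by
    refine Continuous.inv₀ (by fun_prop) ?_
    intro β
    have : 0 ≤ a * |β| := by positivity
    positivity
  rw [← intervalIntegral.integral_add_adjacent_intervals
    (hcont.intervalIntegrable (-δ) 0) (hcont.intervalIntegrable 0 δ)]
  have h1 : ∫ β in (-δ)..0, ((1 + a * |β|) ^ 2)⁻¹ = ∫ β in (0 : ℝ)..δ, ((1 + a * |β|) ^ 2)⁻¹ := by
    have := intervalIntegral.integral_comp_neg (a := 0) (b := δ)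
      (fun β : ℝ => ((1 + a * |β|) ^ 2)⁻¹)
    simp only [abs_neg, neg_zero] at this
    exact this.symm
  rw [h1]
  have h2 := int_half a δ ha hδ
  have h3 : (2 : ℝ) / a = 1 / a + 1 / a := by ring
  rw [h3]
  linarith

end Pool.Agent.GM
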