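import Pool.Agent.Lib.MP_1e1427_nt.GM.Stm

namespace Pool.Agent.GM

open Finset

private lemma loc_step (R : ℕ → ℕ) (b ρ u : ℕ) (hstep : ∀ z < b, R (z + 1) ≤ R z + ρ) :
    ∀ k, u + k ≤ b → R (u + k) ≤ R u + k * ρ := by
  intro k
  induction k with
  | zero => intro _; simp
  | succ k ih =>
    intro h
    have h1 := ih (by omega)
    have h2 := hstep (u + k) (by omega)
    rw [← Nat.add_assoc]
    nlinarith

private lemma loc_count (R : ℕ → ℕ) (a b n m H ρ : ℕ) (hmono : Monotone R)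
    (hstep : ∀ z < b, R (z + 1) ≤ R z + ρ) (h1 : n + R a + H ≤ m) (h2 : m < n + R b) :
    H ≤ (((Ico a b).filter (fun z => n + R z ≤ m ∧ m < n + R z + H)).card + 1) * ρ := by
  have hP : ∃ z, m < n + R z + H := ⟨b, by omega⟩
  have hQ : ∃ z, m < n + R z := ⟨b, h2⟩
  obtain ⟨z1, hz1, hz1'⟩ : ∃ z1, m < n + R z1 + H ∧ ∀ z < z1, n + R z + H ≤ m := by
    refine ⟨Nat.find hP, Nat.find_spec hP, ?_⟩
    intro z hz
    have := Nat.find_min hP hz
    omega
  obtain ⟨z2, hz2, hz2'⟩ : ∃ z2, m < n + R z2 ∧ ∀ z < z2, n + R z ≤ m := by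
    refine ⟨Nat.find hQ, Nat.find_spec hQ, ?_⟩
    intro z hz
    have := Nat.find_min hQ hz
    omega
  have h12 : z1 ≤ z2 := by
    by_contra h
    have := hz1' z2 (by omega)
    omega
  have ha : a < z1 := by
    by_contra h
    have := hmono (show z1 ≤ a by omega)
    omega
  have hb : z2 ≤ b := by
    by_contra h
    have := hz2' b (by omega)
    omega
  have hsub : Ico z1 z2 ⊆ (Ico a b).filter (fun z => n + R z ≤ m ∧ m < n + R z + H) := by
    intro z hz
    rw [mem_Ico] at hz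
    rw [mem_filter, mem_Ico]
    have hm := hmono hz.1
    exact ⟨⟨by omega, by omega⟩, hz2' z hz.2, by omega⟩
  have hcard := card_le_card hsub
  rw [Nat.card_Ico] at hcard
  have hs := loc_step R b ρ (z1 - 1) hstep (z2 - z1 + 1) (by omega)
  have he : z1 - 1 + (z2 - z1 + 1) = z2 := by omega
  rw [he] at hs
  have h3 := hz1' (z1 - 1) (by omega)
  have h4 : (z2 - z1 + 1) * ρ ≤
      (((Ico a b).filter (fun z => n + R z ≤ m ∧ m < n + R z + H)).card + 1) * ρ :=
    Nat.mul_le_mul_right _ (by omega)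
  omega

/-- the sum over the window counts the triples with value in the window -/
private lemma loc_sum (V c d e L H m : ℕ) (X : Finset ℕ) :
    ((box L X).filter (fun t => val V c d e t ≤ m ∧ m < val V c d e t + H)).card ≤
      ∑ j ∈ range H, rr V c d e L X (m - j) := by
  unfold rr
  simp only [card_filter]
  rw [sum_comm]
  apply sum_le_sum
  intro t _
  by_cases h : val V c d e t ≤ m ∧ m < val V c d e t + H
  · rw [if_pos h]
    have hj : m - val V c d e t ∈ range H := by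
      rw [mem_range]
      omega
    have h1 : (if val V c d e t = m - (m - val V c d e t) then 1 else 0) ≤
        ∑ j ∈ range H, (if val V c d e t = m - j then 1 else 0) :=
      single_le_sum (f := fun j => if val V c d e t = m - j then 1 else 0)
        (fun _ _ => Nat.zero_le _) hj
    rw [if_pos (by omega)] at h1
    exact h1
  · rw [if_neg h]
    exact Nat.zero_le _

private lemma loc_box (V c d e L H m : ℕ) (X : Finset ℕ) :
    ((box L X).filter (fun t => val V c d e t ≤ m ∧ m < val V c d e t + H)).card =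
      ∑ x ∈ X, ∑ y ∈ Ico L (3 * L), ((Ico (2 * L) (20 * L)).filter (fun z =>
        ((5 * V * x ^ 2 + e * x) + (V * y ^ 2 + c * y)) + (V * z ^ 2 + d * z) ≤ m ∧
        m < ((5 * V * x ^ 2 + e * x) + (V * y ^ 2 + c * y)) + (V * z ^ 2 + d * z) + H)).card := by
  unfold box
  simp only [card_filter]
  rw [sum_product]
  apply sum_congr rfl
  intro x _
  rw [sum_product]
  rfl

theorem p_loc : S_loc := by
  intro w V c d e hw hV
  refine ⟨31 * e + 3 * c + 2 * d + 228 * w + 1, ?_⟩
  intro K hK X m hX hm1 hm2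
  set L := K ^ 24 with hL
  have hKL : K ≤ L := by
    rw [hL]
    exact Nat.le_self_pow (by norm_num) K
  have hK48 : K ^ 48 = L ^ 2 := by
    rw [hL]
    ring
  rw [hK48] at hm1 hm2 ⊢
  set H := V * L ^ 2 / w with hH
  have hH5 : 5 * H ≤ V * L ^ 2 := by
    have h1 : w * H ≤ V * L ^ 2 := Nat.mul_div_le _ _
    calc 5 * H ≤ w * H := Nat.mul_le_mul_right _ hw
      _ ≤ _ := h1
  have hHL : 228 * (V * L) ≤ H := by
    rw [hH, Nat.le_div_iff_mul_le (by omega)]
    have h1 : 228 * w ≤ L := by omega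
    calc 228 * (V * L) * w = V * L * (228 * w) := by ring
      _ ≤ V * L * L := Nat.mul_le_mul_left _ h1
      _ = V * L ^ 2 := by ring
  have hdL : (31 * e + 3 * c + 2 * d) * L ≤ V * L ^ 2 := by
    calc (31 * e + 3 * c + 2 * d) * L ≤ L * L := Nat.mul_le_mul_right _ (by omega)
      _ = 1 * L ^ 2 := by ring
      _ ≤ V * L ^ 2 := Nat.mul_le_mul_right _ hV
  have hd : d ≤ V * L := by
    calc d ≤ 1 * L := by omega
      _ ≤ V * L := Nat.mul_le_mul_right _ hV
  -- the count
  have key : ∀ x ∈ X, ∀ y ∈ Ico L (3 * L), H ≤ 50 * (V * L) *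
      ((Ico (2 * L) (20 * L)).filter (fun z =>
        ((5 * V * x ^ 2 + e * x) + (V * y ^ 2 + c * y)) + (V * z ^ 2 + d * z) ≤ m ∧
        m < ((5 * V * x ^ 2 + e * x) + (V * y ^ 2 + c * y)) + (V * z ^ 2 + d * z) + H)).card := by
    intro x hx y hy
    have hx' := mem_Ico.mp (hX hx)
    rw [mem_Ico] at hy
    set n := (5 * V * x ^ 2 + e * x) + (V * y ^ 2 + c * y) with hn
    have hx1 : 5 * V * x ^ 2 ≤ 4805 * (V * L ^ 2) := by
      have : x ^ 2 ≤ (31 * L) ^ 2 := Nat.pow_le_pow_left (by omega) 2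
      calc 5 * V * x ^ 2 ≤ 5 * V * (31 * L) ^ 2 := Nat.mul_le_mul_left _ this
        _ = 4805 * (V * L ^ 2) := by ring
    have hx2 : 4500 * (V * L ^ 2) ≤ 5 * V * x ^ 2 := by
      have : (30 * L) ^ 2 ≤ x ^ 2 := Nat.pow_le_pow_left (by omega) 2
      calc 4500 * (V * L ^ 2) = 5 * V * (30 * L) ^ 2 := by ring
        _ ≤ 5 * V * x ^ 2 := Nat.mul_le_mul_left _ this
    have hx3 : e * x ≤ 31 * e * L := by
      calc e * x ≤ e * (31 * L) := Nat.mul_le_mul_left _ (by omega)
        _ = 31 * e * L := by ring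
    have hy1 : V * y ^ 2 ≤ 9 * (V * L ^ 2) := by
      have : y ^ 2 ≤ (3 * L) ^ 2 := Nat.pow_le_pow_left (by omega) 2
      calc V * y ^ 2 ≤ V * (3 * L) ^ 2 := Nat.mul_le_mul_left _ this
        _ = 9 * (V * L ^ 2) := by ring
    have hy2 : V * L ^ 2 ≤ V * y ^ 2 := by
      have : L ^ 2 ≤ y ^ 2 := Nat.pow_le_pow_left hy.1 2
      exact Nat.mul_le_mul_left _ this
    have hy3 : c * y ≤ 3 * c * L := by
      calc c * y ≤ c * (3 * L) := Nat.mul_le_mul_left _ (by omega)
        _ = 3 * c * L := by ring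
    have hexp : (31 * e + 3 * c + 2 * d) * L = 31 * e * L + 3 * c * L + 2 * (d * L) := by ring
    have hm1' : 4820 * (V * L ^ 2) ≤ m := by
      calc 4820 * (V * L ^ 2) = 4820 * V * L ^ 2 := by ring
        _ ≤ m := hm1
    have hm2' : m < 4900 * (V * L ^ 2) := by
      calc m < 4900 * V * L ^ 2 := hm2
        _ = 4900 * (V * L ^ 2) := by ring
    have hR2 : V * (2 * L) ^ 2 + d * (2 * L) = 4 * (V * L ^ 2) + 2 * (d * L) := by ring
    have hR20 : V * (20 * L) ^ 2 + d * (20 * L) = 400 * (V * L ^ 2) + 20 * (d * L) := by ring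
    have hmono : Monotone (fun z : ℕ => V * z ^ 2 + d * z) := by
      intro a b hab
      have h1 : a ^ 2 ≤ b ^ 2 := Nat.pow_le_pow_left hab 2
      exact Nat.add_le_add (Nat.mul_le_mul_left _ h1) (Nat.mul_le_mul_left _ hab)
    have hstep : ∀ z < 20 * L, (fun z : ℕ => V * z ^ 2 + d * z) (z + 1) ≤
        (fun z : ℕ => V * z ^ 2 + d * z) z + 41 * (V * L) := by
      intro z hz
      have h1 : V * (z + 1) ^ 2 + d * (z + 1) = V * z ^ 2 + d * z + (V * (2 * z + 1) + d) := by ring
      have h2 : V * (2 * z + 1) ≤ V * (40 * L) := Nat.mul_le_mul_left _ (by omega)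
      have h3 : V * (40 * L) = 40 * (V * L) := by ring
      show V * (z + 1) ^ 2 + d * (z + 1) ≤ V * z ^ 2 + d * z + 41 * (V * L)
      omega
    have hc := loc_count (fun z : ℕ => V * z ^ 2 + d * z) (2 * L) (20 * L) n m H (41 * (V * L))
      hmono hstep (by
        show n + (V * (2 * L) ^ 2 + d * (2 * L)) + H ≤ m
        rw [hR2]
        omega) (by
        show m < n + (V * (20 * L) ^ 2 + d * (20 * L))
        rw [hR20]
        omega)
    have hc' : H ≤ (((Ico (2 * L) (20 * L)).filter (fun z =>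
        n + (V * z ^ 2 + d * z) ≤ m ∧ m < n + (V * z ^ 2 + d * z) + H)).card + 1) * (41 * (V * L)) := hc
    set C := ((Ico (2 * L) (20 * L)).filter (fun z =>
        n + (V * z ^ 2 + d * z) ≤ m ∧ m < n + (V * z ^ 2 + d * z) + H)).card with hC
    have h5 : (C + 1) * (41 * (V * L)) = 41 * (V * L * C) + 41 * (V * L) := by ring
    have h6 : 50 * (V * L) * C = 50 * (V * L * C) := by ring
    rw [h5] at hc'
    rw [h6]
    omega
  have hLpos : 0 < 2 * L := by omega
  have hsum : X.card * H ≤ 25 * V * ∑ x ∈ X, ∑ y ∈ Ico L (3 * L),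
      ((Ico (2 * L) (20 * L)).filter (fun z =>
        ((5 * V * x ^ 2 + e * x) + (V * y ^ 2 + c * y)) + (V * z ^ 2 + d * z) ≤ m ∧
        m < ((5 * V * x ^ 2 + e * x) + (V * y ^ 2 + c * y)) + (V * z ^ 2 + d * z) + H)).card := by
    rw [mul_sum, ← smul_eq_mul, ← sum_const]
    apply sum_le_sum
    intro x hx
    have h1 : ∑ y ∈ Ico L (3 * L), H ≤ ∑ y ∈ Ico L (3 * L), 50 * (V * L) *
      ((Ico (2 * L) (20 * L)).filter (fun z =>
        ((5 * V * x ^ 2 + e * x) + (V * y ^ 2 + c * y)) + (V * z ^ 2 + d * z) ≤ m ∧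
        m < ((5 * V * x ^ 2 + e * x) + (V * y ^ 2 + c * y)) + (V * z ^ 2 + d * z) + H)).card :=
      sum_le_sum (fun y hy => key x hx y hy)
    rw [sum_const, Nat.card_Ico, smul_eq_mul, ← mul_sum] at h1
    have h2 : 3 * L - L = 2 * L := by omega
    rw [h2] at h1
    apply Nat.le_of_mul_le_mul_left _ hLpos
    calc 2 * L * H ≤ _ := h1
      _ = _ := by ring
  calc X.card * H ≤ _ := hsum
    _ = 25 * V * ((box L X).filter (fun t => val V c d e t ≤ m ∧ m < val V c d e t + H)).card := by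
        rw [loc_box]
    _ ≤ _ := Nat.mul_le_mul_left _ (loc_sum V c d e L H m X)

end Pool.Agent.GM
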