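import Pool.Agent.Lib.MP_1e1427_nt.GM.Stm

set_option autoImplicit false

open Finset MeasureTheory
open Pool.Agent.APP (ee nn)

namespace Pool.Agent.GM

private theorem maj1_cont (V c d e L H : ℕ) (X : Finset ℕ) : Continuous (Phi V c d e L H X) := by
  have hee : Continuous ee := by
    unfold Pool.Agent.APP.ee
    fun_prop
  have hQ : ∀ (Y : Finset ℕ) (V c : ℕ), Continuous (Qs Y V c) := by
    intro Y V c
    unfold Qs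
    exact continuous_finsetSum _ fun y _ => hee.comp (by fun_prop)
  have hD : Continuous (Ds H) := by
    unfold Ds
    exact continuous_const.mul (continuous_finsetSum _ fun y _ => hee.comp (by fun_prop))
  unfold Phi
  exact ((((hQ _ _ _).norm.mul (hQ _ _ _).norm).mul (hQ _ _ _).norm).mul
    (continuous_const.sub hD).norm).pow 2

private theorem maj1_Qs_le (X : Finset ℕ) (V c : ℕ) (α : ℝ) : ‖Qs X V c α‖ ≤ X.card := by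
  unfold Qs
  refine (norm_sum_le _ _).trans ?_
  simp [Pool.Agent.APP.norm_ee]

private theorem maj1_hyp1 (V c d K : ℕ) (hK : 8 * (400 * V + 20 * (c + d)) + 100 ≤ K) (β : ℝ)
    (hβ : |β| ≤ 1 / (K : ℝ) ^ 42) :
    |β| * (40 * V * ((K ^ 24 : ℕ) : ℝ) + V + c + d) ≤ 1 / 2 := by
  have hK' : 8 * (400 * (V : ℝ) + 20 * (c + d)) + 100 ≤ K := by exact_mod_cast hK
  have hV0 : (0 : ℝ) ≤ V := Nat.cast_nonneg _
  have hc0 : (0 : ℝ) ≤ c := Nat.cast_nonneg _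
  have hd0 : (0 : ℝ) ≤ d := Nat.cast_nonneg _
  have hk1 : (1 : ℝ) ≤ K := by linarith
  have hk0 : (0 : ℝ) < K := by linarith
  push_cast
  have h1 : (1 : ℝ) ≤ (K : ℝ) ^ 24 := one_le_pow₀ hk1
  have h2 : 40 * (V : ℝ) * (K : ℝ) ^ 24 + V + c + d ≤ (K : ℝ) / 2 * (K : ℝ) ^ 24 := by
    nlinarith
  have h3 : (K : ℝ) / 2 * (K : ℝ) ^ 24 ≤ (K : ℝ) ^ 42 / 2 := by
    have : (K : ℝ) ^ 25 ≤ (K : ℝ) ^ 42 := pow_le_pow_right₀ hk1 (by norm_num)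
    calc (K : ℝ) / 2 * (K : ℝ) ^ 24 = (K : ℝ) ^ 25 / 2 := by ring
      _ ≤ _ := by linarith
  calc |β| * (40 * V * (K : ℝ) ^ 24 + V + c + d)
      ≤ 1 / (K : ℝ) ^ 42 * ((K : ℝ) ^ 42 / 2) :=
        mul_le_mul hβ (h2.trans h3) (by positivity) (by positivity)
    _ = 1 / 2 := by field_simp

private theorem maj1_hyp2 (V c d K : ℕ) (hK : 8 * (400 * V + 20 * (c + d)) + 100 ≤ K) (β : ℝ)
    (hβ : |β| ≤ 1 / (K : ℝ) ^ 42) :
    ((1 : ℕ) : ℝ) * (2 + 2 * Real.pi * |β| * (400 * V * ((K ^ 24 : ℕ) : ℝ) ^ 2 +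
      20 * (c + d) * ((K ^ 24 : ℕ) : ℝ))) ≤ (K : ℝ) ^ 12 := by
  have hK' : 8 * (400 * (V : ℝ) + 20 * (c + d)) + 100 ≤ K := by exact_mod_cast hK
  have hV0 : (0 : ℝ) ≤ V := Nat.cast_nonneg _
  have hc0 : (0 : ℝ) ≤ c := Nat.cast_nonneg _
  have hd0 : (0 : ℝ) ≤ d := Nat.cast_nonneg _
  have hk1 : (1 : ℝ) ≤ K := by linarith
  have hk0 : (0 : ℝ) < K := by linarith
  push_cast
  have h1 : (1 : ℝ) ≤ (K : ℝ) ^ 24 := one_le_pow₀ hk1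
  have h2 : 400 * (V : ℝ) * ((K : ℝ) ^ 24) ^ 2 + 20 * ((c : ℝ) + d) * (K : ℝ) ^ 24 ≤
      (K : ℝ) / 8 * ((K : ℝ) ^ 24) ^ 2 := by
    have h3 : (K : ℝ) ^ 24 ≤ ((K : ℝ) ^ 24) ^ 2 := by nlinarith
    have h4 : 20 * ((c : ℝ) + d) * (K : ℝ) ^ 24 ≤ 20 * ((c : ℝ) + d) * ((K : ℝ) ^ 24) ^ 2 :=
      mul_le_mul_of_nonneg_left h3 (by positivity)
    have h5 : (400 * (V : ℝ) + 20 * (c + d)) * ((K : ℝ) ^ 24) ^ 2 ≤
        (K : ℝ) / 8 * ((K : ℝ) ^ 24) ^ 2 :=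
      mul_le_mul_of_nonneg_right (by linarith) (by positivity)
    linarith
  have h6 : |β| * (400 * (V : ℝ) * ((K : ℝ) ^ 24) ^ 2 + 20 * ((c : ℝ) + d) * (K : ℝ) ^ 24) ≤
      (K : ℝ) ^ 7 / 8 := by
    calc |β| * (400 * (V : ℝ) * ((K : ℝ) ^ 24) ^ 2 + 20 * ((c : ℝ) + d) * (K : ℝ) ^ 24)
        ≤ 1 / (K : ℝ) ^ 42 * ((K : ℝ) / 8 * ((K : ℝ) ^ 24) ^ 2) :=
          mul_le_mul hβ h2 (by positivity) (by positivity)
      _ = (K : ℝ) ^ 7 / 8 := by field_simp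
  have hpi : Real.pi ≤ 4 := Real.pi_le_four
  have hpi0 : 0 < Real.pi := Real.pi_pos
  have h7 : 2 * Real.pi * (|β| * (400 * (V : ℝ) * ((K : ℝ) ^ 24) ^ 2 +
      20 * ((c : ℝ) + d) * (K : ℝ) ^ 24)) ≤ 8 * ((K : ℝ) ^ 7 / 8) :=
    mul_le_mul (by linarith) h6 (by positivity) (by norm_num)
  have h8 : 2 + (K : ℝ) ^ 7 ≤ (K : ℝ) ^ 12 := by
    have h9 : (1 : ℝ) ≤ (K : ℝ) ^ 7 := one_le_pow₀ hk1
    have h10 : (100 : ℝ) ≤ (K : ℝ) ^ 5 := by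
      calc (100 : ℝ) ≤ K := by linarith
        _ = (K : ℝ) ^ 1 := (pow_one _).symm
        _ ≤ (K : ℝ) ^ 5 := pow_le_pow_right₀ hk1 (by norm_num)
    have h11 : (K : ℝ) ^ 12 = (K : ℝ) ^ 7 * (K : ℝ) ^ 5 := by ring
    rw [h11]
    nlinarith
  have h12 : 1 * (2 + 2 * Real.pi * |β| * (400 * (V : ℝ) * ((K : ℝ) ^ 24) ^ 2 +
      20 * ((c : ℝ) + d) * (K : ℝ) ^ 24)) = 2 + 2 * Real.pi * (|β| * (400 * (V : ℝ) *
      ((K : ℝ) ^ 24) ^ 2 + 20 * ((c : ℝ) + d) * (K : ℝ) ^ 24)) := by ring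
  rw [h12]
  linarith

private theorem maj1_point (h_major : S_major) (h_D : S_D) (V c d e : ℕ) (hV : 1 ≤ V)
    (h2V : 2 ∣ V) (hc : c.Coprime (2 * V)) (K : ℕ)
    (hK : 8 * (400 * V + 20 * (c + d)) + 100 ≤ K) (X : Finset ℕ) (H : ℕ) (hH : 1 ≤ H)
    (r : ℕ) (β : ℝ) (hβ : |β| ≤ 1 / (K : ℝ) ^ 42) :
    Phi V c d e (K ^ 24) H X ((r : ℝ) / ((1 : ℕ) : ℝ) + β) ≤
      (X.card : ℝ) ^ 2 * (4 * Real.pi * 36 ^ 4 * (K : ℝ) ^ 48 * H / V *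
        ((1 + (V * (K : ℝ) ^ 48) * |β|) ^ 2)⁻¹ + 4 * 10 ^ 5 * (K : ℝ) ^ 72) := by
  have hK' : 8 * (400 * (V : ℝ) + 20 * (c + d)) + 100 ≤ K := by exact_mod_cast hK
  have hV1 : (1 : ℝ) ≤ V := by exact_mod_cast hV
  have hV0 : (0 : ℝ) < V := by linarith
  have hc0 : (0 : ℝ) ≤ c := Nat.cast_nonneg _
  have hd0 : (0 : ℝ) ≤ d := Nat.cast_nonneg _
  have hk1 : (1 : ℝ) ≤ K := by linarith
  have hk0 : (0 : ℝ) < K := by linarith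
  have hpi0 : 0 < Real.pi := Real.pi_pos
  have hEL : ((K : ℝ) ^ 12) ≤ ((K ^ 24 : ℕ) : ℝ) := by
    push_cast
    exact pow_le_pow_right₀ hk1 (by norm_num)
  have hm := (h_major V c d (K ^ 24) 1 (r : ℤ) β ((K : ℝ) ^ 12) hV
    (Nat.one_le_pow _ _ (by omega)) le_rfl (by simp) h2V hc (maj1_hyp1 V c d K hK β hβ)
    (maj1_hyp2 V c d K hK β hβ) hEL).1 (Nat.coprime_one_left _)
  obtain ⟨hD1, hD2, hD3⟩ := h_D H β hH
  have hDr : Ds H ((r : ℝ) / ((1 : ℕ) : ℝ) + β) = Ds H β := by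
    rw [Nat.cast_one, div_one]
    exact hD3 r
  have hrr : (((r : ℤ) : ℝ)) = (r : ℝ) := by push_cast; rfl
  rw [hrr] at hm
  unfold Phi
  rw [hDr]
  obtain ⟨α, hα⟩ : ∃ α : ℝ, α = (r : ℝ) / ((1 : ℕ) : ℝ) + β := ⟨_, rfl⟩
  rw [← hα] at hm ⊢
  have hF := maj1_Qs_le X (5 * V) e α
  have hF0 : 0 ≤ ‖Qs X (5 * V) e α‖ := norm_nonneg _
  have hF2 : ‖Qs X (5 * V) e α‖ ^ 2 ≤ (X.card : ℝ) ^ 2 := pow_le_pow_left₀ hF0 hF 2
  obtain ⟨G, hG⟩ : ∃ G : ℝ, G = (‖Qs (Ico (K ^ 24) (3 * K ^ 24)) V c α‖ *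
    ‖Qs (Ico (2 * K ^ 24) (20 * K ^ 24)) V d α‖) ^ 2 := ⟨_, rfl⟩
  rw [← hG] at hm
  have hG0 : 0 ≤ G := by rw [hG]; positivity
  obtain ⟨t, ht⟩ : ∃ t : ℝ, t = ‖1 - Ds H β‖ ^ 2 := ⟨_, rfl⟩
  rw [← ht] at hD1 hD2
  have ht0 : 0 ≤ t := by rw [ht]; positivity
  have hsplit : (‖Qs X (5 * V) e α‖ * ‖Qs (Ico (K ^ 24) (3 * K ^ 24)) V c α‖ *
      ‖Qs (Ico (2 * K ^ 24) (20 * K ^ 24)) V d α‖ * ‖1 - Ds H β‖) ^ 2 =
      ‖Qs X (5 * V) e α‖ ^ 2 * (G * t) := by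
    rw [hG, ht]; ring
  rw [hsplit]
  have hmain : G * t ≤ 4 * Real.pi * 36 ^ 4 * (K : ℝ) ^ 48 * H / V *
        ((1 + (V * (K : ℝ) ^ 48) * |β|) ^ 2)⁻¹ + 4 * 10 ^ 5 * (K : ℝ) ^ 72 := by
    obtain ⟨A, hA⟩ : ∃ A : ℝ, A = V * (K : ℝ) ^ 48 := ⟨_, rfl⟩
    have hA0 : 0 < A := by rw [hA]; positivity
    have hLA : (V : ℝ) * (((K ^ 24 : ℕ) : ℝ)) ^ 2 = A := by
      rw [hA]; push_cast; ring
    rw [hLA] at hm
    rw [← hA]
    obtain ⟨u, hu⟩ : ∃ u : ℝ, u = 1 + A * |β| := ⟨_, rfl⟩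
    have hβ0 : 0 ≤ |β| := abs_nonneg _
    have hu1 : 1 ≤ u := by rw [hu]; nlinarith
    have hu0 : 0 < u := by linarith
    rw [← hu] at hm ⊢
    have hP : 2 * 36 ^ 4 * (((K ^ 24 : ℕ) : ℝ)) ^ 4 / ((((1 : ℕ) : ℝ)) ^ 2 * u ^ 4) =
        2 * 36 ^ 4 * (K : ℝ) ^ 96 * (u ^ 4)⁻¹ := by
      push_cast
      rw [one_pow, one_mul, div_eq_mul_inv]
      ring
    have hS : (10 : ℝ) ^ 5 * (((K ^ 24 : ℕ) : ℝ)) ^ 2 * ((K : ℝ) ^ 12) ^ 2 =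
        10 ^ 5 * (K : ℝ) ^ 72 := by
      push_cast
      ring
    rw [hP, hS] at hm
    have h1 : G * t ≤ (2 * 36 ^ 4 * (K : ℝ) ^ 96 * (u ^ 4)⁻¹) * (2 * Real.pi * H * |β|) +
        10 ^ 5 * (K : ℝ) ^ 72 * 4 := by
      calc G * t ≤ (2 * 36 ^ 4 * (K : ℝ) ^ 96 * (u ^ 4)⁻¹ + 10 ^ 5 * (K : ℝ) ^ 72) * t :=
            mul_le_mul_of_nonneg_right hm ht0
        _ = (2 * 36 ^ 4 * (K : ℝ) ^ 96 * (u ^ 4)⁻¹) * t + 10 ^ 5 * (K : ℝ) ^ 72 * t := by ring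
        _ ≤ _ := by
            apply add_le_add
            · exact mul_le_mul_of_nonneg_left hD2 (by positivity)
            · exact mul_le_mul_of_nonneg_left hD1 (by positivity)
    have h2 : |β| * (u ^ 4)⁻¹ ≤ A⁻¹ * (u ^ 2)⁻¹ := by
      have h3 : |β| ≤ A⁻¹ * u ^ 2 := by
        rw [← div_eq_inv_mul, le_div_iff₀ hA0]
        nlinarith
      calc |β| * (u ^ 4)⁻¹ ≤ (A⁻¹ * u ^ 2) * (u ^ 4)⁻¹ :=
            mul_le_mul_of_nonneg_right h3 (by positivity)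
        _ = A⁻¹ * (u ^ 2)⁻¹ := by field_simp
    have h4 : (2 * 36 ^ 4 * (K : ℝ) ^ 96 * (u ^ 4)⁻¹) * (2 * Real.pi * H * |β|) ≤
        4 * Real.pi * 36 ^ 4 * (K : ℝ) ^ 48 * H / V * (u ^ 2)⁻¹ := by
      calc (2 * 36 ^ 4 * (K : ℝ) ^ 96 * (u ^ 4)⁻¹) * (2 * Real.pi * H * |β|)
          = (4 * Real.pi * 36 ^ 4 * (K : ℝ) ^ 96 * H) * (|β| * (u ^ 4)⁻¹) := by ring
        _ ≤ (4 * Real.pi * 36 ^ 4 * (K : ℝ) ^ 96 * H) * (A⁻¹ * (u ^ 2)⁻¹) :=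
            mul_le_mul_of_nonneg_left h2 (by positivity)
        _ = _ := by
            rw [hA]
            field_simp
    linarith
  calc ‖Qs X (5 * V) e α‖ ^ 2 * (G * t) ≤ (X.card : ℝ) ^ 2 * (G * t) :=
        mul_le_mul_of_nonneg_right hF2 (by positivity)
    _ ≤ _ := mul_le_mul_of_nonneg_left hmain (by positivity)

theorem p_maj1 (h_major : S_major) (h_int : S_int) (h_D : S_D) : S_maj1 := by
  intro V c d e hV h2V hc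
  refine ⟨8 * (400 * V + 20 * (c + d)) + 100, fun K hK X H w hH hw hHw => ?_⟩
  have hK' : 8 * (400 * (V : ℝ) + 20 * (c + d)) + 100 ≤ K := by exact_mod_cast hK
  have hV1 : (1 : ℝ) ≤ V := by exact_mod_cast hV
  have hV0 : (0 : ℝ) < V := by linarith
  have hc0 : (0 : ℝ) ≤ c := Nat.cast_nonneg _
  have hd0 : (0 : ℝ) ≤ d := Nat.cast_nonneg _
  have hk100 : (100 : ℝ) ≤ K := by linarith
  have hk1 : (1 : ℝ) ≤ K := by linarith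
  have hk0 : (0 : ℝ) < K := by linarith
  have hw1 : (1 : ℝ) ≤ w := by exact_mod_cast hw
  have hw0 : (0 : ℝ) < w := by linarith
  have hpi0 : 0 < Real.pi := Real.pi_pos
  have hpi4 : Real.pi ≤ 4 := Real.pi_le_four
  obtain ⟨δ, hδ⟩ : ∃ δ : ℝ, δ = 1 / (K : ℝ) ^ 42 := ⟨_, rfl⟩
  have hδ0 : 0 < δ := by rw [hδ]; positivity
  obtain ⟨A, hA⟩ : ∃ A : ℝ, A = V * (K : ℝ) ^ 48 := ⟨_, rfl⟩
  have hA0 : 0 < A := by rw [hA]; positivity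
  obtain ⟨C, hC⟩ : ∃ C : ℝ, C = 4 * Real.pi * 36 ^ 4 * (K : ℝ) ^ 48 * H / V := ⟨_, rfl⟩
  have hC0 : 0 ≤ C := by rw [hC]; positivity
  have harc : ∀ r : ℕ, (∫ β in (-(1 / (K : ℝ) ^ 42))..(1 / (K : ℝ) ^ 42),
      Phi V c d e (K ^ 24) H X ((r : ℝ) / ((1 : ℕ) : ℝ) + β)) ≤
      (X.card : ℝ) ^ 2 * (C * (2 / A) + 8 * 10 ^ 5 * (K : ℝ) ^ 72 * δ) := by
    intro r
    rw [← hδ]
    have hcont1 : Continuous fun β : ℝ =>
        Phi V c d e (K ^ 24) H X ((r : ℝ) / ((1 : ℕ) : ℝ) + β) :=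
      (maj1_cont V c d e (K ^ 24) H X).comp (continuous_const.add continuous_id)
    have hcont3 : Continuous fun β : ℝ => ((1 + A * |β|) ^ 2)⁻¹ := by
      apply Continuous.inv₀
      · fun_prop
      · intro β
        have : 0 < 1 + A * |β| := by positivity
        positivity
    have hcont2 : Continuous fun β : ℝ => (X.card : ℝ) ^ 2 * (C * ((1 + A * |β|) ^ 2)⁻¹ +
        4 * 10 ^ 5 * (K : ℝ) ^ 72) :=
      continuous_const.mul ((continuous_const.mul hcont3).add continuous_const)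
    have h1 : (∫ β in (-δ)..δ, Phi V c d e (K ^ 24) H X ((r : ℝ) / ((1 : ℕ) : ℝ) + β)) ≤
        ∫ β in (-δ)..δ, (X.card : ℝ) ^ 2 * (C * ((1 + A * |β|) ^ 2)⁻¹ +
          4 * 10 ^ 5 * (K : ℝ) ^ 72) := by
      apply intervalIntegral.integral_mono_on (by linarith) (hcont1.intervalIntegrable _ _)
        (hcont2.intervalIntegrable _ _)
      intro β hβ
      rw [hC, hA]
      apply maj1_point h_major h_D V c d e hV h2V hc K hK X H hH r β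
      rw [← hδ]
      exact abs_le.2 ⟨hβ.1, hβ.2⟩
    refine h1.trans ?_
    have hcont4 : Continuous fun β : ℝ => C * ((1 + A * |β|) ^ 2)⁻¹ :=
      continuous_const.mul hcont3
    have hcont5 : Continuous fun _ : ℝ => 4 * 10 ^ 5 * (K : ℝ) ^ 72 := continuous_const
    rw [intervalIntegral.integral_const_mul, intervalIntegral.integral_add
      (hcont4.intervalIntegrable _ _)
      (hcont5.intervalIntegrable _ _), intervalIntegral.integral_const_mul,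
      intervalIntegral.integral_const]
    apply mul_le_mul_of_nonneg_left _ (by positivity)
    have h2 := mul_le_mul_of_nonneg_left (h_int A δ hA0 hδ0.le) hC0
    rw [smul_eq_mul]
    have h3 : (δ - -δ) * (4 * 10 ^ 5 * (K : ℝ) ^ 72) = 8 * 10 ^ 5 * (K : ℝ) ^ 72 * δ := by ring
    rw [h3]
    linarith
  have hMq : Mq V c d e K H X 1 ≤
      2 * ((X.card : ℝ) ^ 2 * (C * (2 / A) + 8 * 10 ^ 5 * (K : ℝ) ^ 72 * δ)) := by
    unfold Mq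
    have hfil : (range (1 + 1)).filter (fun r => r.Coprime 1) = {0, 1} := by decide
    rw [hfil, Finset.sum_pair (by norm_num)]
    have h0 := harc 0
    have h1 := harc 1
    linarith
  refine hMq.trans ?_
  have hHw' : (H : ℝ) * w ≤ V * (K : ℝ) ^ 48 := by exact_mod_cast hHw
  have h5 : 2 * (C * (2 / A)) ≤ 10 ^ 9 * (K : ℝ) ^ 48 / (V * w) := by
    have h6 : 2 * (C * (2 / A)) = 16 * Real.pi * 36 ^ 4 * H / (V * V) := by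
      rw [hC, hA]
      field_simp
      ring
    rw [h6, div_le_div_iff₀ (by positivity) (by positivity)]
    have h7 : 16 * Real.pi * 36 ^ 4 ≤ 10 ^ 9 := by nlinarith
    calc 16 * Real.pi * 36 ^ 4 * H * (V * w) = (16 * Real.pi * 36 ^ 4) * (V * (H * w)) := by ring
      _ ≤ 10 ^ 9 * (V * (V * (K : ℝ) ^ 48)) := by
          apply mul_le_mul h7 _ (by positivity) (by positivity)
          exact mul_le_mul_of_nonneg_left hHw' hV0.le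
      _ = _ := by ring
  have h8 : 2 * (8 * 10 ^ 5 * (K : ℝ) ^ 72 * δ) ≤ (K : ℝ) ^ 36 := by
    have h9 : 2 * (8 * 10 ^ 5 * (K : ℝ) ^ 72 * δ) = 16 * 10 ^ 5 * (K : ℝ) ^ 30 := by
      rw [hδ]
      field_simp
      norm_num
    rw [h9]
    have h10 : (16 * 10 ^ 5 : ℝ) ≤ (K : ℝ) ^ 6 := by
      calc (16 * 10 ^ 5 : ℝ) ≤ 100 ^ 6 := by norm_num
        _ ≤ _ := pow_le_pow_left₀ (by norm_num) hk100 6
    calc 16 * 10 ^ 5 * (K : ℝ) ^ 30 ≤ (K : ℝ) ^ 6 * (K : ℝ) ^ 30 :=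
          mul_le_mul_of_nonneg_right h10 (by positivity)
      _ = (K : ℝ) ^ 36 := by ring
  have h11 : 2 * ((X.card : ℝ) ^ 2 * (C * (2 / A) + 8 * 10 ^ 5 * (K : ℝ) ^ 72 * δ)) =
      (X.card : ℝ) ^ 2 * (2 * (C * (2 / A)) + 2 * (8 * 10 ^ 5 * (K : ℝ) ^ 72 * δ)) := by ring
  rw [h11]
  exact mul_le_mul_of_nonneg_left (add_le_add h5 h8) (by positivity)

end Pool.Agent.GM
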