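/-
MP_1e1427_nt, [GM 20] `majq` (helper28).
-/
import Pool.Agent.Lib.MP_1e1427_nt.GM.Stm

set_option autoImplicit false

open Finset MeasureTheory
open Pool.Agent.APP (ee nn)

namespace Pool.Agent.GM

private lemma majq_ee_cont : Continuous ee := by
  unfold ee
  fun_prop

private lemma majq_Qs_cont (X : Finset ℕ) (V c : ℕ) (s : ℝ) :
    Continuous (fun β : ℝ => Qs X V c (s + β)) := by
  unfold Qs
  exact continuous_finsetSum _ fun y _ => majq_ee_cont.comp (by fun_prop)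

private lemma majq_Ds_cont (H : ℕ) (s : ℝ) : Continuous (fun β : ℝ => Ds H (s + β)) := by
  unfold Ds
  exact continuous_const.mul (continuous_finsetSum _ fun y _ => majq_ee_cont.comp (by fun_prop))

private lemma majq_Phi_cont (V c d e L H : ℕ) (X : Finset ℕ) (s : ℝ) :
    Continuous (fun β : ℝ => Phi V c d e L H X (s + β)) := by
  unfold Phi
  have h1 := (majq_Qs_cont X (5 * V) e s).norm
  have h2 := (majq_Qs_cont (Ico L (3 * L)) V c s).norm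
  have h3 := (majq_Qs_cont (Ico (2 * L) (20 * L)) V d s).norm
  have h4 := (continuous_const.sub (majq_Ds_cont H s) : Continuous fun β : ℝ => 1 - Ds H (s + β)).norm
  exact (((h1.mul h2).mul h3).mul h4).pow 2

private lemma majq_norm_Qs (X : Finset ℕ) (V c : ℕ) (α : ℝ) : ‖Qs X V c α‖ ≤ X.card := by
  unfold Qs
  refine (norm_sum_le _ _).trans ?_
  simp [Pool.Agent.APP.norm_ee]

private lemma majq_c1 (V c d K : ℕ) (β : ℝ) (hK : 2 * (42 * V + c + d) ≤ K) (hK1 : 1 ≤ K)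
    (hβ : |β| ≤ 1 / (K : ℝ) ^ 42) :
    |β| * (40 * V * ((K ^ 24 : ℕ) : ℝ) + V + c + d) ≤ 1 / 2 := by
  have hKr : (1 : ℝ) ≤ K := by exact_mod_cast hK1
  have hK0 : (0 : ℝ) < K := by linarith
  have hKc : 2 * (42 * (V : ℝ) + c + d) ≤ K := by exact_mod_cast hK
  have hV : (0 : ℝ) ≤ V := Nat.cast_nonneg _
  have hc : (0 : ℝ) ≤ c := Nat.cast_nonneg _
  have hd : (0 : ℝ) ≤ d := Nat.cast_nonneg _
  have h24 : (1 : ℝ) ≤ (K : ℝ) ^ 24 := one_le_pow₀ hKr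
  have h1 : 40 * (V : ℝ) * ((K ^ 24 : ℕ) : ℝ) + V + c + d ≤ (K : ℝ) ^ 25 / 2 := by
    push_cast
    calc 40 * (V : ℝ) * (K : ℝ) ^ 24 + V + c + d
        ≤ 40 * (V : ℝ) * (K : ℝ) ^ 24 + V * (K : ℝ) ^ 24 + c * (K : ℝ) ^ 24 + d * (K : ℝ) ^ 24 := by
          have a1 := mul_le_mul_of_nonneg_left h24 hV
          have a2 := mul_le_mul_of_nonneg_left h24 hc
          have a3 := mul_le_mul_of_nonneg_left h24 hd
          linarith
      _ ≤ (42 * (V : ℝ) + c + d) * (K : ℝ) ^ 24 := by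
          have : 0 ≤ (V : ℝ) * (K : ℝ) ^ 24 := by positivity
          linarith
      _ ≤ (K / 2) * (K : ℝ) ^ 24 := by
          refine mul_le_mul_of_nonneg_right (by linarith) (by positivity)
      _ = (K : ℝ) ^ 25 / 2 := by ring
  have h0 : 0 ≤ 40 * (V : ℝ) * ((K ^ 24 : ℕ) : ℝ) + V + c + d := by positivity
  calc |β| * (40 * V * ((K ^ 24 : ℕ) : ℝ) + V + c + d)
      ≤ 1 / (K : ℝ) ^ 42 * ((K : ℝ) ^ 25 / 2) := by gcongr
    _ = 1 / 2 * (1 / (K : ℝ) ^ 17) := by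
        field_simp
    _ ≤ 1 / 2 * 1 := by
        refine mul_le_mul_of_nonneg_left ?_ (by norm_num)
        rw [div_le_one (by positivity)]
        exact one_le_pow₀ hKr
    _ = 1 / 2 := by norm_num

private lemma majq_c2 (V c d K q : ℕ) (β : ℝ) (hK : 2 + 7 * (400 * V + 20 * (c + d)) ≤ K)
    (hq : q ≤ K ^ 5) (hβ : |β| ≤ 1 / (K : ℝ) ^ 42) :
    (q : ℝ) * (2 + 2 * Real.pi * |β| * (400 * V * ((K ^ 24 : ℕ) : ℝ) ^ 2 +
      20 * (c + d) * ((K ^ 24 : ℕ) : ℝ))) ≤ (K : ℝ) ^ 12 := by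
  have hK1 : 1 ≤ K := by omega
  have hKr : (1 : ℝ) ≤ K := by exact_mod_cast hK1
  have hK0 : (0 : ℝ) < K := by linarith
  have hKc : 2 + 7 * (400 * (V : ℝ) + 20 * (c + d)) ≤ K := by exact_mod_cast hK
  have hV : (0 : ℝ) ≤ V := Nat.cast_nonneg _
  have hc : (0 : ℝ) ≤ c := Nat.cast_nonneg _
  have hd : (0 : ℝ) ≤ d := Nat.cast_nonneg _
  have hqr : (q : ℝ) ≤ (K : ℝ) ^ 5 := by exact_mod_cast hq
  have h24 : (1 : ℝ) ≤ (K : ℝ) ^ 24 := one_le_pow₀ hKr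
  have h6 : (1 : ℝ) ≤ (K : ℝ) ^ 6 := one_le_pow₀ hKr
  have hpi : 2 * Real.pi ≤ 7 := by
    have := Real.pi_lt_d2
    linarith
  have h1 : 400 * (V : ℝ) * ((K ^ 24 : ℕ) : ℝ) ^ 2 + 20 * (c + d) * ((K ^ 24 : ℕ) : ℝ) ≤
      (400 * (V : ℝ) + 20 * (c + d)) * (K : ℝ) ^ 48 := by
    push_cast
    have a1 : (K : ℝ) ^ 24 ≤ (K : ℝ) ^ 48 := pow_le_pow_right₀ hKr (by norm_num)
    have a2 : 20 * ((c : ℝ) + d) * (K : ℝ) ^ 24 ≤ 20 * (c + d) * (K : ℝ) ^ 48 :=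
      mul_le_mul_of_nonneg_left a1 (by positivity)
    have a3 : 400 * (V : ℝ) * ((K : ℝ) ^ 24) ^ 2 = 400 * (V : ℝ) * (K : ℝ) ^ 48 := by ring
    rw [a3]
    linarith
  have h2 : |β| * (400 * (V : ℝ) * ((K ^ 24 : ℕ) : ℝ) ^ 2 + 20 * (c + d) * ((K ^ 24 : ℕ) : ℝ)) ≤
      (400 * (V : ℝ) + 20 * (c + d)) * (K : ℝ) ^ 6 := by
    calc |β| * (400 * (V : ℝ) * ((K ^ 24 : ℕ) : ℝ) ^ 2 + 20 * (c + d) * ((K ^ 24 : ℕ) : ℝ))
        ≤ 1 / (K : ℝ) ^ 42 * ((400 * (V : ℝ) + 20 * (c + d)) * (K : ℝ) ^ 48) := by gcongr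
      _ = (400 * (V : ℝ) + 20 * (c + d)) * (K : ℝ) ^ 6 := by
          field_simp
  set W : ℝ := 400 * (V : ℝ) * ((K ^ 24 : ℕ) : ℝ) ^ 2 + 20 * (c + d) * ((K ^ 24 : ℕ) : ℝ) with hW
  have hW0 : 0 ≤ W := by rw [hW]; positivity
  have h3 : 2 + 2 * Real.pi * |β| * W ≤ (K : ℝ) ^ 7 := by
    calc 2 + 2 * Real.pi * |β| * W = 2 + 2 * Real.pi * (|β| * W) := by ring
      _ ≤ 2 + 7 * ((400 * (V : ℝ) + 20 * (c + d)) * (K : ℝ) ^ 6) := by
          have : 0 ≤ |β| * W := by positivity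
          have b1 : 2 * Real.pi * (|β| * W) ≤ 7 * (|β| * W) := mul_le_mul_of_nonneg_right hpi this
          linarith
      _ ≤ (2 + 7 * (400 * (V : ℝ) + 20 * (c + d))) * (K : ℝ) ^ 6 := by
          linarith
      _ ≤ K * (K : ℝ) ^ 6 := mul_le_mul_of_nonneg_right hKc (by positivity)
      _ = (K : ℝ) ^ 7 := by ring
  have h4 : 0 ≤ 2 + 2 * Real.pi * |β| * W := by positivity
  calc (q : ℝ) * (2 + 2 * Real.pi * |β| * W) ≤ (K : ℝ) ^ 5 * (K : ℝ) ^ 7 :=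
        mul_le_mul hqr h3 h4 (by positivity)
    _ = (K : ℝ) ^ 12 := by ring

private lemma majq_pt (h_major : S_major) (h_D : S_D) (h_f2 : S_f2) (V c d e K H q : ℕ)
    (X : Finset ℕ) (β : ℝ) (hV : 1 ≤ V) (h2 : 2 ∣ V) (hc : c.Coprime (2 * V)) (hH : 1 ≤ H)
    (hq1 : 1 ≤ q) (hq : q ≤ K ^ 5) (hqc : q.Coprime (2 * V))
    (hK1 : 2 * (42 * V + c + d) ≤ K) (hK2 : 2 + 7 * (400 * V + 20 * (c + d)) ≤ K)
    (hβ : |β| ≤ 1 / (K : ℝ) ^ 42) :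
    ∑ r ∈ (range (q + 1)).filter (fun r => r.Coprime q),
      Phi V c d e (K ^ 24) H X ((r : ℝ) / (q : ℝ) + β) ≤
    (2 * q * (prs X (5 * V) e q : ℝ)) * (8 * 36 ^ 4 * (K : ℝ) ^ 96 / (q : ℝ) ^ 2) *
        ((1 + (V * (K : ℝ) ^ 48) * |β|) ^ 2)⁻¹ +
      ((q : ℝ) + 1) * (X.card : ℝ) ^ 2 * (4 * 10 ^ 5 * (K : ℝ) ^ 72) := by
  have hKN : 1 ≤ K := by omega
  have hKr : (1 : ℝ) ≤ K := by exact_mod_cast hKN
  have hK0 : (0 : ℝ) < K := by linarith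
  have hq0 : (0 : ℝ) < q := by exact_mod_cast hq1
  have hV0 : (0 : ℝ) < V := by exact_mod_cast hV
  set u : ℝ := 1 + (V * (K : ℝ) ^ 48) * |β| with hu
  have hu1 : 1 ≤ u := by
    have : 0 ≤ (V * (K : ℝ) ^ 48) * |β| := by positivity
    linarith
  have hu0 : 0 < u := by linarith
  set A : ℝ := 8 * 36 ^ 4 * (K : ℝ) ^ 96 / (q : ℝ) ^ 2 * (u ^ 2)⁻¹ with hA
  have hA0 : 0 ≤ A := by rw [hA]; positivity
  have key : ∀ r ∈ (range (q + 1)).filter (fun r => r.Coprime q),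
      Phi V c d e (K ^ 24) H X ((r : ℝ) / (q : ℝ) + β) ≤
      ‖Qs X (5 * V) e ((r : ℝ) / (q : ℝ) + β)‖ ^ 2 * A +
        (X.card : ℝ) ^ 2 * (4 * 10 ^ 5 * (K : ℝ) ^ 72) := by
    intro r hr
    have hrc : r.Coprime q := (mem_filter.1 hr).2
    have hgcd : Int.gcd (r : ℤ) q = 1 := by
      rw [Int.gcd_natCast_natCast]
      exact hrc
    have hm := (h_major V c d (K ^ 24) q (r : ℤ) β ((K : ℝ) ^ 12) hV (Nat.one_le_pow _ _ hKN) hq1 hgcd h2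
      hc (majq_c1 V c d K β hK1 hKN hβ) (majq_c2 V c d K q β hK2 hq hβ)
      (by push_cast; exact pow_le_pow_right₀ hKr (by norm_num))).1 hqc
    have hD := (h_D H ((r : ℝ) / (q : ℝ) + β) hH).1
    have hF := majq_norm_Qs X (5 * V) e ((r : ℝ) / (q : ℝ) + β)
    rw [Int.cast_natCast] at hm
    set G : ℝ := (‖Qs (Ico (K ^ 24) (3 * K ^ 24)) V c ((r : ℝ) / q + β)‖ *
      ‖Qs (Ico (2 * K ^ 24) (20 * K ^ 24)) V d ((r : ℝ) / q + β)‖) ^ 2 with hG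
    set f : ℝ := ‖Qs X (5 * V) e ((r : ℝ) / (q : ℝ) + β)‖ with hf
    set D : ℝ := ‖1 - Ds H ((r : ℝ) / (q : ℝ) + β)‖ with hDd
    have hf0 : 0 ≤ f := norm_nonneg _
    have hPhi : Phi V c d e (K ^ 24) H X ((r : ℝ) / (q : ℝ) + β) = f ^ 2 * (G * D ^ 2) := by
      unfold Phi
      rw [hf, hG, hDd]
      ring
    have hG0 : 0 ≤ G := by rw [hG]; positivity
    have hGb : G ≤ 2 * 36 ^ 4 * (K : ℝ) ^ 96 / ((q : ℝ) ^ 2 * u ^ 4) + 10 ^ 5 * (K : ℝ) ^ 72 := by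
      refine hm.trans (le_of_eq ?_)
      rw [hu]
      push_cast
      ring
    have hu4 : 2 * 36 ^ 4 * (K : ℝ) ^ 96 / ((q : ℝ) ^ 2 * u ^ 4) * 4 ≤ A := by
      rw [hA]
      have e1 : 2 * 36 ^ 4 * (K : ℝ) ^ 96 / ((q : ℝ) ^ 2 * u ^ 4) * 4 =
          8 * 36 ^ 4 * (K : ℝ) ^ 96 / (q : ℝ) ^ 2 * (u ^ 4)⁻¹ := by
        field_simp
        ring
      rw [e1]
      refine mul_le_mul_of_nonneg_left ?_ (by positivity)
      exact inv_anti₀ (by positivity) (pow_le_pow_right₀ hu1 (by norm_num))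
    have hGD : G * D ^ 2 ≤ A + 4 * 10 ^ 5 * (K : ℝ) ^ 72 := by
      calc G * D ^ 2 ≤ (2 * 36 ^ 4 * (K : ℝ) ^ 96 / ((q : ℝ) ^ 2 * u ^ 4) + 10 ^ 5 * (K : ℝ) ^ 72) * 4 :=
            mul_le_mul hGb hD (by positivity) (by positivity)
        _ ≤ A + 4 * 10 ^ 5 * (K : ℝ) ^ 72 := by linarith
    rw [hPhi]
    calc f ^ 2 * (G * D ^ 2) ≤ f ^ 2 * (A + 4 * 10 ^ 5 * (K : ℝ) ^ 72) :=
          mul_le_mul_of_nonneg_left hGD (by positivity)
      _ = f ^ 2 * A + f ^ 2 * (4 * 10 ^ 5 * (K : ℝ) ^ 72) := by ring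
      _ ≤ f ^ 2 * A + (X.card : ℝ) ^ 2 * (4 * 10 ^ 5 * (K : ℝ) ^ 72) := by
          have : f ^ 2 ≤ (X.card : ℝ) ^ 2 := pow_le_pow_left₀ hf0 hF 2
          have h5 := mul_le_mul_of_nonneg_right this
            (show (0 : ℝ) ≤ 4 * 10 ^ 5 * (K : ℝ) ^ 72 by positivity)
          linarith
  refine (sum_le_sum key).trans ?_
  rw [sum_add_distrib, ← sum_mul, sum_const, nsmul_eq_mul]
  have hs1 : ∑ r ∈ (range (q + 1)).filter (fun r => r.Coprime q),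
      ‖Qs X (5 * V) e ((r : ℝ) / (q : ℝ) + β)‖ ^ 2 ≤ 2 * q * (prs X (5 * V) e q : ℝ) := by
    refine (sum_le_sum_of_subset_of_nonneg (filter_subset _ _) fun i _ _ => by positivity).trans ?_
    exact h_f2 X (5 * V) e q β hq1
  have hs2 : ((((range (q + 1)).filter (fun r => r.Coprime q)).card : ℕ) : ℝ) ≤ (q : ℝ) + 1 := by
    have : ((range (q + 1)).filter (fun r => r.Coprime q)).card ≤ q + 1 := by
      refine (card_filter_le _ _).trans ?_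
      rw [card_range]
    exact_mod_cast this
  have h7 := mul_le_mul_of_nonneg_right hs1 hA0
  have h8 := mul_le_mul_of_nonneg_right hs2
    (show (0 : ℝ) ≤ (X.card : ℝ) ^ 2 * (4 * 10 ^ 5 * (K : ℝ) ^ 72) by positivity)
  have e2 : (2 * q * (prs X (5 * V) e q : ℝ)) * (8 * 36 ^ 4 * (K : ℝ) ^ 96 / (q : ℝ) ^ 2) *
      (u ^ 2)⁻¹ = 2 * q * (prs X (5 * V) e q : ℝ) * A := by
    rw [hA]
    ring
  rw [e2]
  linarith

theorem p_majq (h_major : S_major) (h_int : S_int) (h_D : S_D) (h_f2 : S_f2) : S_majq := by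
  intro V c d e hV h2 hc
  refine ⟨10 ^ 7 * (V + c + d + 1), fun K hK X H q hH hq1 hq hqc => ?_⟩
  have hK1 : 2 * (42 * V + c + d) ≤ K := by omega
  have hK2 : 2 + 7 * (400 * V + 20 * (c + d)) ≤ K := by omega
  have hK3 : 1600000 ≤ K := by omega
  have hKN : 1 ≤ K := by omega
  have hKr : (1 : ℝ) ≤ K := by exact_mod_cast hKN
  have hK3r : (1600000 : ℝ) ≤ K := by exact_mod_cast hK3
  have hK0 : (0 : ℝ) < K := by linarith
  have hq0 : (0 : ℝ) < q := by exact_mod_cast hq1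
  have hq1r : (1 : ℝ) ≤ q := by exact_mod_cast hq1
  have hqr : (q : ℝ) ≤ (K : ℝ) ^ 5 := by exact_mod_cast hq
  have hV0 : (0 : ℝ) < V := by exact_mod_cast hV
  set δ : ℝ := 1 / (K : ℝ) ^ 42 with hδ
  have hδ0 : 0 < δ := by rw [hδ]; positivity
  set a : ℝ := V * (K : ℝ) ^ 48 with ha
  have ha0 : 0 < a := by rw [ha]; positivity
  set P : ℝ := (prs X (5 * V) e q : ℝ) with hP
  have hP0 : 0 ≤ P := Nat.cast_nonneg _
  set C1 : ℝ := (2 * q * P) * (8 * 36 ^ 4 * (K : ℝ) ^ 96 / (q : ℝ) ^ 2) with hC1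
  set C2 : ℝ := ((q : ℝ) + 1) * (X.card : ℝ) ^ 2 * (4 * 10 ^ 5 * (K : ℝ) ^ 72) with hC2
  have hC10 : 0 ≤ C1 := by rw [hC1]; positivity
  have hsum : (∑ r ∈ (range (q + 1)).filter (fun r => r.Coprime q),
      ∫ β in (-δ)..δ, Phi V c d e (K ^ 24) H X ((r : ℝ) / (q : ℝ) + β)) =
      ∫ β in (-δ)..δ, ∑ r ∈ (range (q + 1)).filter (fun r => r.Coprime q),
        Phi V c d e (K ^ 24) H X ((r : ℝ) / (q : ℝ) + β) :=
    (intervalIntegral.integral_finsetSum (fun (r : ℕ) _ =>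
      (majq_Phi_cont V c d e (K ^ 24) H X ((r : ℝ) / (q : ℝ))).intervalIntegrable _ _)).symm
  unfold Mq
  rw [← hδ, hsum]
  have hu : Continuous fun β : ℝ => ((1 + a * |β|) ^ 2)⁻¹ := by
    refine Continuous.inv₀ (by fun_prop) fun β => ?_
    have : 0 ≤ a * |β| := by positivity
    positivity
  have hmono : (∫ β in (-δ)..δ, ∑ r ∈ (range (q + 1)).filter (fun r => r.Coprime q),
      Phi V c d e (K ^ 24) H X ((r : ℝ) / (q : ℝ) + β)) ≤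
      ∫ β in (-δ)..δ, (C1 * ((1 + a * |β|) ^ 2)⁻¹ + C2) := by
    refine intervalIntegral.integral_mono_on (by linarith) ?_ ?_ fun β hβ => ?_
    · have hc1 : Continuous fun β : ℝ => ∑ r ∈ (range (q + 1)).filter (fun r => r.Coprime q),
          Phi V c d e (K ^ 24) H X ((r : ℝ) / (q : ℝ) + β) :=
        continuous_finsetSum _ fun r _ => majq_Phi_cont V c d e (K ^ 24) H X ((r : ℝ) / (q : ℝ))
      exact hc1.intervalIntegrable _ _
    · have hc2 : Continuous fun β : ℝ => C1 * ((1 + a * |β|) ^ 2)⁻¹ + C2 :=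
        (continuous_const.mul hu).add continuous_const
      exact hc2.intervalIntegrable _ _
    · exact majq_pt h_major h_D h_f2 V c d e K H q X β hV h2 hc hH hq1 hq hqc hK1 hK2
        (abs_le.2 ⟨hβ.1, hβ.2⟩)
  refine hmono.trans ?_
  have hi1 : IntervalIntegrable (fun β : ℝ => C1 * ((1 + a * |β|) ^ 2)⁻¹) volume (-δ) δ := by
    have hc3 : Continuous fun β : ℝ => C1 * ((1 + a * |β|) ^ 2)⁻¹ := continuous_const.mul hu
    exact hc3.intervalIntegrable _ _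
  rw [intervalIntegral.integral_add hi1 intervalIntegrable_const,
    intervalIntegral.integral_const_mul, intervalIntegral.integral_const, smul_eq_mul]
  have hI := h_int a δ ha0 hδ0.le
  have h1 : C1 * (∫ β in (-δ)..δ, ((1 + a * |β|) ^ 2)⁻¹) ≤ C1 * (2 / a) :=
    mul_le_mul_of_nonneg_left hI hC10
  have h3 : C1 * (2 / a) ≤ 10 ^ 9 * ((K : ℝ) ^ 48 / V) * (P / q) := by
    have e1 : C1 * (2 / a) = (32 * 36 ^ 4) * ((K : ℝ) ^ 48 / V * (P / q)) := by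
      rw [hC1, ha]
      field_simp
      ring
    rw [e1, mul_assoc ((10 : ℝ) ^ 9)]
    have h9 : (32 : ℝ) * 36 ^ 4 ≤ 10 ^ 9 := by norm_num
    have h10 : 0 ≤ (K : ℝ) ^ 48 / V * (P / q) := by positivity
    exact mul_le_mul_of_nonneg_right h9 h10
  have h4 : (δ - -δ) * C2 ≤ (X.card : ℝ) ^ 2 * (K : ℝ) ^ 36 := by
    have e1 : (δ - -δ) * C2 = (X.card : ℝ) ^ 2 * (8 * 10 ^ 5 * ((q : ℝ) + 1) * (K : ℝ) ^ 30) := by
      rw [hC2, hδ]
      field_simp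
      ring
    rw [e1]
    refine mul_le_mul_of_nonneg_left ?_ (by positivity)
    calc 8 * 10 ^ 5 * ((q : ℝ) + 1) * (K : ℝ) ^ 30 ≤ 8 * 10 ^ 5 * (2 * (K : ℝ) ^ 5) * (K : ℝ) ^ 30 := by
          gcongr
          linarith
      _ = 1600000 * (K : ℝ) ^ 35 := by ring
      _ ≤ K * (K : ℝ) ^ 35 := mul_le_mul_of_nonneg_right hK3r (by positivity)
      _ = (K : ℝ) ^ 36 := by ring
  linarith

end Pool.Agent.GM
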