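/-
MP_1e1427_nt, [GM 07] ms: the sum of `min (M, 1/nn (j α))`.   (helper88)
-/
import Mathlib
import Pool.Agent.Lib.MP_1e1427_nt.GM.Stm

set_option autoImplicit false

open Finset MeasureTheory
open Pool.Agent.APP (ee nn)

namespace Pool.Agent.GM

private lemma ms_mn_le (M t : ℝ) (_hM : 1 ≤ M) : mn M t ≤ M := by
  unfold mn
  split_ifs with h
  · exact le_rfl
  · push Not at h
    have h0 : 0 ≤ nn t := Pool.Agent.APP.nn_nonneg t
    have h1 : 0 < nn t := by
      rcases h0.eq_or_lt with h2 | h2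
      · rw [← h2, zero_mul] at h; linarith
      · exact h2
    rw [div_le_iff₀ h1]
    linarith [mul_comm (nn t) M]

private lemma ms_mn_nonneg (M t : ℝ) (hM : 1 ≤ M) : 0 ≤ mn M t := by
  unfold mn
  split_ifs with h
  · linarith
  · exact div_nonneg zero_le_one (Pool.Agent.APP.nn_nonneg t)

private lemma ms_mn_le_inv (M t c : ℝ) (hM : 1 ≤ M) (hc : 0 < c) (h : c ≤ nn t) : mn M t ≤ 1 / c := by
  unfold mn
  have h1 : 0 < nn t := lt_of_lt_of_le hc h
  split_ifs with h2
  · rw [le_div_iff₀ hc]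
    calc M * c ≤ M * nn t := by apply mul_le_mul_of_nonneg_left h; linarith
      _ = nn t * M := mul_comm _ _
      _ ≤ 1 := h2
  · exact one_div_le_one_div_of_le hc h

private lemma ms_nn_div (t q : ℕ) (hq : 1 ≤ q) (ht : t < q) (m : ℕ) (h1 : m ≤ t) (h2 : m ≤ q - t) :
    (m : ℝ) / q ≤ nn ((t : ℝ) / q) := by
  have hq0 : (0 : ℝ) < q := by exact_mod_cast hq
  have hm1 : (m : ℝ) ≤ t := by exact_mod_cast h1
  have hm2 : (m : ℝ) ≤ q - t := by
    have : m + t ≤ q := by omega
    have : ((m + t : ℕ) : ℝ) ≤ q := by exact_mod_cast this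
    push_cast at this
    linarith
  have ht0 : (0 : ℝ) ≤ (t : ℝ) / q := by positivity
  unfold nn
  set k := round ((t : ℝ) / q) with hk
  rcases le_or_gt k 0 with h | h
  · have hk0 : (k : ℝ) ≤ 0 := by exact_mod_cast h
    calc (m : ℝ) / q ≤ t / q := by gcongr
      _ ≤ t / q - k := by linarith
      _ ≤ |(t : ℝ) / q - k| := le_abs_self _
  · have hk0 : (1 : ℝ) ≤ k := by exact_mod_cast h
    calc (m : ℝ) / q ≤ (q - t) / q := by gcongr
      _ = 1 - t / q := by field_simp
      _ ≤ -((t : ℝ) / q - k) := by linarith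
      _ ≤ |(t : ℝ) / q - k| := neg_le_abs _

/-- the majorant -/
private noncomputable def ms_h (M : ℝ) (q t : ℕ) : ℝ := if t ≤ 2 then M else (q : ℝ) / ((t : ℝ) - 2)

private lemma ms_h_nonneg (M : ℝ) (hM : 1 ≤ M) (q t : ℕ) : 0 ≤ ms_h M q t := by
  unfold ms_h
  split_ifs with h
  · linarith
  · push Not at h
    have : (2 : ℝ) < t := by exact_mod_cast h
    exact div_nonneg (Nat.cast_nonneg _) (by linarith)

private lemma ms_h_sum (M : ℝ) (hM : 1 ≤ M) (q : ℕ) :
    ∑ t ∈ range (q + 1), ms_h M q t ≤ 3 * M + q * (1 + Real.log q) := by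
  calc ∑ t ∈ range (q + 1), ms_h M q t ≤ ∑ t ∈ range (3 + q), ms_h M q t := by
        apply Finset.sum_le_sum_of_subset_of_nonneg
        · intro i hi
          rw [mem_range] at *
          omega
        · intro i _ _
          exact ms_h_nonneg M hM q i
    _ = ∑ t ∈ range 3, ms_h M q t + ∑ t ∈ range q, ms_h M q (3 + t) := Finset.sum_range_add _ _ _
    _ = 3 * M + ∑ t ∈ range q, (q : ℝ) * (((t + 1 : ℕ) : ℝ))⁻¹ := by
        congr 1
        · rw [Finset.sum_range_succ, Finset.sum_range_succ, Finset.sum_range_one]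
          unfold ms_h
          norm_num
          ring
        · apply Finset.sum_congr rfl
          intro t _
          unfold ms_h
          rw [if_neg (by omega)]
          rw [div_eq_mul_inv]
          congr 2
          push_cast
          ring
    _ = 3 * M + q * ((harmonic q : ℚ) : ℝ) := by
        rw [← Finset.mul_sum]
        congr 2
        unfold harmonic
        push_cast
        rfl
    _ ≤ 3 * M + q * (1 + Real.log q) := by
        have := harmonic_le_one_add_log q
        gcongr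

private lemma ms_point (q : ℕ) (hq : 1 ≤ q) (M x y : ℝ) (hM : 1 ≤ M) (t : ℕ) (ht : t < q) (k : ℤ)
    (hx : x = (t : ℝ) / q + k + y) (hy : |y| ≤ 2 / q) :
    mn M x ≤ ms_h M q t + ms_h M q (q - t) := by
  have hq0 : (0 : ℝ) < q := by exact_mod_cast hq
  -- pick m
  have key : ∀ m : ℕ, m ≤ t → m ≤ q - t → mn M x ≤ ms_h M q m := by
    intro m h1 h2
    unfold ms_h
    split_ifs with h
    · exact ms_mn_le M x hM
    · push Not at h
      have h3 : (2 : ℝ) < m := by exact_mod_cast h
      have h4 := ms_nn_div t q hq ht m h1 h2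
      have h5 : nn ((t : ℝ) / q) ≤ nn x + 2 / q := by
        have e : (t : ℝ) / q = (x + (-y)) + ((-k : ℤ) : ℝ) := by rw [hx]; push_cast; ring
        rw [e, Pool.Agent.APP.nn_add_int]
        refine (Pool.Agent.APP.nn_add_le _ _).trans ?_
        rw [Pool.Agent.APP.nn_neg]
        have := Pool.Agent.APP.nn_le_abs y
        linarith
      have h6 : ((m : ℝ) - 2) / q ≤ nn x := by
        have : ((m : ℝ) - 2) / q = m / q - 2 / q := by ring
        rw [this]; linarith
      have h7 : 0 < ((m : ℝ) - 2) / q := div_pos (by linarith) hq0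
      refine (ms_mn_le_inv M x _ hM h7 h6).trans_eq ?_
      rw [one_div_div]
  rcases le_total t (q - t) with h | h
  · have := key t le_rfl h
    have h2 := ms_h_nonneg M hM q (q - t)
    linarith
  · have := key (q - t) h le_rfl
    have h2 := ms_h_nonneg M hM q t
    linarith

private lemma ms_block (q : ℕ) (r : ℤ) (α M : ℝ) (hq : 1 ≤ q) (hr : Int.gcd r q = 1)
    (hα : |α - r / q| ≤ 1 / (q : ℝ) ^ 2) (hM : 1 ≤ M) (x0 : ℝ) :
    ∑ i ∈ range q, mn M (x0 + i * α) ≤ 6 * M + 2 * (q * (1 + Real.log q)) := by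
  have hq0 : (0 : ℝ) < q := by exact_mod_cast hq
  have hqZ : (0 : ℤ) < q := by exact_mod_cast hq
  set k0 : ℤ := ⌊(q : ℝ) * x0⌋ with hk0
  set φ : ℕ → ℕ := fun i => ((k0 + i * r) % q).toNat with hφ
  have hφ_lt : ∀ i, φ i < q := by
    intro i
    have h1 := Int.emod_nonneg (k0 + i * r) (ne_of_gt hqZ)
    have h2 := Int.emod_lt_of_pos (k0 + i * r) hqZ
    simp only [hφ]
    omega
  have hφ_eq : ∀ i, ((φ i : ℕ) : ℤ) = (k0 + i * r) % q := by
    intro i
    simp only [hφ]
    exact Int.toNat_of_nonneg (Int.emod_nonneg _ (ne_of_gt hqZ))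
  set G : ℕ → ℝ := fun t => ms_h M q t + ms_h M q (q - t) with hG
  have hG0 : ∀ t, 0 ≤ G t := by
    intro t
    exact add_nonneg (ms_h_nonneg M hM q _) (ms_h_nonneg M hM q _)
  have h1 : ∀ i ∈ range q, mn M (x0 + i * α) ≤ G (φ i) := by
    intro i hi
    rw [mem_range] at hi
    have hi' : (i : ℝ) ≤ q := by exact_mod_cast hi.le
    have e1 : (k0 + i * r : ℤ) = q * ((k0 + i * r) / q) + φ i := by
      rw [hφ_eq]; exact (Int.mul_ediv_add_emod _ _).symm
    have e2 : ((k0 : ℝ) + i * r) = q * (((k0 + i * r) / q : ℤ) : ℝ) + φ i := by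
      exact_mod_cast e1
    set y : ℝ := (Int.fract ((q : ℝ) * x0) + q * (i * (α - r / q))) / q with hy
    apply ms_point q hq M _ y hM (φ i) (hφ_lt i) ((k0 + i * r) / q)
    · have e3 : (q : ℝ) * x0 = k0 + Int.fract ((q : ℝ) * x0) := by
        rw [hk0]; exact (Int.floor_add_fract _).symm
      rw [hy]
      have : (φ i : ℝ) = ((k0 : ℝ) + i * r) - q * (((k0 + i * r) / q : ℤ) : ℝ) := by linarith
      rw [this]
      generalize Int.fract ((q : ℝ) * x0) = F at e3 ⊢
      field_simp
      linear_combination e3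
    · rw [hy, abs_div, abs_of_pos hq0]
      gcongr
      have hf0 := Int.fract_nonneg ((q : ℝ) * x0)
      have hf1 := (Int.fract_lt_one ((q : ℝ) * x0)).le
      have h3 : |(q : ℝ) * (i * (α - r / q))| ≤ 1 := by
        rw [abs_mul, abs_mul, abs_of_pos hq0, abs_of_nonneg (Nat.cast_nonneg i : (0 : ℝ) ≤ i)]
        calc (q : ℝ) * (i * |α - r / q|) ≤ q * (q * (1 / (q : ℝ) ^ 2)) := by gcongr
          _ = 1 := by field_simp
      calc |Int.fract ((q : ℝ) * x0) + q * (i * (α - r / q))|
          ≤ |Int.fract ((q : ℝ) * x0)| + |q * (i * (α - r / q))| := abs_add_le _ _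
        _ ≤ 1 + 1 := by
            rw [abs_of_nonneg hf0]
            exact add_le_add hf1 h3
        _ = 2 := by norm_num
  have hinj : Set.InjOn φ (range q : Finset ℕ) := by
    intro i hi j hj hij
    simp only [coe_range, Set.mem_Iio] at hi hj
    have h2 : (k0 + i * r) % q = (k0 + j * r) % q := by
      rw [← hφ_eq, ← hφ_eq, hij]
    have h3 : (q : ℤ) ∣ (k0 + j * r) - (k0 + i * r) := by
      exact Int.ModEq.dvd (h2 : (k0 + i * r) ≡ (k0 + j * r) [ZMOD q])
    have h4 : (q : ℤ) ∣ ((j : ℤ) - i) * r := by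
      have : (k0 + j * r) - (k0 + i * r) = ((j : ℤ) - i) * r := by ring
      rwa [this] at h3
    have hcop : IsCoprime (q : ℤ) r := by
      rw [Int.isCoprime_iff_gcd_eq_one, Int.gcd_comm]
      exact hr
    have h5 : (q : ℤ) ∣ (j : ℤ) - i := hcop.dvd_of_dvd_mul_right h4
    have h6 : (j : ℤ) - i = 0 := by
      apply Int.eq_zero_of_abs_lt_dvd h5
      rw [abs_lt]
      constructor <;> omega
    omega
  calc ∑ i ∈ range q, mn M (x0 + i * α) ≤ ∑ i ∈ range q, G (φ i) := Finset.sum_le_sum h1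
    _ = ∑ t ∈ (range q).image φ, G t := (Finset.sum_image hinj).symm
    _ ≤ ∑ t ∈ range q, G t := by
        apply Finset.sum_le_sum_of_subset_of_nonneg
        · intro t ht
          rw [mem_image] at ht
          obtain ⟨i, _, rfl⟩ := ht
          exact mem_range.2 (hφ_lt i)
        · intro t _ _
          exact hG0 t
    _ ≤ ∑ t ∈ range (q + 1), G t := by
        apply Finset.sum_le_sum_of_subset_of_nonneg
        · exact range_subset_range.2 (Nat.le_succ q)
        · intro t _ _
          exact hG0 t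
    _ = ∑ t ∈ range (q + 1), ms_h M q t + ∑ t ∈ range (q + 1), ms_h M q (q - t) := by
        rw [← Finset.sum_add_distrib]
    _ = ∑ t ∈ range (q + 1), ms_h M q t + ∑ t ∈ range (q + 1), ms_h M q t := by
        congr 1
        exact Finset.sum_range_reflect (ms_h M q) (q + 1)
    _ ≤ (3 * M + q * (1 + Real.log q)) + (3 * M + q * (1 + Real.log q)) := by
        have := ms_h_sum M hM q
        exact add_le_add this this
    _ = 6 * M + 2 * (q * (1 + Real.log q)) := by ring

private lemma ms_blocks (f : ℕ → ℝ) (q : ℕ) (C : ℝ) (h : ∀ b : ℕ, ∑ i ∈ range q, f (q * b + i) ≤ C) (B : ℕ) :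
    ∑ j ∈ range (q * B), f j ≤ B * C := by
  induction B with
  | zero => simp
  | succ B ih =>
    rw [Nat.mul_succ, Finset.sum_range_add]
    have := h B
    push_cast
    linarith

theorem p_ms : S_ms := by
  intro J q r α M hq hr hα hM
  have hq0 : (0 : ℝ) < q := by exact_mod_cast hq
  rw [Finset.sum_Ico_eq_sum_range, Nat.add_sub_cancel]
  set f : ℕ → ℝ := fun j => mn M (((1 + j : ℕ) : ℝ) * α) with hf
  have hf0 : ∀ j, 0 ≤ f j := fun j => ms_mn_nonneg M _ hM
  set C : ℝ := 6 * M + 2 * (q * (1 + Real.log q)) with hC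
  have hlog : 0 ≤ Real.log q := Real.log_nonneg (by exact_mod_cast hq)
  have h1 : ∑ j ∈ range J, f j ≤ ∑ j ∈ range (q * (J / q + 1)), f j := by
    apply Finset.sum_le_sum_of_subset_of_nonneg
    · exact range_subset_range.2 (Nat.lt_mul_div_succ J hq).le
    · intro j _ _
      exact hf0 j
  have h2 : ∑ j ∈ range (q * (J / q + 1)), f j ≤ ((J / q + 1 : ℕ) : ℝ) * C := by
    apply ms_blocks
    intro b
    have := ms_block q r α M hq hr hα hM (((1 + q * b : ℕ) : ℝ) * α)
    refine le_trans (le_of_eq ?_) this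
    apply Finset.sum_congr rfl
    intro i _
    simp only [hf]
    congr 1
    push_cast
    ring
  have h3 : ((J / q + 1 : ℕ) : ℝ) ≤ (J : ℝ) / q + 1 := by
    push_cast
    have : ((J / q : ℕ) : ℝ) ≤ (J : ℝ) / q := Nat.cast_div_le
    linarith
  have hC0 : 0 ≤ C := by rw [hC]; positivity
  calc ∑ j ∈ range J, f j ≤ ((J / q + 1 : ℕ) : ℝ) * C := h1.trans h2
    _ ≤ ((J : ℝ) / q + 1) * C := by gcongr
    _ ≤ ((J : ℝ) / q + 1) * (8 * (M + q * (1 + Real.log q))) := by
        gcongr
        rw [hC]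
        have : 0 ≤ q * (1 + Real.log q) := by positivity
        nlinarith
    _ = 8 * ((J : ℝ) / q + 1) * (M + q * (1 + Real.log q)) := by ring

end Pool.Agent.GM
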