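import Pool.Agent.Lib.MP_1e1427_nt.GM.Stm
import Pool.Agent.Lib.MP_1e1427_nt.TwoSq

set_option autoImplicit false

open Finset MeasureTheory
open Pool.Agent.APP (ee nn)

namespace Pool.Agent.GM

private lemma one_sq_mod_four (a : ℕ) :
    (a % 2 = 1 → a ^ 2 % 4 = 1) ∧ (a % 2 = 0 → a ^ 2 % 4 = 0) := by
  constructor
  · intro h
    have h4 : a % 4 = 1 ∨ a % 4 = 3 := by omega
    rcases h4 with h4 | h4 <;> simp [Nat.pow_mod, h4]
  · intro h
    have h4 : a % 4 = 0 ∨ a % 4 = 2 := by omega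
    rcases h4 with h4 | h4 <;> simp [Nat.pow_mod, h4]

/-- From `(a,b,u,v)` to four squares. -/
private lemma one_exists_quad {n a b u v : ℕ} (ha : a % 2 = 1) (hb : b % 2 = 0)
    (h : 2 * n = a ^ 2 + b ^ 2 + u ^ 2 + v ^ 2) (hua : u ≤ a) (hub : u ≤ b) (hva : v ≤ a)
    (hvb : v ≤ b) :
    ∃ x y z w : ℕ, x ^ 2 + y ^ 2 + z ^ 2 + w ^ 2 = n ∧ x + y = a ∧ z + w = b := by
  have key : ∀ u v : ℕ, 2 * n = a ^ 2 + b ^ 2 + u ^ 2 + v ^ 2 → u ≤ a → v ≤ b → u % 2 = 1 →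
      v % 2 = 0 → ∃ x y z w : ℕ, x ^ 2 + y ^ 2 + z ^ 2 + w ^ 2 = n ∧ x + y = a ∧ z + w = b := by
    intro u v h hua hvb hu hv
    obtain ⟨y, hy⟩ : ∃ y, a = u + 2 * y := ⟨(a - u) / 2, by omega⟩
    obtain ⟨w, hw⟩ : ∃ w, b = v + 2 * w := ⟨(b - v) / 2, by omega⟩
    refine ⟨u + y, y, v + w, w, ?_, by omega, by omega⟩
    subst hy hw
    have : 2 * ((u + y) ^ 2 + y ^ 2 + (v + w) ^ 2 + w ^ 2) = 2 * n := by rw [h]; ring
    omega
  have h1 := (one_sq_mod_four a).1 ha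
  have h2 := (one_sq_mod_four b).2 hb
  have hu4 := one_sq_mod_four u
  have hv4 := one_sq_mod_four v
  rcases Nat.mod_two_eq_zero_or_one u with hu | hu
  · rcases Nat.mod_two_eq_zero_or_one v with hv | hv
    · have := hu4.2 hu; have := hv4.2 hv; omega
    · exact key v u (by rw [h]; ring) hva hub hv hu
  · rcases Nat.mod_two_eq_zero_or_one v with hv | hv
    · exact key u v h hua hvb hu hv
    · have := hu4.1 hu; have := hv4.1 hv; omega

private lemma one_eq {V b c d m n x y z : ℕ} (hb : 2 ≤ b)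
    (hval : val V c d (5 * b - 2) (x, y, z) = m)
    (hn : 2 * n + 4 * b = 5 * b ^ 2 + 1 + c ^ 2 + d ^ 2 + 4 * V * m) :
    2 * n + 4 * (b + 2 * V * x) =
      5 * (b + 2 * V * x) ^ 2 + 1 + (c + 2 * V * y) ^ 2 + (d + 2 * V * z) ^ 2 := by
  obtain ⟨e, he⟩ : ∃ e, 5 * b = e + 2 := ⟨5 * b - 2, by omega⟩
  have he' : 5 * b - 2 = e := by omega
  unfold val at hval
  simp only [he'] at hval
  have h1 : 4 * V * m + 8 * V * x = 20 * V ^ 2 * x ^ 2 + 4 * V * (5 * b) * x +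
      4 * V ^ 2 * y ^ 2 + 4 * V * c * y + 4 * V ^ 2 * z ^ 2 + 4 * V * d * z := by
    rw [← hval, he]
    ring
  have h2 : 5 * (b + 2 * V * x) ^ 2 + 1 + (c + 2 * V * y) ^ 2 + (d + 2 * V * z) ^ 2 =
      (5 * b ^ 2 + 1 + c ^ 2 + d ^ 2) + (20 * V ^ 2 * x ^ 2 + 4 * V * (5 * b) * x +
      4 * V ^ 2 * y ^ 2 + 4 * V * c * y + 4 * V ^ 2 * z ^ 2 + 4 * V * d * z) := by ring
  have h3 : 4 * (b + 2 * V * x) = 4 * b + 8 * V * x := by ring
  rw [h2, ← h1, h3]
  omega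

private lemma one_a1 (B : ℕ) (h : 1 ≤ B) : 17 * (B + 1) ^ 2 ≤ 9 * (2 * B + 1) ^ 2 := by
  obtain ⟨A, rfl⟩ : ∃ A, B = A + 1 := ⟨B - 1, by omega⟩
  have h1 : 9 * (2 * (A + 1) + 1) ^ 2 = 17 * (A + 1 + 1) ^ 2 + (19 * A ^ 2 + 40 * A + 13) := by
    ring
  omega

private lemma one_a2 (c b : ℕ) (h : 3 * c ≤ 2 * b) : 9 * c ^ 2 ≤ 4 * b ^ 2 := by
  calc 9 * c ^ 2 = (3 * c) ^ 2 := by ring
    _ ≤ (2 * b) ^ 2 := Nat.pow_le_pow_left h 2
    _ = 4 * b ^ 2 := by ring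

private lemma one_a3 (V c y L : ℕ) (k : ℕ) (hc : c < 2 * V) (hy : y < k * L) :
    c + 2 * V * y ≤ 2 * k * (V * L) := by
  calc c + 2 * V * y ≤ 2 * V * (y + 1) := by
        have : 2 * V * (y + 1) = 2 * V * y + 2 * V := by ring
        omega
    _ ≤ 2 * V * (k * L) := Nat.mul_le_mul_left _ (by omega)
    _ = 2 * k * (V * L) := by ring

private lemma one_pt {V b c d m n L x y z : ℕ} (hV1 : 1 ≤ V) (hV : 2 ∣ V) (hb : b % 8 = 2)
    (hc : c < 2 * V) (hd : d < 2 * V) (hx : 30 * L ≤ x) (hy : y < 3 * L) (hz : z < 20 * L)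
    (hval : val V c d (5 * b - 2) (x, y, z) = m)
    (hn : 2 * n + 4 * b = 5 * b ^ 2 + 1 + c ^ 2 + d ^ 2 + 4 * V * m)
    (hp : (2 * b - 1 + 4 * V * x).Prime) :
    2 ^ (2 * b - 1 + 4 * V * x) + 2 ^ (b + 2 * V * x) + 1 ∈ NN n := by
  have hb2 : 2 ≤ b := by omega
  have heq := one_eq hb2 hval hn
  obtain ⟨V', rfl⟩ := hV
  set V := 2 * V' with hVdef
  set b' := b + 2 * V * x with hb'
  have hpb : 2 * b - 1 + 4 * V * x = 2 * b' - 1 := by
    rw [hb']
    have : 2 * (b + 2 * V * x) = 2 * b + 4 * V * x := by ring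
    omega
  have hb'4 : b' % 4 = 2 := by
    have : b' = b + 4 * (V' * x) := by rw [hb', hVdef]; ring
    omega
  have hb'2 : 2 ≤ b' := by omega
  have hVx : 60 * (V * L) ≤ 2 * V * x := by
    calc 60 * (V * L) = 2 * V * (30 * L) := by ring
      _ ≤ 2 * V * x := Nat.mul_le_mul_left _ hx
  have hc' : 3 * (c + 2 * V * y) ≤ 2 * b' := by
    have h1 := one_a3 V c y L 3 hc hy
    omega
  have hd' : 3 * (d + 2 * V * z) ≤ 2 * b' := by
    have h1 := one_a3 V d z L 20 hd hz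
    omega
  set c' := c + 2 * V * y with hc'def
  set d' := d + 2 * V * z with hd'def
  clear_value c' d' b'
  obtain ⟨B, hB⟩ : ∃ B, b' = B + 1 := ⟨b' - 1, by omega⟩
  have hpB : 2 * b' - 1 = 2 * B + 1 := by omega
  have h2n : 2 * n = (2 * b' - 1) ^ 2 + b' ^ 2 + c' ^ 2 + d' ^ 2 := by
    rw [hpB, hB]
    rw [hB] at heq
    have h0 : (2 * B + 1) ^ 2 + (B + 1) ^ 2 + 4 * (B + 1) = 5 * (B + 1) ^ 2 + 1 := by ring
    omega
  obtain ⟨X, Y, Z, W, h1, h2, h3⟩ := one_exists_quad (n := n) (a := 2 * b' - 1) (b := b') (u := c')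
    (v := d') (by omega) (by omega) h2n (by omega) (by omega) (by omega) (by omega)
  refine ⟨2 * b' - 1, X, Y, Z, W, ?_, by omega, ?_, h1, h2, by omega, ?_⟩
  · rw [← hpb]
    exact hp
  · have h4 : 9 * c' ^ 2 ≤ 4 * b' ^ 2 := one_a2 _ _ hc'
    have h5 : 9 * d' ^ 2 ≤ 4 * b' ^ 2 := one_a2 _ _ hd'
    have h6 : 9 * (b' ^ 2 + c' ^ 2 + d' ^ 2) ≤ 17 * b' ^ 2 := by omega
    have h7 : 17 * b' ^ 2 ≤ 9 * (2 * b' - 1) ^ 2 := by
      rw [hpB, hB]
      exact one_a1 B (by omega)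
    have h8 : b' ^ 2 + c' ^ 2 + d' ^ 2 ≤ (2 * b' - 1) ^ 2 := by omega
    omega
  · rw [hpb, h2, h3]

private lemma one_fin (n : ℕ) : (NN n).Finite := by
  have h : (Set.Iic n ×ˢ (Set.Iic n ×ˢ (Set.Iic n ×ˢ Set.Iic n)) :
      Set (ℕ × ℕ × ℕ × ℕ)).Finite :=
    (Set.finite_Iic n).prod ((Set.finite_Iic n).prod ((Set.finite_Iic n).prod (Set.finite_Iic n)))
  refine (h.image (fun q : ℕ × ℕ × ℕ × ℕ =>
    2 ^ (q.1 + q.2.1) + 2 ^ (q.2.2.1 + q.2.2.2) + 1)).subset ?_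
  rintro N ⟨p, x, y, z, w, -, -, -, h1, -, -, rfl⟩
  refine ⟨(x, y, z, w), ?_, rfl⟩
  have e1 := Nat.le_self_pow two_ne_zero x
  have e2 := Nat.le_self_pow two_ne_zero y
  have e3 := Nat.le_self_pow two_ne_zero z
  have e4 := Nat.le_self_pow two_ne_zero w
  simp only [Set.mem_prod, Set.mem_Iic]
  refine ⟨?_, ?_, ?_, ?_⟩ <;> omega

/-- the fibres over `x` -/
private lemma one_fib {V b c d m n L : ℕ} {X : Finset ℕ} (hV1 : 1 ≤ V) (hb : 2 ≤ b)
    (hn : 2 * n + 4 * b = 5 * b ^ 2 + 1 + c ^ 2 + d ^ 2 + 4 * V * m) (x : ℕ) :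
    (((box L X).filter (fun t => val V c d (5 * b - 2) t = m)).filter (fun t => t.1 = x)).card ≤
      (Pool.Agent.Lib.MP1e1427.twoSq
        (2 * n + 4 * (b + 2 * V * x) - (5 * (b + 2 * V * x) ^ 2 + 1))).card := by
  refine Finset.card_le_card_of_injOn (fun t => (c + 2 * V * t.2.1, d + 2 * V * t.2.2)) ?_ ?_
  · intro t ht
    rw [Finset.mem_coe, Finset.mem_filter, Finset.mem_filter] at ht
    obtain ⟨⟨-, h1⟩, rfl⟩ := ht
    rw [Finset.mem_coe, Pool.Agent.Lib.MP1e1427.mem_twoSq]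
    have h2 := one_eq (x := t.1) (y := t.2.1) (z := t.2.2) hb h1 hn
    simp only
    omega
  · intro t ht t' ht' h
    rw [Finset.mem_coe, Finset.mem_filter, Finset.mem_filter] at ht ht'
    obtain ⟨-, h1⟩ := ht
    obtain ⟨-, h2⟩ := ht'
    simp only [Prod.mk.injEq] at h
    have hV2 : 0 < 2 * V := by omega
    have h3 : t.2.1 = t'.2.1 := by
      have h5 : 2 * V * t.2.1 = 2 * V * t'.2.1 := by omega
      exact Nat.eq_of_mul_eq_mul_left hV2 h5
    have h4 : t.2.2 = t'.2.2 := by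
      have h5 : 2 * V * t.2.2 = 2 * V * t'.2.2 := by omega
      exact Nat.eq_of_mul_eq_mul_left hV2 h5
    exact Prod.ext (h1.trans h2.symm) (Prod.ext h3 h4)

private lemma one_inj {V b : ℕ} (hV1 : 1 ≤ V) (_ : 2 ≤ b) : Function.Injective
    (fun x : ℕ => 2 ^ (2 * b - 1 + 4 * V * x) + 2 ^ (b + 2 * V * x) + 1) := by
  have hmono : StrictMono
      (fun x : ℕ => 2 ^ (2 * b - 1 + 4 * V * x) + 2 ^ (b + 2 * V * x) + 1) := by
    intro x y hxy
    have h1 : 2 * b - 1 + 4 * V * x < 2 * b - 1 + 4 * V * y := by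
      have : 4 * V * x < 4 * V * y := Nat.mul_lt_mul_of_pos_left hxy (by omega)
      omega
    have h2 : b + 2 * V * x < b + 2 * V * y := by
      have : 2 * V * x < 2 * V * y := Nat.mul_lt_mul_of_pos_left hxy (by omega)
      omega
    have h3 := Nat.pow_lt_pow_right (a := 2) (by norm_num) h1
    have h4 := Nat.pow_lt_pow_right (a := 2) (by norm_num) h2
    simp only
    omega
  exact hmono.injective

private lemma one_count {V b c d m n L : ℕ} {X : Finset ℕ} (hV1 : 1 ≤ V) (hV : 2 ∣ V)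
    (hb : b % 8 = 2) (hc : c < 2 * V) (hd : d < 2 * V)
    (hX : ∀ x ∈ X, 30 * L ≤ x ∧ (2 * b - 1 + 4 * V * x).Prime)
    (hn : 2 * n + 4 * b = 5 * b ^ 2 + 1 + c ^ 2 + d ^ 2 + 4 * V * m) (B : ℝ) (hB : 0 ≤ B)
    (htw : ∀ M : ℕ, M ≤ 2 * n → ((Pool.Agent.Lib.MP1e1427.twoSq M).card : ℝ) ≤ B) :
    (rr V c d (5 * b - 2) L X m : ℝ) ≤ (NN n).ncard * B := by
  classical
  have hb2 : 2 ≤ b := by omega
  set S := (box L X).filter (fun t => val V c d (5 * b - 2) t = m) with hS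
  have hcard : (S.card : ℝ) ≤ (S.image (fun t => t.1)).card * B := by
    rw [Finset.card_eq_sum_card_image (fun t => t.1) S]
    push_cast
    calc ∑ x ∈ S.image (fun t => t.1), ((S.filter (fun t => t.1 = x)).card : ℝ)
        ≤ ∑ x ∈ S.image (fun t => t.1), B := by
          refine Finset.sum_le_sum fun x _ => ?_
          have h1 : ((S.filter (fun t => t.1 = x)).card : ℝ) ≤
              ((Pool.Agent.Lib.MP1e1427.twoSq
                (2 * n + 4 * (b + 2 * V * x) - (5 * (b + 2 * V * x) ^ 2 + 1))).card : ℝ) := by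
            exact_mod_cast one_fib hV1 hb2 hn x
          refine h1.trans (htw _ ?_)
          have h2 : 4 * (b + 2 * V * x) ≤ 5 * (b + 2 * V * x) ^ 2 + 1 := by
            have h3 : b + 2 * V * x ≤ (b + 2 * V * x) ^ 2 := Nat.le_self_pow two_ne_zero _
            omega
          omega
      _ = (S.image (fun t => t.1)).card * B := by
          rw [Finset.sum_const, nsmul_eq_mul]
  have hinj : ((S.image (fun t => t.1)).card : ℝ) ≤ (NN n).ncard := by
    have h1 : (((S.image (fun t => t.1)).image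
        (fun x : ℕ => 2 ^ (2 * b - 1 + 4 * V * x) + 2 ^ (b + 2 * V * x) + 1) : Finset ℕ) :
          Set ℕ) ⊆ NN n := by
      intro N hN
      rw [Finset.mem_coe, Finset.mem_image] at hN
      obtain ⟨x, hx, rfl⟩ := hN
      rw [Finset.mem_image] at hx
      obtain ⟨t, ht, rfl⟩ := hx
      rw [hS, Finset.mem_filter] at ht
      obtain ⟨htb, hval⟩ := ht
      unfold box at htb
      rw [Finset.mem_product, Finset.mem_product, Finset.mem_Ico, Finset.mem_Ico] at htb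
      obtain ⟨htX, ⟨-, hy⟩, -, hz⟩ := htb
      obtain ⟨hx30, hp⟩ := hX _ htX
      exact one_pt (y := t.2.1) (z := t.2.2) hV1 hV hb hc hd hx30 hy hz hval hn hp
    have h2 := Set.ncard_le_ncard h1 (one_fin n)
    rw [Set.ncard_coe_finset, Finset.card_image_of_injective _ (one_inj hV1 hb2)] at h2
    exact_mod_cast h2
  have : (rr V c d (5 * b - 2) L X m : ℝ) = (S.card : ℝ) := rfl
  rw [this]
  exact hcard.trans (mul_le_mul_of_nonneg_right hinj hB)

private lemma one_log (A r : ℝ) (hA : 0 < A) (hr : 0 < r) :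
    ∃ K0 : ℕ, ∀ K : ℕ, K0 ≤ K → A * Real.log K ≤ (K : ℝ) ^ r := by
  have h1 := (isLittleO_log_rpow_atTop hr).bound (c := 1 / A) (by positivity)
  have h2 := tendsto_natCast_atTop_atTop (R := ℝ) |>.eventually h1
  obtain ⟨K0, hK0⟩ := Filter.eventually_atTop.1 h2
  refine ⟨K0, fun K hK => ?_⟩
  have h3 := hK0 K hK
  rw [Real.norm_eq_abs, Real.norm_eq_abs, abs_of_nonneg (by positivity : 0 ≤ (K : ℝ) ^ r)] at h3
  have h4 := le_abs_self (Real.log K)
  calc A * Real.log K ≤ A * (1 / A * (K : ℝ) ^ r) := by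
        exact mul_le_mul_of_nonneg_left (h4.trans h3) hA.le
    _ = (K : ℝ) ^ r := by field_simp

theorem p_one : S_one := by
  intro V b c d ε hε hV1 hV hb hc hd _ _
  obtain ⟨k, hk⟩ := exists_nat_ge (8 / ε)
  have hkpos : (0 : ℝ) < k := lt_of_lt_of_le (by positivity) hk
  have hk0 : k ≠ 0 := by
    rintro rfl
    simp at hkpos
  obtain ⟨C, hC1, hC⟩ := Pool.Agent.Lib.MP1e1427.exists_card_twoSq_le k hk0
  have hVR : (1 : ℝ) ≤ V := by exact_mod_cast hV1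
  obtain ⟨K1, hK1⟩ := one_log (237600 * (V : ℝ) ^ 2 * C) (24 * ε) (by positivity) (by positivity)
  refine ⟨max K1 3, ?_⟩
  intro K hK X hX hXcard m n hn hn1 hn2 hrr
  have hKK1 : K1 ≤ K := (le_max_left _ _).trans hK
  have hK3 : 3 ≤ K := (le_max_right _ _).trans hK
  have hKR : (3 : ℝ) ≤ K := by exact_mod_cast hK3
  have hlog : 0 < Real.log K := Real.log_pos (by linarith)
  have hVK : K ^ 48 ≤ n := by
    refine le_trans ?_ hn1
    exact Nat.le_mul_of_pos_left _ (by positivity)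
  have hn3 : 3 ≤ n := by
    have : 3 ≤ K ^ 48 := hK3.trans (Nat.le_self_pow (by norm_num) K)
    omega
  have hnR : (3 : ℝ) ≤ n := by exact_mod_cast hn3
  have hn0 : (0 : ℝ) < n := by linarith
  -- the bound for the fibres
  set y : ℝ := (2 * (n : ℝ)) ^ (1 / (k : ℝ)) with hy
  have hy1 : 1 ≤ y := Real.one_le_rpow (by linarith) (by positivity)
  have hyk : y ^ k = 2 * (n : ℝ) := by
    rw [hy, ← Real.rpow_natCast, ← Real.rpow_mul (by positivity)]
    rw [one_div, inv_mul_cancel₀ hkpos.ne', Real.rpow_one]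
  have hy2 : y ^ 2 ≤ (n : ℝ) ^ (ε / 2) := by
    have h1 : y ≤ (n : ℝ) ^ (2 / (k : ℝ)) := by
      have h2 : (2 * (n : ℝ)) ≤ (n : ℝ) ^ (2 : ℝ) := by
        rw [Real.rpow_two]
        nlinarith
      calc y ≤ ((n : ℝ) ^ (2 : ℝ)) ^ (1 / (k : ℝ)) :=
            Real.rpow_le_rpow (by positivity) h2 (by positivity)
        _ = (n : ℝ) ^ (2 / (k : ℝ)) := by
            rw [← Real.rpow_mul hn0.le]
            congr 1
            ring
    calc y ^ 2 ≤ ((n : ℝ) ^ (2 / (k : ℝ))) ^ 2 := pow_le_pow_left₀ (by positivity) h1 2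
      _ = (n : ℝ) ^ (4 / (k : ℝ)) := by
          rw [← Real.rpow_natCast, ← Real.rpow_mul hn0.le]
          congr 1
          push_cast
          ring
      _ ≤ (n : ℝ) ^ (ε / 2) := by
          refine Real.rpow_le_rpow_of_exponent_le (by linarith) ?_
          rw [div_le_iff₀ hε] at hk
          rw [div_le_iff₀ hkpos]
          nlinarith
  have hcount := one_count (L := K ^ 24) (X := X) hV1 hV hb hc hd (by
      intro x hx
      rw [hX, Finset.mem_filter, Finset.mem_Ico] at hx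
      exact ⟨hx.1.1, hx.2⟩) hn (C * (n : ℝ) ^ (ε / 2)) (by positivity) (by
      intro M hM
      refine (hC y hy1 M ?_).trans (mul_le_mul_of_nonneg_left hy2 (by linarith))
      rw [hyk]
      exact_mod_cast hM)
  have hrrR : (X.card : ℝ) ≤ 50 * V * rr V c d (5 * b - 2) (K ^ 24) X m := by exact_mod_cast hrr
  set D : ℝ := 2400 * V * C * Real.log K * (n : ℝ) ^ (ε / 2) with hD
  have hDpos : 0 < D := by positivity
  have hA : (K : ℝ) ^ 24 ≤ (NN n).ncard * D := by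
    rw [div_le_iff₀ (by positivity)] at hXcard
    calc (K : ℝ) ^ 24 ≤ X.card * (48 * Real.log K) := hXcard
      _ ≤ (50 * V * rr V c d (5 * b - 2) (K ^ 24) X m) * (48 * Real.log K) :=
          mul_le_mul_of_nonneg_right hrrR (by positivity)
      _ ≤ (50 * V * ((NN n).ncard * (C * (n : ℝ) ^ (ε / 2)))) * (48 * Real.log K) := by
          refine mul_le_mul_of_nonneg_right ?_ (by positivity)
          exact mul_le_mul_of_nonneg_left hcount (by positivity)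
      _ = (NN n).ncard * D := by rw [hD]; ring
  have hB : (n : ℝ) ^ (1 / 2 - ε) * D ≤ (K : ℝ) ^ 24 := by
    have h1 : (n : ℝ) ^ (1 / 2 : ℝ) ≤ 99 * V * (K : ℝ) ^ 24 := by
      rw [← Real.sqrt_eq_rpow]
      refine Real.sqrt_le_iff.2 ⟨by positivity, ?_⟩
      have h2 : (n : ℝ) ≤ 9800 * (V : ℝ) ^ 2 * (K : ℝ) ^ 48 := by exact_mod_cast hn2.le
      have h3 : 0 ≤ (V : ℝ) ^ 2 * (K : ℝ) ^ 48 := by positivity
      calc (n : ℝ) ≤ 9800 * (V : ℝ) ^ 2 * (K : ℝ) ^ 48 := h2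
        _ ≤ (99 * V * (K : ℝ) ^ 24) ^ 2 := by
          have h4 : (99 * V * (K : ℝ) ^ 24) ^ 2 = 9801 * ((V : ℝ) ^ 2 * (K : ℝ) ^ 48) := by ring
          rw [h4]
          linarith
    have h2 : 237600 * (V : ℝ) ^ 2 * C * Real.log K ≤ (n : ℝ) ^ (ε / 2) := by
      refine (hK1 K hKK1).trans ?_
      have h3 : ((K : ℝ) ^ 48) ^ (ε / 2) ≤ (n : ℝ) ^ (ε / 2) := by
        refine Real.rpow_le_rpow (by positivity) ?_ (by positivity)
        exact_mod_cast hVK
      refine le_trans (le_of_eq ?_) h3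
      rw [← Real.rpow_natCast, ← Real.rpow_mul (by positivity)]
      congr 1
      push_cast
      ring
    have h4 : (n : ℝ) ^ (1 / 2 - ε) * (n : ℝ) ^ (ε / 2) =
        (n : ℝ) ^ (1 / 2 : ℝ) * (n : ℝ) ^ (-(ε / 2)) := by
      rw [← Real.rpow_add hn0, ← Real.rpow_add hn0]
      congr 1
      ring
    have h5 : (n : ℝ) ^ (-(ε / 2)) * (n : ℝ) ^ (ε / 2) = 1 := by
      rw [← Real.rpow_add hn0]
      simp
    calc (n : ℝ) ^ (1 / 2 - ε) * D = (2400 * V * C * Real.log K) *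
          ((n : ℝ) ^ (1 / 2 - ε) * (n : ℝ) ^ (ε / 2)) := by rw [hD]; ring
      _ = (2400 * V * C * Real.log K) * ((n : ℝ) ^ (1 / 2 : ℝ) * (n : ℝ) ^ (-(ε / 2))) := by
          rw [h4]
      _ ≤ (2400 * V * C * Real.log K) * ((99 * V * (K : ℝ) ^ 24) * (n : ℝ) ^ (-(ε / 2))) := by
          refine mul_le_mul_of_nonneg_left ?_ (by positivity)
          exact mul_le_mul_of_nonneg_right h1 (by positivity)
      _ = (K : ℝ) ^ 24 * ((n : ℝ) ^ (-(ε / 2)) * (237600 * (V : ℝ) ^ 2 * C * Real.log K)) := by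
          ring
      _ ≤ (K : ℝ) ^ 24 * ((n : ℝ) ^ (-(ε / 2)) * (n : ℝ) ^ (ε / 2)) := by
          refine mul_le_mul_of_nonneg_left ?_ (by positivity)
          exact mul_le_mul_of_nonneg_left h2 (by positivity)
      _ = (K : ℝ) ^ 24 := by rw [h5, mul_one]
  exact le_of_mul_le_mul_right (hB.trans hA) hDpos

end Pool.Agent.GM
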