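import Pool.Agent.Lib.MP_1e1427_nt.GM.Stm
import Pool.Agent.Lib.MP_1e1427_nt.DivBound

set_option autoImplicit false

open Finset

namespace Pool.Agent.GM

private lemma sm_inner (V d : ℕ) (hV : 1 ≤ V) (S : Finset ℕ) (k : ℕ) (hk : k ≠ 0) :
    ((S ×ˢ S).filter (fun t => V * t.1 ^ 2 + d * t.1 + k = V * t.2 ^ 2 + d * t.2)).card ≤
      k.divisors.card := by
  have key : ∀ t : ℕ × ℕ, V * t.1 ^ 2 + d * t.1 + k = V * t.2 ^ 2 + d * t.2 →
      t.1 < t.2 ∧ (t.2 - t.1) * (V * (2 * t.1 + (t.2 - t.1)) + d) = k := by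
    rintro ⟨z, w⟩ h
    simp only at h ⊢
    have hlt : z < w := by
      by_contra hcon
      push Not at hcon
      have h1 : V * w ^ 2 ≤ V * z ^ 2 := Nat.mul_le_mul_left _ (Nat.pow_le_pow_left hcon 2)
      have h2 : d * w ≤ d * z := Nat.mul_le_mul_left _ hcon
      omega
    refine ⟨hlt, ?_⟩
    obtain ⟨h', rfl⟩ := Nat.exists_eq_add_of_lt hlt
    have e1 : z + h' + 1 - z = h' + 1 := by omega
    rw [e1]
    have e2 : V * (z + h' + 1) ^ 2 + d * (z + h' + 1) =
        V * z ^ 2 + d * z + (h' + 1) * (V * (2 * z + (h' + 1)) + d) := by ring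
    omega
  apply Finset.card_le_card_of_injOn (fun t => t.2 - t.1)
  · intro t ht
    rw [Finset.mem_coe, Finset.mem_filter] at ht
    obtain ⟨h1, h2⟩ := key t ht.2
    rw [Finset.mem_coe, Nat.mem_divisors]
    exact ⟨⟨_, h2.symm⟩, hk⟩
  · intro t ht s hs hts
    rw [Finset.mem_coe, Finset.mem_filter] at ht hs
    obtain ⟨h1, h2⟩ := key t ht.2
    obtain ⟨h3, h4⟩ := key s hs.2
    simp only at hts
    rw [← hts] at h4
    have h5 : 0 < t.2 - t.1 := by omega
    have h6 := Nat.eq_of_mul_eq_mul_left h5 (h2.trans h4.symm)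
    have h7 : V * (2 * t.1 + (t.2 - t.1)) = V * (2 * s.1 + (t.2 - t.1)) := by omega
    have h8 := Nat.eq_of_mul_eq_mul_left (by omega) h7
    ext <;> omega

theorem p_sm : S_sm := by
  intro V d e hV
  obtain ⟨C, hC1, hC⟩ := Pool.Agent.Lib.MP1e1427.exists_card_divisors_le 100 (by norm_num)
  obtain ⟨M, hM⟩ := exists_nat_ge ((1600 * (1 + C)) ^ 2)
  refine ⟨max (8000 * V + 40 * e) (max M 1), fun K hK => ?_⟩
  have hK1 : 8000 * V + 40 * e ≤ K := le_trans (le_max_left _ _) hK
  have hK2 : M ≤ K := le_trans ((le_max_left _ _).trans (le_max_right _ _)) hK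
  have hK3 : 1 ≤ K := le_trans ((le_max_right _ _).trans (le_max_right _ _)) hK
  have hKr : (1 : ℝ) ≤ K := by exact_mod_cast hK3
  have hs1 : (1 : ℝ) ≤ √K := by rw [Real.one_le_sqrt]; exact hKr
  have hsq : √(K : ℝ) * √K = K := Real.mul_self_sqrt (by positivity)
  have hbig : 1600 * (1 + C) ≤ √K := by
    apply Real.le_sqrt_of_sq_le
    exact hM.trans (by exact_mod_cast hK2)
  set R : Finset ℕ := range (40 * K ^ 24) with hR
  have hRc : R.card = 40 * K ^ 24 := card_range _
  -- divisor bound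
  have hdiv : ∀ k : ℕ, k ≤ 5 * V * (40 * K ^ 24) ^ 2 + e * (40 * K ^ 24) →
      ((k.divisors.card : ℕ) : ℝ) ≤ C * √K := by
    intro k hk
    apply hC _ hs1
    have h1 : k ≤ K ^ 50 := by
      refine hk.trans ?_
      have h2 : K ^ 24 ≤ K ^ 48 := Nat.pow_le_pow_right hK3 (by norm_num)
      have h3 : e * (40 * K ^ 24) ≤ 40 * e * K ^ 48 := by nlinarith [Nat.zero_le e]
      have h4 : 5 * V * (40 * K ^ 24) ^ 2 = 8000 * V * K ^ 48 := by ring
      have h5 : (8000 * V + 40 * e) * K ^ 48 ≤ K * K ^ 48 := Nat.mul_le_mul_right _ hK1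
      have h6 : K * K ^ 48 = K ^ 49 := by ring
      have h7 : K ^ 49 ≤ K ^ 50 := Nat.pow_le_pow_right hK3 (by norm_num)
      nlinarith
    have h2 : (√(K : ℝ)) ^ 100 = (K : ℝ) ^ 50 := by
      rw [show (100 : ℕ) = 2 * 50 by norm_num, pow_mul, Real.sq_sqrt (by positivity)]
    rw [h2]
    exact_mod_cast h1
  have hmono : ∀ x y : ℕ, x < y → 5 * V * x ^ 2 + e * x < 5 * V * y ^ 2 + e * y := by
    intro x y hxy
    have h1 : x ^ 2 < y ^ 2 := Nat.pow_lt_pow_left hxy (by norm_num)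
    have h2 : 5 * V * x ^ 2 < 5 * V * y ^ 2 := Nat.mul_lt_mul_of_pos_left h1 (by omega)
    have h3 : e * x ≤ e * y := Nat.mul_le_mul_left _ hxy.le
    omega
  have hgmono : ∀ x y : ℕ, x < y → V * x ^ 2 + d * x < V * y ^ 2 + d * y := by
    intro x y hxy
    have h1 : x ^ 2 < y ^ 2 := Nat.pow_lt_pow_left hxy (by norm_num)
    have h2 : V * x ^ 2 < V * y ^ 2 := Nat.mul_lt_mul_of_pos_left h1 (by omega)
    have h3 : d * x ≤ d * y := Nat.mul_le_mul_left _ hxy.le
    omega
  set T := ((R ×ˢ R) ×ˢ (R ×ˢ R)).filter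
    (fun t => (5 * V * t.1.1 ^ 2 + e * t.1.1) + (V * t.1.2 ^ 2 + d * t.1.2) =
      (5 * V * t.2.1 ^ 2 + e * t.2.1) + (V * t.2.2 ^ 2 + d * t.2.2)) with hT
  have hfib : ∀ p ∈ R ×ˢ R,
      (((T.filter (fun t => (t.1.1, t.2.1) = p)).card : ℕ) : ℝ) ≤
        (if p.1 = p.2 then (R.card : ℝ) else 0) + C * √K := by
    rintro ⟨x, x'⟩ hp
    rw [Finset.mem_product] at hp
    obtain ⟨hx, hx'⟩ := hp
    simp only at hx hx' ⊢
    have hCK : 0 ≤ C * √(K : ℝ) := by positivity
    have himg : (T.filter (fun t => (t.1.1, t.2.1) = (x, x'))).card ≤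
        ((R ×ˢ R).filter (fun s => (5 * V * x ^ 2 + e * x) + (V * s.1 ^ 2 + d * s.1) =
          (5 * V * x' ^ 2 + e * x') + (V * s.2 ^ 2 + d * s.2))).card := by
      apply Finset.card_le_card_of_injOn (fun t => (t.1.2, t.2.2))
      · rintro ⟨⟨a, b⟩, ⟨a', b'⟩⟩ ht
        rw [Finset.mem_coe, Finset.mem_filter, hT, Finset.mem_filter, Finset.mem_product,
          Finset.mem_product, Finset.mem_product] at ht
        obtain ⟨⟨⟨⟨_, hb⟩, ⟨_, hb'⟩⟩, heq⟩, hpp⟩ := ht
        simp only [Prod.mk.injEq] at hpp heq hb hb'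
        obtain ⟨rfl, rfl⟩ := hpp
        rw [Finset.mem_coe, Finset.mem_filter, Finset.mem_product]
        exact ⟨⟨hb, hb'⟩, heq⟩
      · rintro ⟨⟨a, b⟩, ⟨a', b'⟩⟩ ht ⟨⟨a2, b2⟩, ⟨a2', b2'⟩⟩ hs hts
        rw [Finset.mem_coe, Finset.mem_filter] at ht hs
        have h1 := ht.2
        have h2 := hs.2
        simp only [Prod.mk.injEq] at h1 h2 hts ⊢
        obtain ⟨rfl, rfl⟩ := h1
        obtain ⟨rfl, rfl⟩ := h2
        obtain ⟨rfl, rfl⟩ := hts
        simp
    have himgr : (((T.filter (fun t => (t.1.1, t.2.1) = (x, x'))).card : ℕ) : ℝ) ≤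
        ((((R ×ˢ R).filter (fun s => (5 * V * x ^ 2 + e * x) + (V * s.1 ^ 2 + d * s.1) =
          (5 * V * x' ^ 2 + e * x') + (V * s.2 ^ 2 + d * s.2))).card : ℕ) : ℝ) := by
      exact_mod_cast himg
    refine himgr.trans ?_
    have hbx : ∀ y ∈ R, 5 * V * y ^ 2 + e * y ≤ 5 * V * (40 * K ^ 24) ^ 2 + e * (40 * K ^ 24) := by
      intro y hy
      rw [hR, Finset.mem_range] at hy
      exact (hmono _ _ hy).le
    rcases lt_trichotomy x x' with h | h | h
    · rw [if_neg h.ne, zero_add]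
      have h1 := hmono _ _ h
      set k := (5 * V * x' ^ 2 + e * x') - (5 * V * x ^ 2 + e * x) with hk
      have h2 : ((R ×ˢ R).filter (fun s => (5 * V * x ^ 2 + e * x) + (V * s.1 ^ 2 + d * s.1) =
          (5 * V * x' ^ 2 + e * x') + (V * s.2 ^ 2 + d * s.2))).card ≤ k.divisors.card := by
        refine le_trans ?_ (sm_inner V d hV R k (by omega))
        apply Finset.card_le_card_of_injOn (fun s => (s.2, s.1))
        · rintro ⟨a, b⟩ hs
          rw [Finset.mem_coe, Finset.mem_filter, Finset.mem_product] at hs ⊢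
          simp only at hs ⊢
          refine ⟨⟨hs.1.2, hs.1.1⟩, ?_⟩
          have := hs.2
          omega
        · rintro ⟨a, b⟩ _ ⟨a', b'⟩ _ hab
          simp only [Prod.mk.injEq] at hab ⊢
          exact ⟨hab.2, hab.1⟩
      have h3 := hdiv k (by have := hbx x' hx'; omega)
      exact le_trans (by exact_mod_cast h2) h3
    · subst h
      rw [if_pos rfl]
      have h2 : ((R ×ˢ R).filter (fun s => (5 * V * x ^ 2 + e * x) + (V * s.1 ^ 2 + d * s.1) =
          (5 * V * x ^ 2 + e * x) + (V * s.2 ^ 2 + d * s.2))).card ≤ R.card := by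
        apply Finset.card_le_card_of_injOn (fun s => s.1)
        · rintro ⟨a, b⟩ hs
          rw [Finset.mem_coe, Finset.mem_filter, Finset.mem_product] at hs
          exact hs.1.1
        · rintro ⟨a, b⟩ hs ⟨a', b'⟩ hs' hab
          rw [Finset.mem_coe, Finset.mem_filter] at hs hs'
          simp only at hab
          subst hab
          have e1 : V * a ^ 2 + d * a = V * b ^ 2 + d * b := by have := hs.2; simp only at this; omega
          have e2 : V * a ^ 2 + d * a = V * b' ^ 2 + d * b' := by have := hs'.2; simp only at this; omega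
          have e3 : b = b' := by
            rcases lt_trichotomy b b' with h | h | h
            · have := hgmono _ _ h; omega
            · exact h
            · have := hgmono _ _ h; omega
          rw [e3]
      have h3 : ((((R ×ˢ R).filter (fun s => (5 * V * x ^ 2 + e * x) + (V * s.1 ^ 2 + d * s.1) =
          (5 * V * x ^ 2 + e * x) + (V * s.2 ^ 2 + d * s.2))).card : ℕ) : ℝ) ≤ R.card := by
        exact_mod_cast h2
      linarith
    · rw [if_neg h.ne', zero_add]
      have h1 := hmono _ _ h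
      set k := (5 * V * x ^ 2 + e * x) - (5 * V * x' ^ 2 + e * x') with hk
      have h2 : ((R ×ˢ R).filter (fun s => (5 * V * x ^ 2 + e * x) + (V * s.1 ^ 2 + d * s.1) =
          (5 * V * x' ^ 2 + e * x') + (V * s.2 ^ 2 + d * s.2))).card ≤ k.divisors.card := by
        refine le_trans ?_ (sm_inner V d hV R k (by omega))
        apply Finset.card_le_card
        rintro ⟨a, b⟩ hs
        rw [Finset.mem_filter] at hs ⊢
        simp only at hs ⊢
        refine ⟨hs.1, ?_⟩
        have := hs.2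
        omega
      have h3 := hdiv k (by have := hbx x hx; omega)
      exact le_trans (by exact_mod_cast h2) h3
  have hcard : T.card = ∑ p ∈ R ×ˢ R, (T.filter (fun t => (t.1.1, t.2.1) = p)).card := by
    apply Finset.card_eq_sum_card_fiberwise
    intro t ht
    rw [Finset.mem_coe, hT, Finset.mem_filter, Finset.mem_product, Finset.mem_product,
      Finset.mem_product] at ht
    rw [Finset.mem_coe, Finset.mem_product]
    exact ⟨ht.1.1.1, ht.1.2.1⟩
  have hfin : ((T.card : ℕ) : ℝ) ≤ (K : ℝ) ^ 49 := by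
    rw [hcard, Nat.cast_sum]
    refine (Finset.sum_le_sum hfib).trans ?_
    rw [Finset.sum_add_distrib, Finset.sum_const, Finset.card_product, nsmul_eq_mul]
    have hdiag : ∑ p ∈ R ×ˢ R, (if p.1 = p.2 then (R.card : ℝ) else 0) = (R.card : ℝ) * R.card := by
      rw [Finset.sum_product]
      have : ∀ x ∈ R, ∑ y ∈ R, (if x = y then (R.card : ℝ) else 0) = R.card := by
        intro x hx
        rw [Finset.sum_ite_eq, if_pos hx]
      rw [Finset.sum_congr rfl this, Finset.sum_const, nsmul_eq_mul]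
    rw [hdiag, hRc]
    push_cast
    have h1 : 40 * (K : ℝ) ^ 24 * (40 * (K : ℝ) ^ 24) + 40 * (K : ℝ) ^ 24 * (40 * (K : ℝ) ^ 24) * (C * √K) =
        (K : ℝ) ^ 48 * (1600 * (1 + C * √K)) := by ring
    rw [h1]
    have h2 : 1600 * (1 + C * √(K : ℝ)) ≤ K := by
      calc 1600 * (1 + C * √(K : ℝ)) ≤ 1600 * (1 + C) * √K := by nlinarith
        _ ≤ √K * √K := by gcongr
        _ = K := hsq
    calc (K : ℝ) ^ 48 * (1600 * (1 + C * √K)) ≤ (K : ℝ) ^ 48 * K := by gcongr
      _ = (K : ℝ) ^ 49 := by ring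
  exact_mod_cast hfin

end Pool.Agent.GM
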