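import Pool.Agent.Lib.MP_1e1427_nt.GM.Stm

/-!
MP_1e1427_nt, project GM: `N = 2^p + 2^((p+1)/2) + 1` is a strong probable prime to base `2`.
-/

namespace Pool.Agent.GM

private theorem sprp_dvd (p : ℕ) (hp : p.Prime) (k : ℕ) (hk : p = 8 * k + 3) :
    p ∣ 2 ^ (4 * k + 1) + 1 := by
  haveI := Fact.mk hp
  have hp2 : p ≠ 2 := by omega
  have h2 : (2 : ZMod p) ≠ 0 := by
    intro h
    have h1 : ((2 : ℕ) : ZMod p) = 0 := by exact_mod_cast h
    rw [ZMod.natCast_eq_zero_iff] at h1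
    have := Nat.le_of_dvd (by norm_num) h1
    omega
  have hns : ¬ IsSquare (2 : ZMod p) := by
    rw [ZMod.exists_sq_eq_two_iff hp2]
    omega
  have hne : ¬ (2 : ZMod p) ^ (p / 2) = 1 := by
    rw [← ZMod.euler_criterion p h2]
    exact hns
  have hm : (2 : ZMod p) ^ (p / 2) = -1 := by
    rcases ZMod.pow_div_two_eq_neg_one_or_one p h2 with h | h
    · exact absurd h hne
    · exact h
  have hd : p / 2 = 4 * k + 1 := by omega
  rw [hd] at hm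
  rw [← ZMod.natCast_eq_zero_iff]
  push_cast
  rw [hm]
  ring

private theorem sprp_aur (a : ℕ) (ha : 1 ≤ a) : 2 * a ^ 2 + 2 * a + 1 ∣ 4 * a ^ 4 + 1 := by
  obtain ⟨b, rfl⟩ := Nat.exists_eq_add_of_le ha
  exact ⟨2 * (1 + b) * b + 1, by ring⟩

theorem p_sprp : S_sprp := by
  intro p hp h8
  obtain ⟨k, hk⟩ : ∃ k, p = 8 * k + 3 := ⟨p / 8, by omega⟩
  have hh : (p + 1) / 2 = 4 * k + 2 := by omega
  obtain ⟨m, hm⟩ := sprp_dvd p hp k hk
  have hodd : Odd (2 ^ (4 * k + 1) + 1 : ℕ) := by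
    apply Even.add_one
    rw [Nat.even_pow]
    exact ⟨even_two, by omega⟩
  have hmo : Odd m := by
    rw [hm] at hodd
    exact (Nat.odd_mul.1 hodd).2
  refine ⟨4 * k + 2, 2 ^ (4 * k + 1) + 1, by omega, hodd, ?_, ?_⟩
  · rw [hh, hk]
    ring
  · rw [hh]
    have h1 : (4 : ℕ) ^ p + 1 ∣ 2 ^ (2 * (2 ^ (4 * k + 1) + 1)) + 1 := by
      rw [hm, pow_mul, pow_mul]
      have h2 := Odd.nat_add_dvd_pow_add_pow (4 ^ p) 1 hmo
      rw [one_pow] at h2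
      exact h2
    refine dvd_trans ?_ h1
    have h3 := sprp_aur (2 ^ (4 * k + 1)) Nat.one_le_two_pow
    have h4 : 2 * (2 ^ (4 * k + 1)) ^ 2 + 2 * 2 ^ (4 * k + 1) + 1 = 2 ^ p + 2 ^ (4 * k + 2) + 1 := by
      rw [hk]; ring
    have h5 : 4 * (2 ^ (4 * k + 1)) ^ 4 + 1 = 4 ^ p + 1 := by
      have : (4 : ℕ) = 2 ^ 2 := by norm_num
      rw [hk, this, ← pow_mul, ← pow_mul]
      ring
    rw [h4, h5] at h3
    exact h3

end Pool.Agent.GM
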