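import Pool.Agent.Lib.MP_1e1427_nt.GM.Stm
import Pool.Agent.Lib.MP_1e1427_nt.DivBound

set_option autoImplicit false

open Finset MeasureTheory

namespace Pool.Agent.GM

private theorem tau_le (q : ℕ) (hq : 0 < q) : q ≤ q.divisors.card * q.totient := by
  calc q = ∑ d ∈ q.divisors, d.totient := (Nat.sum_totient q).symm
    _ ≤ ∑ _d ∈ q.divisors, q.totient := by
        refine Finset.sum_le_sum fun d hd => ?_
        exact Nat.le_of_dvd (Nat.totient_pos.2 hq)
          (Nat.totient_dvd_of_dvd (Nat.dvd_of_mem_divisors hd))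
    _ = q.divisors.card * q.totient := by rw [Finset.sum_const, smul_eq_mul]

private theorem tau_sum (w n : ℕ) (hw : 1 ≤ w) :
    ∑ q ∈ Ioc w (w + n), 1 / ((q : ℝ) * Real.sqrt q) ≤
      2 * (1 / Real.sqrt w - 1 / Real.sqrt ((w + n : ℕ) : ℝ)) := by
  induction n with
  | zero => simp
  | succ n ih =>
    have h1 : Ioc w (w + (n + 1)) = insert (w + n + 1) (Ioc w (w + n)) := by
      ext z
      simp only [mem_Ioc, mem_insert]
      omega
    rw [h1, Finset.sum_insert (by simp)]
    have hm : (0 : ℝ) < ((w + n : ℕ) : ℝ) := by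
      have : 0 < w + n := by omega
      exact_mod_cast this
    set m : ℝ := ((w + n : ℕ) : ℝ) with hmdef
    have e1 : ((w + n + 1 : ℕ) : ℝ) = m + 1 := by rw [hmdef]; push_cast; ring
    have e2 : ((w + (n + 1) : ℕ) : ℝ) = m + 1 := by rw [hmdef]; push_cast; ring
    rw [e1, e2]
    set x := Real.sqrt m with hx
    set y := Real.sqrt (m + 1) with hy
    have hx0 : 0 < x := Real.sqrt_pos.2 hm
    have hy0 : 0 < y := Real.sqrt_pos.2 (by linarith)
    have hxx : x * x = m := Real.mul_self_sqrt hm.le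
    have hyy : y * y = m + 1 := Real.mul_self_sqrt (by linarith)
    have hxy : x ≤ y := Real.sqrt_le_sqrt (by linarith)
    have key : 1 / ((m + 1) * y) ≤ 2 * (1 / x - 1 / y) := by
      rw [← hyy]
      have h2 : 2 * (1 / x - 1 / y) = 2 * (y - x) / (x * y) := by field_simp
      rw [h2, div_le_div_iff₀ (by positivity) (by positivity)]
      have h3 : (y - x) * (y + x) = 1 := by ring_nf; nlinarith
      have h4 : 1 ≤ (y - x) * (2 * y) := by
        rw [← h3]
        exact mul_le_mul_of_nonneg_left (by linarith) (by linarith)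
      have h5 : x * y ≤ y * y := by nlinarith
      have h6 : 2 * (y - x) * (y * y * y) = ((y - x) * (2 * y)) * (y * y) := by ring
      rw [h6, one_mul]
      calc x * y ≤ y * y := h5
        _ = 1 * (y * y) := by ring
        _ ≤ ((y - x) * (2 * y)) * (y * y) := mul_le_mul_of_nonneg_right h4 (by positivity)
    linarith

theorem p_tau : S_tau := by
  obtain ⟨C, hC, hdiv⟩ := Pool.Agent.Lib.MP1e1427.exists_card_divisors_pow_le 6
  have hC0 : (0 : ℝ) < C := by exact_mod_cast hC
  refine ⟨2 * Real.sqrt C, by positivity, fun w Q hw => ?_⟩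
  have hterm : ∀ q : ℕ, 0 < q → (q.divisors.card : ℝ) / (q.totient : ℝ) ^ 2 ≤
      Real.sqrt C * (1 / ((q : ℝ) * Real.sqrt q)) := by
    intro q hq
    have hq0 : (0 : ℝ) < q := by exact_mod_cast hq
    have hphi : (0 : ℝ) < q.totient := by exact_mod_cast Nat.totient_pos.2 hq
    have htau : (0 : ℝ) < q.divisors.card := by
      exact_mod_cast Finset.card_pos.2 (Nat.nonempty_divisors.2 hq.ne')
    have h1 : (q : ℝ) ≤ q.divisors.card * q.totient := by exact_mod_cast tau_le q hq
    have h2 : ((q.divisors.card : ℝ)) ^ 6 ≤ C * q := by exact_mod_cast hdiv q hq.ne'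
    have h3 : ((q.divisors.card : ℝ)) ^ 3 ≤ Real.sqrt C * Real.sqrt q := by
      rw [← Real.sqrt_mul hC0.le]
      apply Real.le_sqrt_of_sq_le
      have h2' : (((q.divisors.card : ℝ)) ^ 3) ^ 2 = ((q.divisors.card : ℝ)) ^ 6 := by ring
      rw [h2']
      exact h2
    set T : ℝ := (q.divisors.card : ℝ) with hT
    set P : ℝ := (q.totient : ℝ) with hP
    set s := Real.sqrt (q : ℝ) with hs
    have hs0 : 0 < s := Real.sqrt_pos.2 hq0
    have hss : s * s = q := Real.mul_self_sqrt hq0.le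
    have h4 : (q : ℝ) ^ 2 ≤ T ^ 2 * P ^ 2 := by
      rw [← mul_pow]
      exact pow_le_pow_left₀ hq0.le h1 2
    have h5 : T * ((q : ℝ) * s) ≤ Real.sqrt C * P ^ 2 := by
      have h6 : T * ((q : ℝ) * s) * (q : ℝ) ≤ Real.sqrt C * P ^ 2 * (q : ℝ) := by
        calc T * ((q : ℝ) * s) * (q : ℝ) = T * s * (q : ℝ) ^ 2 := by ring
          _ ≤ T * s * (T ^ 2 * P ^ 2) := mul_le_mul_of_nonneg_left h4 (by positivity)
          _ = T ^ 3 * (s * P ^ 2) := by ring
          _ ≤ (Real.sqrt C * s) * (s * P ^ 2) := mul_le_mul_of_nonneg_right h3 (by positivity)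
          _ = Real.sqrt C * P ^ 2 * (s * s) := by ring
          _ = Real.sqrt C * P ^ 2 * (q : ℝ) := by rw [hss]
      exact le_of_mul_le_mul_right h6 hq0
    rw [mul_one_div, div_le_div_iff₀ (by positivity) (by positivity)]
    exact h5
  rcases le_or_gt Q w with hQ | hQ
  · rw [Finset.Ioc_eq_empty_of_le hQ, Finset.sum_empty]
    positivity
  · obtain ⟨n, rfl⟩ := Nat.exists_eq_add_of_le hQ.le
    calc ∑ q ∈ Ioc w (w + n), (q.divisors.card : ℝ) / (q.totient : ℝ) ^ 2
        ≤ ∑ q ∈ Ioc w (w + n), Real.sqrt C * (1 / ((q : ℝ) * Real.sqrt q)) := by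
          refine Finset.sum_le_sum fun q hq => hterm q ?_
          rw [mem_Ioc] at hq
          omega
      _ = Real.sqrt C * ∑ q ∈ Ioc w (w + n), (1 / ((q : ℝ) * Real.sqrt q)) := by
          rw [Finset.mul_sum]
      _ ≤ Real.sqrt C * (2 * (1 / Real.sqrt w - 1 / Real.sqrt ((w + n : ℕ) : ℝ))) :=
          mul_le_mul_of_nonneg_left (tau_sum w n hw) (Real.sqrt_nonneg _)
      _ ≤ Real.sqrt C * (2 * (1 / Real.sqrt w)) := by
          refine mul_le_mul_of_nonneg_left ?_ (Real.sqrt_nonneg _)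
          have : 0 ≤ 1 / Real.sqrt ((w + n : ℕ) : ℝ) := by positivity
          linarith
      _ = 2 * Real.sqrt C / Real.sqrt w := by ring

end Pool.Agent.GM
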