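import Pool.Agent.Lib.MP_1e1427_nt.GM.Stm

/-!
Project GM (MP_1e1427_nt), piece 24 `thmA`: the exceptional set.   (helper54)
-/

set_option autoImplicit false

open Finset MeasureTheory
open Pool.Agent.APP (ee nn ee_add)

namespace Pool.Agent.GM

/-- the index set of the difference -/
private abbrev thmA_I : Type := (ℕ × ℕ × ℕ) ⊕ ((ℕ × ℕ × ℕ) × ℕ)

private def thmA_T (L H : ℕ) (X : Finset ℕ) : Finset thmA_I :=
  (box L X).disjSum (box L X ×ˢ range H)

private def thmA_v (V c d e : ℕ) : thmA_I → ℕ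
  | Sum.inl t => val V c d e t
  | Sum.inr x => val V c d e x.1 + x.2

private noncomputable def thmA_c (H : ℕ) : thmA_I → ℂ
  | Sum.inl _ => 1
  | Sum.inr _ => -(1 / (H : ℂ))

/-- the product of the three sums -/
private theorem thmA_prod (V c d e L : ℕ) (X : Finset ℕ) (α : ℝ) :
    ∑ t ∈ box L X, ee (α * ((val V c d e t : ℕ) : ℝ)) =
      Qs X (5 * V) e α * Qs (Ico L (3 * L)) V c α * Qs (Ico (2 * L) (20 * L)) V d α := by
  unfold box Qs
  rw [Finset.sum_product, Finset.sum_mul_sum, Finset.sum_mul]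
  apply Finset.sum_congr rfl
  intro x _
  rw [Finset.sum_product, Finset.sum_mul]
  apply Finset.sum_congr rfl
  intro y _
  rw [Finset.mul_sum]
  apply Finset.sum_congr rfl
  intro z _
  rw [← ee_add, ← ee_add]
  congr 1
  unfold val
  push_cast
  ring

/-- the generating function of the difference -/
private theorem thmA_gen (V c d e L H : ℕ) (X : Finset ℕ) (α : ℝ) :
    ∑ t ∈ thmA_T L H X, thmA_c H t * ee (α * ((thmA_v V c d e t : ℕ) : ℝ)) =
      Qs X (5 * V) e α * Qs (Ico L (3 * L)) V c α * Qs (Ico (2 * L) (20 * L)) V d α *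
        (1 - Ds H α) := by
  unfold thmA_T
  rw [Finset.sum_disjSum]
  have h1 : ∑ t ∈ box L X, thmA_c H (Sum.inl t) * ee (α * ((thmA_v V c d e (Sum.inl t) : ℕ) : ℝ)) =
      ∑ t ∈ box L X, ee (α * ((val V c d e t : ℕ) : ℝ)) := by
    apply Finset.sum_congr rfl
    intro t _
    change 1 * ee (α * ((val V c d e t : ℕ) : ℝ)) = _
    rw [one_mul]
  have h2 : ∑ t ∈ box L X ×ˢ range H,
      thmA_c H (Sum.inr t) * ee (α * ((thmA_v V c d e (Sum.inr t) : ℕ) : ℝ)) =
      -((∑ t ∈ box L X, ee (α * ((val V c d e t : ℕ) : ℝ))) * Ds H α) := by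
    unfold Ds
    rw [Finset.sum_product, Finset.mul_sum, Finset.sum_mul_sum, ← Finset.sum_neg_distrib]
    apply Finset.sum_congr rfl
    intro t _
    rw [← Finset.sum_neg_distrib]
    apply Finset.sum_congr rfl
    intro j _
    change -(1 / (H : ℂ)) * ee (α * ((val V c d e t + j : ℕ) : ℝ)) = _
    have h3 : α * ((val V c d e t + j : ℕ) : ℝ) = α * ((val V c d e t : ℕ) : ℝ) + α * (j : ℝ) := by
      push_cast
      ring
    rw [h3, ee_add]
    ring
  rw [h1, h2, thmA_prod]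
  ring

/-- the coefficients of the difference -/
private theorem thmA_coef (V c d e L H : ℕ) (X : Finset ℕ) (m : ℕ) (hm : H ≤ m) :
    ∑ t ∈ (thmA_T L H X).filter (fun t => thmA_v V c d e t = m), thmA_c H t =
      (((rr V c d e L X m : ℝ) - (1 / (H : ℝ)) * ∑ j ∈ range H, (rr V c d e L X (m - j) : ℝ) : ℝ) :
        ℂ) := by
  classical
  rw [Finset.sum_filter]
  unfold thmA_T
  rw [Finset.sum_disjSum]
  have h1 : ∑ t ∈ box L X, (if thmA_v V c d e (Sum.inl t) = m then thmA_c H (Sum.inl t) else 0) =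
      (rr V c d e L X m : ℂ) := by
    unfold rr
    rw [Finset.card_filter]
    push_cast
    rfl
  have h2 : ∑ t ∈ box L X ×ˢ range H,
      (if thmA_v V c d e (Sum.inr t) = m then thmA_c H (Sum.inr t) else 0) =
      -((1 / (H : ℂ)) * ∑ j ∈ range H, (rr V c d e L X (m - j) : ℂ)) := by
    rw [Finset.sum_product_right, Finset.mul_sum, ← Finset.sum_neg_distrib]
    apply Finset.sum_congr rfl
    intro j hj
    rw [Finset.mem_range] at hj
    unfold rr
    rw [Finset.card_filter]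
    push_cast
    rw [Finset.mul_sum, ← Finset.sum_neg_distrib]
    apply Finset.sum_congr rfl
    intro t _
    change (if val V c d e t + j = m then -(1 / (H : ℂ)) else 0) = _
    by_cases h : val V c d e t = m - j
    · rw [if_pos (by omega), if_pos h]
      ring
    · rw [if_neg (by omega), if_neg h]
      ring
  rw [h1, h2]
  push_cast
  ring

theorem p_thmA (h_L2 : S_L2) (h_par : S_par) (h_loc : S_loc) : S_thmA := by
  classical
  intro C1 hC1
  obtain ⟨C2, hC2, hL2⟩ := h_L2 C1 hC1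
  refine ⟨2500 * C2, by positivity, ?_⟩
  intro w V c d e hV
  obtain ⟨K1, hK1⟩ := hL2 w V c d e hV
  obtain ⟨hw5, hV1, -, -, -⟩ := hV
  obtain ⟨K2, hK2⟩ := h_loc w V c d e hw5 hV1
  refine ⟨max (max K1 K2) (w + 1), ?_⟩
  intro K hK X hX
  have hKK1 : K1 ≤ K := le_trans (le_trans (le_max_left _ _) (le_max_left _ _)) hK
  have hKK2 : K2 ≤ K := le_trans (le_trans (le_max_right _ _) (le_max_left _ _)) hK
  have hKw : w + 1 ≤ K := le_trans (le_max_right _ _) hK
  have hK0 : 1 ≤ K := by omega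
  set H := V * K ^ 48 / w with hH
  set L := K ^ 24 with hL
  have hKpow : K ≤ K ^ 48 := Nat.le_self_pow (by norm_num) K
  have hVK : K ^ 48 ≤ V * K ^ 48 := Nat.le_mul_of_pos_left _ (by omega)
  have hH1 : 1 ≤ H := by
    rw [hH, Nat.one_le_div_iff (by omega)]
    omega
  have hHw : H * w ≤ V * K ^ 48 := Nat.div_mul_le_self _ _
  have hHle : H ≤ V * K ^ 48 := Nat.div_le_self _ _
  have hF : 0 < X.card := by
    by_contra h0
    have h1 := hX.2.1
    have h2 : X.card = 0 := by omega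
    rw [h2] at h1
    have h3 : (0 : ℝ) < (K : ℝ) ^ 23 := by
      have : (0 : ℝ) < K := by exact_mod_cast hK0
      positivity
    simp only [Nat.cast_zero] at h1
    linarith
  have hInt := hK1 K hKK1 X H hX hH1 hHw
  -- Parseval
  let T := thmA_T L H X
  let M := ∑ t ∈ T, thmA_v V c d e t + 1
  have hM : ∀ t ∈ T, thmA_v V c d e t < M := by
    intro t ht
    have := Finset.single_le_sum (f := fun t => thmA_v V c d e t) (fun _ _ => Nat.zero_le _) ht
    exact Nat.lt_succ_of_le this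
  have hpar := h_par thmA_I T (thmA_v V c d e) (thmA_c H) M hM
  have hPhi : ∫ α in (0 : ℝ)..1, Phi V c d e L H X α =
      ∫ α in (0 : ℝ)..1, ‖∑ t ∈ T, thmA_c H t * ee (α * ((thmA_v V c d e t : ℕ) : ℝ))‖ ^ 2 := by
    apply intervalIntegral.integral_congr
    intro α _
    change Phi V c d e L H X α =
      ‖∑ t ∈ T, thmA_c H t * ee (α * ((thmA_v V c d e t : ℕ) : ℝ))‖ ^ 2
    rw [thmA_gen, norm_mul, norm_mul, norm_mul]
    rfl
  rw [hPhi, hpar] at hInt
  -- the exceptional set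
  set B := (Ico (4820 * V * K ^ 48) (4900 * V * K ^ 48)).filter
    (fun m => 50 * V * rr V c d e L X m < X.card) with hB
  have hVr : (0 : ℝ) < V := by exact_mod_cast hV1
  have hFr : (0 : ℝ) < (X.card : ℝ) := by exact_mod_cast hF
  have hHr : (0 : ℝ) < (H : ℝ) := by exact_mod_cast hH1
  have hlow : ∀ m ∈ B, ((X.card : ℝ) / (50 * V)) ^ 2 ≤
      ‖∑ t ∈ T.filter (fun t => thmA_v V c d e t = m), thmA_c H t‖ ^ 2 := by
    intro m hm
    rw [hB, Finset.mem_filter, Finset.mem_Ico] at hm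
    obtain ⟨⟨hm1, hm2⟩, hm3⟩ := hm
    have hHm : H ≤ m := by
      have : V * K ^ 48 ≤ 4820 * V * K ^ 48 := by
        rw [mul_assoc]
        exact Nat.le_mul_of_pos_left _ (by norm_num)
      omega
    have hloc := hK2 K hKK2 X m hX.1 hm1 hm2
    rw [thmA_coef V c d e L H X m hHm, Complex.norm_real, Real.norm_eq_abs, sq_abs]
    have hloc' : (X.card : ℝ) * H ≤
        25 * V * ∑ j ∈ range H, (rr V c d e L X (m - j) : ℝ) := by
      have h1 : X.card * H ≤ 25 * V * ∑ j ∈ range H, rr V c d e L X (m - j) := hloc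
      have h2 : ((X.card * H : ℕ) : ℝ) ≤
          ((25 * V * ∑ j ∈ range H, rr V c d e L X (m - j) : ℕ) : ℝ) := by exact_mod_cast h1
      push_cast at h2
      exact h2
    have hrr : 50 * (V : ℝ) * (rr V c d e L X m : ℝ) ≤ X.card := by
      have h2 : ((50 * V * rr V c d e L X m : ℕ) : ℝ) ≤ ((X.card : ℕ) : ℝ) := by
        exact_mod_cast hm3.le
      push_cast at h2
      exact h2
    have h3 : (rr V c d e L X m : ℝ) ≤ (X.card : ℝ) / (50 * V) := by
      rw [le_div_iff₀ (by positivity)]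
      linarith
    have h4 : (X.card : ℝ) / (25 * V) ≤
        (1 / (H : ℝ)) * ∑ j ∈ range H, (rr V c d e L X (m - j) : ℝ) := by
      rw [div_le_iff₀ (by positivity), one_div, mul_assoc, inv_mul_eq_div, le_div_iff₀ hHr]
      linarith
    have h5 : (X.card : ℝ) / (25 * V) = 2 * ((X.card : ℝ) / (50 * V)) := by
      field_simp
      norm_num
    have h6 : 0 < (X.card : ℝ) / (50 * V) := by positivity
    have h7 : (X.card : ℝ) / (50 * V) ≤
        (1 / (H : ℝ)) * ∑ j ∈ range H, (rr V c d e L X (m - j) : ℝ) - (rr V c d e L X m : ℝ) := by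
      linarith
    have h8 := pow_le_pow_left₀ h6.le h7 2
    have h9 : ((1 / (H : ℝ)) * ∑ j ∈ range H, (rr V c d e L X (m - j) : ℝ) -
        (rr V c d e L X m : ℝ)) ^ 2 = ((rr V c d e L X m : ℝ) -
        (1 / (H : ℝ)) * ∑ j ∈ range H, (rr V c d e L X (m - j) : ℝ)) ^ 2 := by ring
    rw [h9] at h8
    exact h8
  have hBM : B ⊆ range M := by
    intro m hm
    rw [Finset.mem_range]
    by_contra hmM
    have h1 := hlow m hm
    have h2 : T.filter (fun t => thmA_v V c d e t = m) = ∅ := by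
      rw [Finset.filter_eq_empty_iff]
      intro t ht h3
      have := hM t ht
      omega
    rw [h2, Finset.sum_empty, norm_zero, zero_pow two_ne_zero] at h1
    have h6 : 0 < ((X.card : ℝ) / (50 * V)) ^ 2 := by positivity
    linarith
  have hsum : (B.card : ℝ) * ((X.card : ℝ) / (50 * V)) ^ 2 ≤
      ∑ m ∈ range M, ‖∑ t ∈ T.filter (fun t => thmA_v V c d e t = m), thmA_c H t‖ ^ 2 := by
    calc (B.card : ℝ) * ((X.card : ℝ) / (50 * V)) ^ 2 =
          ∑ _m ∈ B, ((X.card : ℝ) / (50 * V)) ^ 2 := by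
          rw [Finset.sum_const, nsmul_eq_mul]
      _ ≤ ∑ m ∈ B, ‖∑ t ∈ T.filter (fun t => thmA_v V c d e t = m), thmA_c H t‖ ^ 2 :=
          Finset.sum_le_sum hlow
      _ ≤ _ := Finset.sum_le_sum_of_subset_of_nonneg hBM (fun m _ _ => sq_nonneg _)
  have hfin := hsum.trans hInt
  have hw0 : (0 : ℝ) < Real.sqrt w := by
    apply Real.sqrt_pos.mpr
    have : 0 < w := by omega
    exact_mod_cast this
  have h10 : (B.card : ℝ) * ((X.card : ℝ) / (50 * V)) ^ 2 =
      (B.card : ℝ) * ((X.card : ℝ) ^ 2 / (2500 * (V : ℝ) ^ 2)) := by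
    rw [div_pow, mul_pow]
    norm_num
  rw [h10] at hfin
  have h11 : (B.card : ℝ) * ((X.card : ℝ) ^ 2 / (2500 * (V : ℝ) ^ 2)) *
      (2500 * (V : ℝ) ^ 2 / (X.card : ℝ) ^ 2) = B.card := by
    field_simp
  have h12 : C2 * ((X.card : ℝ) ^ 2 * (K : ℝ) ^ 48 / (V * Real.sqrt w)) *
      (2500 * (V : ℝ) ^ 2 / (X.card : ℝ) ^ 2) = 2500 * C2 * (V * (K : ℝ) ^ 48 / Real.sqrt w) := by
    field_simp
  calc (B.card : ℝ) = (B.card : ℝ) * ((X.card : ℝ) ^ 2 / (2500 * (V : ℝ) ^ 2)) *
      (2500 * (V : ℝ) ^ 2 / (X.card : ℝ) ^ 2) := h11.symm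
    _ ≤ C2 * ((X.card : ℝ) ^ 2 * (K : ℝ) ^ 48 / (V * Real.sqrt w)) *
      (2500 * (V : ℝ) ^ 2 / (X.card : ℝ) ^ 2) :=
        mul_le_mul_of_nonneg_right hfin (by positivity)
    _ = _ := h12

end Pool.Agent.GM
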