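import Pool.Agent.Lib.MP_1e1427_nt.GM.Stm

/-! [GM 01] `van` (helper25) -/

set_option autoImplicit false

open Finset MeasureTheory
open Pool.Agent.APP

namespace Pool.Agent.GM

private lemma van_nn (x : ℝ) (hx : |x| ≤ 1 / 2) : |x| ≤ nn x := by
  unfold nn
  by_cases h : round x = 0
  · rw [h]; simp
  · have h1 : (1 : ℝ) ≤ |(round x : ℝ)| := by
      have : (1 : ℤ) ≤ |round x| := Int.one_le_abs h
      exact_mod_cast this
    have h2 : |(round x : ℝ)| ≤ |x - round x| + |x| := by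
      have : (round x : ℝ) = -(x - round x) + x := by ring
      calc |(round x : ℝ)| = |-(x - round x) + x| := by rw [← this]
        _ ≤ |-(x - round x)| + |x| := abs_add_le _ _
        _ = _ := by rw [abs_neg]
    linarith

private lemma van_abel (G w : ℕ → ℂ) (A : ℕ) (m : ℕ)
    (h : ∀ y, A ≤ y → y < A + m → G y = (G (y + 1) - G y) * w y) :
    ∑ y ∈ Ico A (A + m), G y = G (A + m) * w (A + m) - G A * w A +
      ∑ y ∈ Ico A (A + m), G (y + 1) * (w y - w (y + 1)) := by
  induction m with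
  | zero => simp
  | succ m ih =>
    have ih' := ih (fun y h1 h2 => h y h1 (by omega))
    have e : A + (m + 1) = (A + m) + 1 := by ring
    rw [e, Finset.sum_Ico_succ_top (by omega), Finset.sum_Ico_succ_top (by omega), ih']
    have := h (A + m) (by omega) (by omega)
    linear_combination this

theorem p_van : S_van := by
  intro V c A B β hV hA hAB hB hβ hbd
  have hβ0 : 0 < |β| := abs_pos.2 hβ
  have hVr : (1 : ℝ) ≤ V := by exact_mod_cast hV
  have hAr : (1 : ℝ) ≤ A := by exact_mod_cast hA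
  have hABr : (A : ℝ) ≤ B := by exact_mod_cast hAB
  have hBr : (B : ℝ) ≤ 10 * A := by exact_mod_cast hB
  have hc0 : (0 : ℝ) ≤ c := Nat.cast_nonneg c
  have hpi := Real.pi_pos
  set Δ : ℕ → ℝ := fun y => β * (V * (2 * (y : ℝ) + 1) + c) with hΔ
  set G : ℕ → ℂ := fun y => ee (β * ((V : ℝ) * (y : ℝ) ^ 2 + (c : ℝ) * (y : ℝ))) with hG
  set w : ℕ → ℂ := fun y => (ee (Δ y) - 1)⁻¹ with hw
  have hGs : ∀ y, G (y + 1) = G y * ee (Δ y) := by
    intro y
    simp only [hG, hΔ]
    rw [← ee_add]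
    congr 1
    push_cast
    ring
  have hGn : ∀ y, ‖G y‖ = 1 := fun y => norm_ee _
  -- bounds on Δ
  have hΔabs : ∀ y, |Δ y| = |β| * (V * (2 * (y : ℝ) + 1) + c) := by
    intro y
    simp only [hΔ]
    rw [abs_mul]
    congr 1
    apply abs_of_nonneg
    positivity
  have hlow : ∀ y, A ≤ y → y ≤ B → 8 * (V * A * |β|) ≤ ‖ee (Δ y) - 1‖ := by
    intro y h1 h2
    have h1r : (A : ℝ) ≤ y := by exact_mod_cast h1
    have h2r : (y : ℝ) ≤ B := by exact_mod_cast h2
    have h3 : |Δ y| ≤ 1 / 2 := by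
      rw [hΔabs]
      refine le_trans ?_ hbd
      apply mul_le_mul_of_nonneg_left _ hβ0.le
      nlinarith
    have h4 := van_nn _ h3
    have h5 := four_nn_le (Δ y)
    have h6 : 2 * (V * A * |β|) ≤ |Δ y| := by
      rw [hΔabs]
      have : 2 * ((V : ℝ) * A) ≤ V * (2 * (y : ℝ) + 1) + c := by nlinarith
      calc 2 * (V * A * |β|) = |β| * (2 * ((V : ℝ) * A)) := by ring
        _ ≤ _ := mul_le_mul_of_nonneg_left this hβ0.le
    linarith
  have hP : 0 < (V : ℝ) * A * |β| := by positivity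
  have hne : ∀ y, A ≤ y → y ≤ B → ee (Δ y) - 1 ≠ 0 := by
    intro y h1 h2 h0
    have := hlow y h1 h2
    rw [h0, norm_zero] at this
    linarith
  have hwn : ∀ y, A ≤ y → y ≤ B → ‖w y‖ ≤ 1 / (8 * (V * A * |β|)) := by
    intro y h1 h2
    simp only [hw]
    rw [norm_inv, one_div]
    exact inv_anti₀ (by positivity) (hlow y h1 h2)
  have hwd : ∀ y, A ≤ y → y + 1 ≤ B → ‖w y - w (y + 1)‖ ≤ Real.pi / (16 * (V * A ^ 2 * |β|)) := by
    intro y h1 h2
    have e : w y - w (y + 1) = (ee (Δ (y + 1)) - ee (Δ y)) * w y * w (y + 1) := by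
      have n1 := hne y h1 (by omega)
      have n2 := hne (y + 1) (by omega) h2
      simp only [hw]
      field_simp
      ring
    rw [e, norm_mul, norm_mul]
    have b1 : ‖ee (Δ (y + 1)) - ee (Δ y)‖ ≤ 2 * Real.pi * (2 * V * |β|) := by
      refine (norm_ee_sub_ee_le _ _).trans ?_
      apply mul_le_mul_of_nonneg_left _ (by positivity)
      refine (nn_le_abs _).trans ?_
      have : Δ (y + 1) - Δ y = 2 * V * β := by
        simp only [hΔ]
        push_cast
        ring
      rw [this, abs_mul]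
      rw [abs_of_nonneg (by positivity : (0 : ℝ) ≤ 2 * V)]
    have b2 := hwn y h1 (by omega)
    have b3 := hwn (y + 1) (by omega) h2
    calc ‖ee (Δ (y + 1)) - ee (Δ y)‖ * ‖w y‖ * ‖w (y + 1)‖
        ≤ (2 * Real.pi * (2 * V * |β|)) * (1 / (8 * (V * A * |β|))) * (1 / (8 * (V * A * |β|))) := by
          gcongr
      _ = Real.pi / (16 * (V * A ^ 2 * |β|)) := by
          field_simp
          ring
  obtain ⟨m, rfl⟩ : ∃ m, B = A + m := ⟨B - A, by omega⟩
  have habel := van_abel G w A m (by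
    intro y h1 h2
    rw [hGs]
    have n1 := hne y h1 (by omega)
    simp only [hw]
    field_simp)
  have hm : (m : ℝ) ≤ 9 * A := by push_cast at hBr; linarith
  unfold Qs
  change ‖∑ y ∈ Ico A (A + m), G y‖ ≤ _
  rw [habel]
  have t1 : ‖G (A + m) * w (A + m)‖ ≤ 1 / (8 * (V * A * |β|)) := by
    rw [norm_mul, hGn, one_mul]; exact hwn _ (by omega) le_rfl
  have t2 : ‖G A * w A‖ ≤ 1 / (8 * (V * A * |β|)) := by
    rw [norm_mul, hGn, one_mul]; exact hwn _ le_rfl hAB
  have t3 : ‖∑ y ∈ Ico A (A + m), G (y + 1) * (w y - w (y + 1))‖ ≤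
      m * (Real.pi / (16 * (V * A ^ 2 * |β|))) := by
    refine (norm_sum_le _ _).trans ?_
    have : ∀ y ∈ Ico A (A + m), ‖G (y + 1) * (w y - w (y + 1))‖ ≤
        Real.pi / (16 * (V * A ^ 2 * |β|)) := by
      intro y hy
      rw [Finset.mem_Ico] at hy
      rw [norm_mul, hGn, one_mul]
      exact hwd y hy.1 (by omega)
    refine (Finset.sum_le_sum this).trans ?_
    simp
  have t4 : m * (Real.pi / (16 * (V * (A : ℝ) ^ 2 * |β|))) ≤
      (9 * 3.15 / 16) / (V * A * |β|) := by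
    calc m * (Real.pi / (16 * (V * (A : ℝ) ^ 2 * |β|)))
        ≤ (9 * A) * (3.15 / (16 * (V * (A : ℝ) ^ 2 * |β|))) := by
          have := Real.pi_lt_d2
          gcongr
      _ = _ := by field_simp
  calc ‖G (A + m) * w (A + m) - G A * w A + ∑ y ∈ Ico A (A + m), G (y + 1) * (w y - w (y + 1))‖
      ≤ ‖G (A + m) * w (A + m)‖ + ‖G A * w A‖ +
        ‖∑ y ∈ Ico A (A + m), G (y + 1) * (w y - w (y + 1))‖ :=
        (norm_add_le _ _).trans (add_le_add_left (norm_sub_le _ _) _)
    _ ≤ 1 / (8 * (V * A * |β|)) + 1 / (8 * (V * A * |β|)) + (9 * 3.15 / 16) / (V * A * |β|) := by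
        linarith
    _ ≤ 3 / (V * A * |β|) := by
        have e1 : 1 / (8 * (V * A * |β|)) + 1 / (8 * (V * A * |β|)) + (9 * 3.15 / 16) / (V * A * |β|) =
            (1 / 4 + 9 * 3.15 / 16) / ((V : ℝ) * A * |β|) := by
          field_simp
          ring
        rw [e1]
        gcongr
        norm_num

end Pool.Agent.GM
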