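import Pool.Agent.Lib.MP_1e1427_nt.GM.Stm

set_option autoImplicit false

/-!
[GM 06] `wd`: Weyl differencing.   (helper26)
-/

open Finset MeasureTheory
open Pool.Agent.APP (ee nn)

namespace Pool.Agent.GM

private lemma wd_id (g : ℕ → ℂ) (N : ℕ) :
    ‖∑ j ∈ range N, g j‖ ^ 2 = ∑ j ∈ range N, ‖g j‖ ^ 2 +
      2 * (∑ h ∈ Ico 1 N, ∑ j ∈ range (N - h), g (j + h) * (starRingEnd ℂ) (g j)).re := by
  induction N with
  | zero => simp
  | succ N ih =>
    have h1 : ∑ h ∈ Ico 1 (N + 1), ∑ j ∈ range (N + 1 - h), g (j + h) * (starRingEnd ℂ) (g j) =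
        ∑ h ∈ Ico 1 N, ∑ j ∈ range (N - h), g (j + h) * (starRingEnd ℂ) (g j) +
          g N * (starRingEnd ℂ) (∑ j ∈ range N, g j) := by
      have h2 : ∀ h ∈ Ico 1 (N + 1), ∑ j ∈ range (N + 1 - h), g (j + h) * (starRingEnd ℂ) (g j) =
          ∑ j ∈ range (N - h), g (j + h) * (starRingEnd ℂ) (g j) +
            g N * (starRingEnd ℂ) (g (N - h)) := by
        intro h hh
        rw [Finset.mem_Ico] at hh
        have e1 : N + 1 - h = (N - h) + 1 := by omega
        have e2 : N - h + h = N := by omega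
        rw [e1, Finset.sum_range_succ, e2]
      rw [Finset.sum_congr rfl h2, Finset.sum_add_distrib]
      congr 1
      · rcases Nat.eq_zero_or_pos N with h0 | h0
        · subst h0; simp
        · rw [Finset.sum_Ico_succ_top (by omega)]
          simp
      · rw [← Finset.mul_sum, map_sum]
        congr 1
        rw [← Finset.sum_range_reflect, Finset.sum_Ico_eq_sum_range]
        apply Finset.sum_congr
        · congr 1
        · intro j hj
          rw [Finset.mem_range] at hj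
          congr 2
          omega
    rw [h1, Finset.sum_range_succ, Finset.sum_range_succ (fun j => ‖g j‖ ^ 2)]
    rw [Complex.sq_norm, add_comm (∑ j ∈ range N, g j) (g N), Complex.normSq_add,
      ← Complex.sq_norm, ← Complex.sq_norm, ih, Complex.add_re]
    ring

private lemma wd_inner (V c A h M : ℕ) (α : ℝ) :
    ∑ j ∈ range M, ee (α * ((V : ℝ) * ((A + (j + h) : ℕ) : ℝ) ^ 2 + (c : ℝ) * ((A + (j + h) : ℕ) : ℝ))) *
      (starRingEnd ℂ) (ee (α * ((V : ℝ) * ((A + j : ℕ) : ℝ) ^ 2 + (c : ℝ) * ((A + j : ℕ) : ℝ)))) =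
    ee (α * (V * (2 * A * h + h ^ 2) + c * h)) * ∑ j ∈ range M, ee ((j : ℝ) * (2 * V * h * α)) := by
  rw [Finset.mul_sum]
  apply Finset.sum_congr rfl
  intro j _
  rw [← Pool.Agent.APP.ee_sub, ← Pool.Agent.APP.ee_add]
  congr 1
  push_cast
  ring

private lemma wd_mn (x N t : ℝ) (hx : x ≤ N) (hxt : x * (2 * nn t) ≤ 1) : 2 * x ≤ mn (2 * N) t := by
  unfold mn
  split_ifs with h
  · linarith
  · have h0 : 0 ≤ nn t := Pool.Agent.APP.nn_nonneg t
    rcases h0.eq_or_lt with h1 | h1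
    · exfalso
      apply h
      rw [← h1]
      norm_num
    · rw [le_div_iff₀ h1]
      linarith

theorem p_wd : S_wd := by
  intro V c A B α hAB
  have e1 : Qs (Ico A B) V c α =
      ∑ j ∈ range (B - A), ee (α * ((V : ℝ) * ((A + j : ℕ) : ℝ) ^ 2 + (c : ℝ) * ((A + j : ℕ) : ℝ))) := by
    unfold Qs
    rw [Finset.sum_Ico_eq_sum_range]
  rw [e1, wd_id (fun j => ee (α * ((V : ℝ) * ((A + j : ℕ) : ℝ) ^ 2 + (c : ℝ) * ((A + j : ℕ) : ℝ))))]
  have e2 : ((B - A : ℕ) : ℝ) = (B : ℝ) - A := by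
    rw [Nat.cast_sub hAB.le]
  have h1 : ∑ j ∈ range (B - A),
      ‖ee (α * ((V : ℝ) * ((A + j : ℕ) : ℝ) ^ 2 + (c : ℝ) * ((A + j : ℕ) : ℝ)))‖ ^ 2 = (B : ℝ) - A := by
    rw [← e2]
    simp [Pool.Agent.APP.norm_ee]
  refine add_le_add h1.le ?_
  refine (mul_le_mul_of_nonneg_left (Complex.re_le_norm _) (by norm_num)).trans ?_
  refine (mul_le_mul_of_nonneg_left (norm_sum_le _ _) (by norm_num)).trans ?_
  rw [Finset.mul_sum]
  apply Finset.sum_le_sum
  intro h hh
  rw [Finset.mem_Ico] at hh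
  apply wd_mn
  · have h3 := wd_inner V c A h (B - A - h) α
    rw [h3, norm_mul, Pool.Agent.APP.norm_ee, one_mul]
    refine (Pool.Agent.APP.norm_geom_le_card _ _).trans ?_
    rw [← e2]
    exact_mod_cast Nat.sub_le _ _
  · have h3 := wd_inner V c A h (B - A - h) α
    rw [h3, norm_mul, Pool.Agent.APP.norm_ee, one_mul]
    exact Pool.Agent.APP.norm_geom_mul_le _ _

end Pool.Agent.GM
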