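import Pool.Agent.Lib.MP_1e1427_nt.GM.Stm

set_option autoImplicit false

open Finset MeasureTheory
open Pool.Agent.APP (ee nn)

namespace Pool.Agent.GM

private lemma weyl_mn_nonneg (M t : ℝ) (hM : 0 ≤ M) : 0 ≤ mn M t := by
  unfold mn
  split_ifs
  · exact hM
  · exact div_nonneg zero_le_one (Pool.Agent.APP.nn_nonneg t)

theorem p_weyl (h_wd : S_wd) (h_ms : S_ms) : S_weyl := by
  intro V c hV
  refine ⟨2000 * V, ?_⟩
  intro K hK α q r hq1 hq2 hr hα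
  have hK1 : 1 ≤ K := by nlinarith
  have hq0 : 1 ≤ q := by
    have : 0 < K ^ 5 := Nat.pow_pos (by omega)
    omega
  have hKR : (1 : ℝ) ≤ (K : ℝ) := by exact_mod_cast hK1
  have hVR : (1 : ℝ) ≤ (V : ℝ) := by exact_mod_cast hV
  have hKV : (2000 : ℝ) * V ≤ K := by exact_mod_cast hK
  have hqR : (1 : ℝ) ≤ (q : ℝ) := by exact_mod_cast hq0
  have hqR1 : (K : ℝ) ^ 5 ≤ q := by exact_mod_cast hq1.le
  have hqR2 : (q : ℝ) ≤ (K : ℝ) ^ 42 := by exact_mod_cast hq2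
  have hpos24 : 1 ≤ K ^ 24 := Nat.one_le_pow _ _ (by omega)
  have hAB : K ^ 24 < 3 * K ^ 24 := by omega
  have hw := h_wd V c (K ^ 24) (3 * K ^ 24) α hAB
  have hBA : 3 * K ^ 24 - K ^ 24 = 2 * K ^ 24 := by omega
  rw [hBA] at hw
  have hBAR : (((3 * K ^ 24 : ℕ) : ℝ) - ((K ^ 24 : ℕ) : ℝ)) = 2 * (K : ℝ) ^ 24 := by
    push_cast; ring
  rw [hBAR] at hw
  have h24 : (1 : ℝ) ≤ (K : ℝ) ^ 24 := one_le_pow₀ hKR
  have hM : (1 : ℝ) ≤ 2 * (2 * (K : ℝ) ^ 24) := by linarith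
  have hm := h_ms (2 * V * (2 * K ^ 24)) q r α (2 * (2 * (K : ℝ) ^ 24)) hq0 hr hα hM
  have hsum : ∑ h ∈ Ico 1 (2 * K ^ 24), mn (2 * (2 * (K : ℝ) ^ 24)) (2 * (V : ℝ) * (h : ℕ) * α) ≤
      ∑ j ∈ Ico 1 (2 * V * (2 * K ^ 24) + 1), mn (2 * (2 * (K : ℝ) ^ 24)) (((j : ℕ) : ℝ) * α) := by
    have hinj : Set.InjOn (fun h : ℕ => 2 * V * h) (Ico 1 (2 * K ^ 24) : Finset ℕ) := by
      intro x _ y _ hxy
      have h2V : 0 < 2 * V := by omega
      exact Nat.eq_of_mul_eq_mul_left h2V hxy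
    have himg : ∑ h ∈ Ico 1 (2 * K ^ 24), mn (2 * (2 * (K : ℝ) ^ 24)) (2 * (V : ℝ) * (h : ℕ) * α) =
        ∑ j ∈ (Ico 1 (2 * K ^ 24)).image (fun h : ℕ => 2 * V * h),
          mn (2 * (2 * (K : ℝ) ^ 24)) (((j : ℕ) : ℝ) * α) := by
      rw [Finset.sum_image hinj]
      apply Finset.sum_congr rfl
      intro h _
      push_cast
      rfl
    rw [himg]
    apply Finset.sum_le_sum_of_subset_of_nonneg
    · intro j hj
      rw [Finset.mem_image] at hj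
      obtain ⟨h, hh, rfl⟩ := hj
      rw [Finset.mem_Ico] at hh ⊢
      constructor
      · have : 1 ≤ 2 * V * h := by
          have h1 : 1 ≤ 2 * V := by omega
          exact le_trans h1 (Nat.le_mul_of_pos_right _ (by omega))
        exact this
      · have : 2 * V * h ≤ 2 * V * (2 * K ^ 24) := Nat.mul_le_mul_left _ hh.2.le
        omega
    · intro j _ _
      exact weyl_mn_nonneg _ _ (by linarith)
  have hlog : Real.log q ≤ 42 * K := by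
    have h1 : Real.log q ≤ Real.log ((K : ℝ) ^ 42) :=
      Real.log_le_log (by linarith) hqR2
    rw [Real.log_pow] at h1
    have h2 : Real.log (K : ℝ) ≤ K := by
      have := Real.log_le_sub_one_of_pos (show (0 : ℝ) < K by linarith)
      linarith
    push_cast at h1
    linarith
  have hlog0 : 0 ≤ Real.log q := Real.log_nonneg hqR
  have hbd : 8 * (((2 * V * (2 * K ^ 24) : ℕ) : ℝ) / q + 1) *
      (2 * (2 * (K : ℝ) ^ 24) + q * (1 + Real.log q)) ≤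
      128 * V * (K : ℝ) ^ 43 + 32 * V * (K : ℝ) ^ 24 * (43 * K) + 32 * (K : ℝ) ^ 24 +
        8 * ((K : ℝ) ^ 42 * (43 * K)) := by
    have hq' : (0 : ℝ) < q := by linarith
    have e1 : 8 * (((2 * V * (2 * K ^ 24) : ℕ) : ℝ) / q + 1) *
      (2 * (2 * (K : ℝ) ^ 24) + q * (1 + Real.log q)) =
      128 * V * ((K : ℝ) ^ 48 / q) + 32 * V * (K : ℝ) ^ 24 * (1 + Real.log q) + 32 * (K : ℝ) ^ 24
        + 8 * (q * (1 + Real.log q)) := by
      push_cast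
      field_simp
      ring
    rw [e1]
    have i1 : (K : ℝ) ^ 48 / q ≤ (K : ℝ) ^ 43 := by
      rw [div_le_iff₀ hq']
      calc (K : ℝ) ^ 48 = (K : ℝ) ^ 43 * (K : ℝ) ^ 5 := by ring
        _ ≤ (K : ℝ) ^ 43 * q := by
            apply mul_le_mul_of_nonneg_left hqR1 (by positivity)
    have i2 : 1 + Real.log q ≤ 43 * K := by linarith
    have i3 : (q : ℝ) * (1 + Real.log q) ≤ (K : ℝ) ^ 42 * (43 * K) := by
      apply mul_le_mul hqR2 i2 (by linarith) (by positivity)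
    have i4 : 128 * V * ((K : ℝ) ^ 48 / q) ≤ 128 * V * (K : ℝ) ^ 43 := by
      apply mul_le_mul_of_nonneg_left i1 (by positivity)
    have i5 : 32 * V * (K : ℝ) ^ 24 * (1 + Real.log q) ≤ 32 * V * (K : ℝ) ^ 24 * (43 * K) := by
      apply mul_le_mul_of_nonneg_left i2 (by positivity)
    linarith
  have htot : ‖Qs (Ico (K ^ 24) (3 * K ^ 24)) V c α‖ ^ 2 ≤ 2 * (K : ℝ) ^ 24 +
      (128 * V * (K : ℝ) ^ 43 + 32 * V * (K : ℝ) ^ 24 * (43 * K) + 32 * (K : ℝ) ^ 24 +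
        8 * ((K : ℝ) ^ 42 * (43 * K))) := by
    linarith
  refine htot.trans ?_
  have j1 : (K : ℝ) ^ 24 ≤ (K : ℝ) ^ 43 := pow_le_pow_right₀ hKR (by norm_num)
  have j2 : (K : ℝ) ^ 24 * K ≤ (K : ℝ) ^ 43 := by
    calc (K : ℝ) ^ 24 * K = (K : ℝ) ^ 25 := by ring
      _ ≤ (K : ℝ) ^ 43 := pow_le_pow_right₀ hKR (by norm_num)
  have j3 : (K : ℝ) ^ 42 * (43 * K) = 43 * (K : ℝ) ^ 43 := by ring
  have j4 : 32 * V * (K : ℝ) ^ 24 * (43 * K) ≤ 1376 * V * (K : ℝ) ^ 43 := by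
    calc 32 * V * (K : ℝ) ^ 24 * (43 * K) = 1376 * V * ((K : ℝ) ^ 24 * K) := by ring
      _ ≤ 1376 * V * (K : ℝ) ^ 43 := by
        apply mul_le_mul_of_nonneg_left j2 (by positivity)
  have h43 : (0 : ℝ) ≤ (K : ℝ) ^ 43 := by positivity
  have j5 : (K : ℝ) ^ 43 ≤ V * (K : ℝ) ^ 43 := by nlinarith
  calc 2 * (K : ℝ) ^ 24 +
      (128 * V * (K : ℝ) ^ 43 + 32 * V * (K : ℝ) ^ 24 * (43 * K) + 32 * (K : ℝ) ^ 24 +
        8 * ((K : ℝ) ^ 42 * (43 * K))) ≤ 2000 * V * (K : ℝ) ^ 43 := by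
        rw [j3]; linarith
    _ ≤ K * (K : ℝ) ^ 43 := by
        apply mul_le_mul_of_nonneg_right hKV h43
    _ = (K : ℝ) ^ 44 := by ring

end Pool.Agent.GM
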